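import Pool.Agent.Lib_MP_9e7d46_co.Defs

set_option autoImplicit false
set_option linter.unusedSectionVars false

/-! Piece Q1: gluing two pairings along a cut. -/

namespace Pool.Agent.DJ9e

open Classical

universe u v

variable {V : Type u} {A : Type v}

theorem q1_dM_compl [Fintype V] (μ : V → V) (hi : ∀ u, μ (μ u) = u) (U : Set V) :
    dM μ Uᶜ = dM μ U := by
  unfold dM
  let e : Equiv.Perm V := ⟨μ, μ, hi, hi⟩
  rw [← Equiv.sum_comp e]
  refine Finset.sum_congr rfl fun a _ => ?_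
  have he : e a = μ a := rfl
  rw [he, hi a]
  by_cases h1 : a ∈ U <;> by_cases h2 : μ a ∈ U <;> simp [h1, h2]

theorem q1_dM_empty [Fintype V] (μ : V → V) : dM μ (∅ : Set V) = 0 := by
  unfold dM; simp

theorem q1_dd_submod [Fintype A] (s t : A → V) (U X : Set V) :
    dd s t (U ∩ X) + dd s t (U ∪ X)ᶜ ≤ dd s t U + dd s t X := by
  unfold dd
  rw [← Finset.sum_add_distrib, ← Finset.sum_add_distrib]
  refine Finset.sum_le_sum fun a _ => ?_
  by_cases h1 : s a ∈ U <;> by_cases h2 : t a ∈ U <;> by_cases h3 : s a ∈ X <;>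
    by_cases h4 : t a ∈ X <;> simp [h1, h2, h3, h4]

theorem q1_dd_posimod [Fintype A] (s t : A → V) (U X : Set V) :
    dd s t (U \ X) + dd s t (X \ U) ≤ dd s t U + dd s t X := by
  unfold dd
  rw [← Finset.sum_add_distrib, ← Finset.sum_add_distrib]
  refine Finset.sum_le_sum fun a _ => ?_
  by_cases h1 : s a ∈ U <;> by_cases h2 : t a ∈ U <;> by_cases h3 : s a ∈ X <;>
    by_cases h4 : t a ∈ X <;> simp [h1, h2, h3, h4]

/-- Q1 (gluing two pairings along a cut). -/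
theorem glueM [Fintype V] [Fintype A] (s t : A → V) (N : Set V) (k : ℕ) (hk : 2 ≤ k)
    (X : Set V)
    (hX : dd s t X = 2 ∨ (NSep N X ∧ dd s t X = 2 * k))
    (μ₁ μ₂ : V → V)
    (h1i : ∀ u, μ₁ (μ₁ u) = u) (h2i : ∀ u, μ₂ (μ₂ u) = u)
    (h1f : ∀ u, u ∉ X → μ₁ u = u) (h2f : ∀ u, u ∈ X → μ₂ u = u)
    (h1o : ∀ u, u ∈ X → (μ₁ u ≠ u ↔ Odd (dd s t {u})))
    (h2o : ∀ u, u ∉ X → (μ₂ u ≠ u ↔ Odd (dd s t {u})))
    (h1b : ∀ U : Set V, U.Nonempty → Uᶜ.Nonempty → Sat Xᶜ U → BdOn s t N k μ₁ U)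
    (h2b : ∀ U : Set V, U.Nonempty → Uᶜ.Nonempty → Sat X U → BdOn s t N k μ₂ U) :
    Pairing s t N k (fun u => μ₁ (μ₂ u)) := by
  have h1X : ∀ u, u ∈ X → μ₁ u ∈ X := by
    intro u hu
    by_contra h
    have h2 := h1f _ h
    rw [h1i] at h2
    exact h (h2 ▸ hu)
  have h2X : ∀ u, u ∉ X → μ₂ u ∉ X := by
    intro u hu h
    have h2 := h2f _ h
    rw [h2i] at h2
    exact hu (h2.symm ▸ h)
  have hin : ∀ u, u ∈ X → μ₁ (μ₂ u) = μ₁ u := fun u hu => by rw [h2f u hu]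
  have hout : ∀ u, u ∉ X → μ₁ (μ₂ u) = μ₂ u := fun u hu => h1f _ (h2X u hu)
  -- sum decomposition
  have hE : ∀ U : Set V, dM (fun u => μ₁ (μ₂ u)) U = dM μ₁ U + dM μ₂ U := by
    intro U
    unfold dM
    rw [← Finset.sum_add_distrib]
    refine Finset.sum_congr rfl fun a _ => ?_
    beta_reduce
    by_cases h : a ∈ X
    · rw [hin a h, h2f a h]
      simp
    · rw [hout a h, h1f a h]
      simp
  have hE1 : ∀ U : Set V, dM μ₁ (U ∩ X) = dM μ₁ U := by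
    intro U
    unfold dM
    refine Finset.sum_congr rfl fun a _ => ?_
    by_cases h : a ∈ X
    · have := h1X a h
      simp [h, this]
    · simp [h, h1f a h]
  have hE2 : ∀ U : Set V, dM μ₂ (U \ X) = dM μ₂ U := by
    intro U
    unfold dM
    refine Finset.sum_congr rfl fun a _ => ?_
    by_cases h : a ∈ X
    · simp [h, h2f a h]
    · have := h2X a h
      simp [h, this]
  have hc1 := q1_dM_compl μ₁ h1i
  have hc2 := q1_dM_compl μ₂ h2i
  refine ⟨?_, ?_, ?_⟩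
  · intro u
    by_cases h : u ∈ X
    · show μ₁ (μ₂ (μ₁ (μ₂ u))) = u
      rw [hin u h, hin _ (h1X u h), h1i]
    · show μ₁ (μ₂ (μ₁ (μ₂ u))) = u
      rw [hout u h, hout _ (h2X u h), h2i]
  · intro u
    by_cases h : u ∈ X
    · show μ₁ (μ₂ u) ≠ u ↔ _
      rw [hin u h]; exact h1o u h
    · show μ₁ (μ₂ u) ≠ u ↔ _
      rw [hout u h]; exact h2o u h
  · intro U hU hUc
    by_cases hS1 : Sat Xᶜ U
    · have h0 : dM μ₂ U = 0 := by
        rcases hS1 with h | h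
        · have h3 : dM μ₂ (Uᶜ \ X) = dM μ₂ ∅ := by
            congr 1
            ext x
            simp only [Set.mem_sdiff, Set.mem_compl_iff, Set.mem_empty_iff_false, iff_false]
            rintro ⟨h4, h5⟩
            exact h4 (h h5)
          rw [hE2, hc2, q1_dM_empty] at h3
          exact h3
        · have h3 : dM μ₂ (U \ X) = dM μ₂ ∅ := by
            congr 1
            ext x
            simp only [Set.mem_sdiff, Set.mem_empty_iff_false, iff_false]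
            rintro ⟨h4, h5⟩
            exact h h5 h4
          rw [hE2, q1_dM_empty] at h3
          exact h3
      have hb := h1b U hU hUc hS1
      unfold BdOn at hb ⊢
      rw [hE, h0, add_zero]
      exact hb
    by_cases hS2 : Sat X U
    · have h0 : dM μ₁ U = 0 := by
        rcases hS2 with h | h
        · have h3 : dM μ₁ (Uᶜ ∩ X) = dM μ₁ ∅ := by
            congr 1
            ext x
            simp only [Set.mem_inter_iff, Set.mem_compl_iff, Set.mem_empty_iff_false, iff_false]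
            rintro ⟨h4, h5⟩
            exact h4 (h h5)
          rw [hE1, hc1, q1_dM_empty] at h3
          exact h3
        · have h3 : dM μ₁ (U ∩ X) = dM μ₁ ∅ := by
            congr 1
            ext x
            simp only [Set.mem_inter_iff, Set.mem_empty_iff_false, iff_false]
            rintro ⟨h4, h5⟩
            exact h h5 h4
          rw [hE1, q1_dM_empty] at h3
          exact h3
      have hb := h2b U hU hUc hS2
      unfold BdOn at hb ⊢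
      rw [hE, h0, zero_add]
      exact hb
    -- the four quadrants are nonempty
    unfold Sat at hS1 hS2
    push Not at hS1 hS2
    obtain ⟨hS1a, hS1b⟩ := hS1
    obtain ⟨hS2a, hS2b⟩ := hS2
    rw [Set.not_subset] at hS1a hS1b hS2a hS2b
    obtain ⟨xS, hxS1, hxS2⟩ := hS1a
    obtain ⟨xQ, hxQ1, hxQ2⟩ := hS1b
    obtain ⟨xR, hxR1, hxR2⟩ := hS2a
    obtain ⟨xP, hxP1, hxP2⟩ := hS2b
    have hxQ2' : xQ ∈ U := by simpa using hxQ2
    have hxP2' : xP ∈ U := by simpa using hxP2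
    have hbP := h1b (U ∩ X) ⟨xP, hxP2', hxP1⟩ ⟨xQ, fun h => hxQ1 h.2⟩
      (Or.inr (fun x hx h => hx h.2))
    have hbR := h1b (X \ U) ⟨xR, hxR1, hxR2⟩ ⟨xQ, fun h => hxQ1 h.1⟩
      (Or.inr (fun x hx h => hx h.1))
    have hbQ := h2b (U \ X) ⟨xQ, hxQ2', hxQ1⟩ ⟨xP, fun h => h.2 hxP1⟩
      (Or.inr (fun x hx h => h.2 hx))
    have hbS := h2b (U ∪ X)ᶜ ⟨xS, fun h => h.elim hxS2 hxS1⟩ ⟨xP, fun h => h (Or.inr hxP1)⟩
      (Or.inr (fun x hx h => h (Or.inr hx)))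
    have hmP : dM μ₁ (U ∩ X) = dM μ₁ U := hE1 U
    have hmR : dM μ₁ (X \ U) = dM μ₁ U := by
      have h3 : X \ U = Uᶜ ∩ X := by ext x; simp [and_comm]
      rw [h3, hE1, hc1]
    have hmQ : dM μ₂ (U \ X) = dM μ₂ U := hE2 U
    have hmS : dM μ₂ (U ∪ X)ᶜ = dM μ₂ U := by
      have h3 : (U ∪ X)ᶜ = Uᶜ \ X := by ext x; simp
      rw [h3, hE2, hc2]
    unfold BdOn at hbP hbR hbQ hbS ⊢
    rw [hmP] at hbP
    rw [hmR] at hbR
    rw [hmQ] at hbQ
    rw [hmS] at hbS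
    rw [hE]
    have hsub := q1_dd_submod s t U X
    have hpos := q1_dd_posimod s t U X
    obtain ⟨hbP1, hbP2⟩ := hbP
    obtain ⟨hbR1, hbR2⟩ := hbR
    obtain ⟨hbQ1, hbQ2⟩ := hbQ
    obtain ⟨hbS1, hbS2⟩ := hbS
    rcases hX with hX | ⟨hXN, hX⟩
    · refine ⟨by omega, ?_⟩
      rintro ⟨⟨n1, hn1N, hn1U⟩, ⟨n2, hn2N, hn2U⟩⟩
      by_cases h : n1 ∈ X
      · have := hbP2 ⟨⟨n1, hn1N, hn1U, h⟩, ⟨n2, hn2N, fun h => hn2U h.1⟩⟩
        omega
      · have := hbQ2 ⟨⟨n1, hn1N, hn1U, h⟩, ⟨n2, hn2N, fun h => hn2U h.1⟩⟩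
        omega
    · obtain ⟨⟨p1, hp1N, hp1X⟩, ⟨p2, hp2N, hp2X⟩⟩ := hXN
      refine ⟨?_, ?_⟩
      · by_cases h : p1 ∈ U
        · have := hbP2 ⟨⟨p1, hp1N, h, hp1X⟩, ⟨p2, hp2N, fun h => hp2X h.2⟩⟩
          omega
        · have := hbR2 ⟨⟨p1, hp1N, hp1X, h⟩, ⟨p2, hp2N, fun h => hp2X h.1⟩⟩
          omega
      · rintro ⟨⟨n1, hn1N, hn1U⟩, ⟨n2, hn2N, hn2U⟩⟩
        have kP : (∃ m ∈ N, m ∈ U ∩ X) → dM μ₁ U + 2 * k ≤ dd s t (U ∩ X) := fun h =>
          hbP2 ⟨h, ⟨n2, hn2N, fun h => hn2U h.1⟩⟩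
        have kQ : (∃ m ∈ N, m ∈ U \ X) → dM μ₂ U + 2 * k ≤ dd s t (U \ X) := fun h =>
          hbQ2 ⟨h, ⟨n2, hn2N, fun h => hn2U h.1⟩⟩
        have kR : (∃ m ∈ N, m ∈ X \ U) → dM μ₁ U + 2 * k ≤ dd s t (X \ U) := fun h =>
          hbR2 ⟨h, ⟨n1, hn1N, fun h => h.2 hn1U⟩⟩
        have kS : (∃ m ∈ N, m ∈ (U ∪ X)ᶜ) → dM μ₂ U + 2 * k ≤ dd s t (U ∪ X)ᶜ := fun h =>
          hbS2 ⟨h, ⟨n1, hn1N, fun h => h (Or.inl hn1U)⟩⟩
        have mS : ∀ m, m ∉ U → m ∉ X → m ∈ (U ∪ X)ᶜ := fun m h1 h2 h => h.elim h1 h2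
        by_cases c1 : n1 ∈ X
        · have a1 := kP ⟨n1, hn1N, hn1U, c1⟩
          by_cases c2 : n2 ∈ X
          · by_cases c3 : p2 ∈ U
            · have a2 := kQ ⟨p2, hp2N, c3, hp2X⟩
              have a3 := kR ⟨n2, hn2N, c2, hn2U⟩
              omega
            · have a2 := kS ⟨p2, hp2N, mS _ c3 hp2X⟩
              omega
          · have a2 := kS ⟨n2, hn2N, mS _ hn2U c2⟩
            omega
        · have a1 := kQ ⟨n1, hn1N, hn1U, c1⟩
          by_cases c2 : n2 ∈ X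
          · have a2 := kR ⟨n2, hn2N, c2, hn2U⟩
            omega
          · have a2 := kS ⟨n2, hn2N, mS _ hn2U c2⟩
            by_cases c3 : p1 ∈ U
            · have a3 := kP ⟨p1, hp1N, c3, hp1X⟩
              omega
            · have a3 := kR ⟨p1, hp1N, hp1X, c3⟩
              omega

end Pool.Agent.DJ9e
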