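import Pool.Agent.Lib_MP_9e7d46_co.Defs

/-!
# Lifting a pairing across a splitting (MP_9e7d46_co, piece Q5)
-/

set_option autoImplicit false
set_option linter.unusedSectionVars false

namespace Pool.Agent.DJ9e

open Classical

universe u v

variable {V : Type u} {A : Type v}

/-- The number of arcs crossing `U` drops by an even number under the splitting. -/
theorem lift_dd [Fintype A] (s t : A → V) (z : V) (a b : A) (u v : V) (hab : b ≠ a)
    (ha : Jn s t a z u) (hb : Jn s t b z v) (U : Set V) :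
    ∃ j : ℕ, dd s t U = dd (spS s a b z u) (spT t a b z v) U + 2 * j := by
  unfold dd
  have ha1 : a ∈ (Finset.univ : Finset A) := Finset.mem_univ a
  have hb1 : b ∈ (Finset.univ : Finset A).erase a := Finset.mem_erase.2 ⟨hab, Finset.mem_univ b⟩
  rw [← Finset.add_sum_erase _ _ ha1, ← Finset.add_sum_erase _ _ hb1,
    ← Finset.add_sum_erase (Finset.univ : Finset A)
      (fun c => if (spS s a b z u c ∈ U ↔ spT t a b z v c ∈ U) then 0 else 1) ha1,
    ← Finset.add_sum_erase ((Finset.univ : Finset A).erase a)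
      (fun c => if (spS s a b z u c ∈ U ↔ spT t a b z v c ∈ U) then 0 else 1) hb1]
  have hrest : ∑ x ∈ ((Finset.univ : Finset A).erase a).erase b,
      (if (spS s a b z u x ∈ U ↔ spT t a b z v x ∈ U) then 0 else 1) =
      ∑ x ∈ ((Finset.univ : Finset A).erase a).erase b, (if (s x ∈ U ↔ t x ∈ U) then 0 else 1) := by
    refine Finset.sum_congr rfl fun c hc => ?_
    have h1 : c ≠ b := (Finset.mem_erase.1 hc).1
    have h2 : c ≠ a := (Finset.mem_erase.1 (Finset.mem_erase.1 hc).2).1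
    simp only [spS, spT, if_neg h1, if_neg h2]
  rw [hrest]
  have h3 : spS s a b z u a = u := by simp [spS, hab.symm]
  have h4 : spT t a b z v a = v := by simp [spT, hab.symm]
  have h5 : spS s a b z u b = z := by simp [spS]
  have h6 : spT t a b z v b = z := by simp [spT]
  simp only [h3, h4, h5, h6]
  have key : ∀ p q r R : ℕ, (p = 0 ∨ p = 1) → (q = 0 ∨ q = 1) → (∃ j, p + q = r + 2 * j) →
      ∃ j, p + (q + R) = r + (0 + R) + 2 * j := by
    rintro p q r R - - ⟨j, hj⟩
    exact ⟨j, by omega⟩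
  rw [if_pos (trivial : True)]
  refine key _ _ _ _ (by split_ifs <;> simp) (by split_ifs <;> simp) ?_
  rcases ha with ⟨h7, h8⟩ | ⟨h7, h8⟩ <;> rcases hb with ⟨h9, h10⟩ | ⟨h9, h10⟩ <;>
    rw [h7, h8, h9, h10] <;>
    by_cases hz : z ∈ U <;> by_cases hu : u ∈ U <;> by_cases hv : v ∈ U <;>
    simp [hz, hu, hv]

/-- `dM` of the complement. -/
theorem lift_dM_compl [Fintype V] {μ : V → V} (hi : ∀ u, μ (μ u) = u) (U : Set V) :
    dM μ Uᶜ = dM μ U := by
  unfold dM
  let e : V ≃ V := ⟨μ, μ, hi, hi⟩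
  rw [← Equiv.sum_comp e]
  refine Finset.sum_congr rfl fun u _ => ?_
  have he : e u = μ u := rfl
  rw [he, hi]
  by_cases h1 : u ∈ U <;> by_cases h2 : μ u ∈ U <;> simp [h1, h2]

/-- number of arcs joining `z` and `w`. -/
noncomputable def liftE [Fintype A] (s t : A → V) (z w : V) : ℕ :=
  ∑ c, if Jn s t c z w then 1 else 0

theorem lift_pair [Fintype A] (s t : A → V) {z w : V} (hzw : z ≠ w) :
    dd s t {z, w} + 2 * liftE s t z w = dd s t {z} + dd s t {w} := by
  unfold dd liftE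
  rw [Finset.mul_sum, ← Finset.sum_add_distrib, ← Finset.sum_add_distrib]
  refine Finset.sum_congr rfl fun c _ => ?_
  simp only [Set.mem_insert_iff, Set.mem_singleton_iff, Jn]
  by_cases h1 : s c = z
  · have h1' : s c ≠ w := fun h => hzw (h1.symm.trans h)
    by_cases h2 : t c = z
    · have h2' : t c ≠ w := fun h => hzw (h2.symm.trans h)
      simp [h1, h2, hzw]
    · by_cases h3 : t c = w
      · simp [h1, h3, hzw, hzw.symm]
      · simp [h1, h2, h3, hzw]
  · by_cases h1' : s c = w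
    · by_cases h2 : t c = z
      · simp [h1', h2, hzw, hzw.symm]
      · by_cases h3 : t c = w
        · simp [h1', h3, hzw.symm]
        · simp [h1', h2, h3, hzw.symm]
    · by_cases h2 : t c = z
      · simp [h1, h1', h2, hzw]
      · by_cases h3 : t c = w
        · simp [h1, h1', h3, hzw.symm]
        · simp [h1, h1', h2, h3]

theorem lift_step [Fintype A] (s t : A → V) {z w : V} {X : Set V} (hz : z ∈ X) (hw : w ∉ X)
    (hX : ∀ c, ¬ ((s c = w ∧ t c ∈ X ∧ t c ≠ z) ∨ (t c = w ∧ s c ∈ X ∧ s c ≠ z))) :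
    dd s t (insert w X) + 2 * liftE s t z w = dd s t X + dd s t {w} := by
  unfold dd liftE
  rw [Finset.mul_sum, ← Finset.sum_add_distrib, ← Finset.sum_add_distrib]
  refine Finset.sum_congr rfl fun c _ => ?_
  have h0 := hX c
  have hzw : z ≠ w := fun h => hw (h ▸ hz)
  simp only [Set.mem_insert_iff, Set.mem_singleton_iff, Jn]
  by_cases h1 : s c = w
  · by_cases h2 : t c = w
    · simp [h1, h2, hw, hzw.symm]
    · by_cases h3 : t c ∈ X
      · have h4 : t c = z := by
          by_contra h4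
          exact h0 (Or.inl ⟨h1, h3, h4⟩)
        simp [h1, h4, hw, hz, hzw, hzw.symm]
      · have h4 : t c ≠ z := fun h => h3 (h ▸ hz)
        simp [h1, h2, h3, h4, hw, hzw.symm]
  · by_cases h2 : t c = w
    · by_cases h3 : s c ∈ X
      · have h4 : s c = z := by
          by_contra h4
          exact h0 (Or.inr ⟨h2, h3, h4⟩)
        simp [h2, h4, hw, hz, hzw, hzw.symm]
      · have h4 : s c ≠ z := fun h => h3 (h ▸ hz)
        simp [h1, h2, h3, h4, hw, hzw.symm]
    · by_cases h3 : s c ∈ X <;> by_cases h4 : t c ∈ X <;> simp [h1, h2, h3, h4]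

/-- The bound for sets whose only terminal is `z`. -/
theorem lift_main [Fintype V] [Fintype A] (s t : A → V) (N : Set V) (k : ℕ)
    (hyp : HypN s t N k)
    (hcrit : ∀ a, s a ≠ t a → (s a ∈ N ∧ dd s t {s a} = 2 * k) ∨ (t a ∈ N ∧ dd s t {t a} = 2 * k))
    (z : V) (hzN : z ∈ N) (hz : dd s t {z} = 2 * k) (μ : V → V)
    (hodd : ∀ u, μ u ≠ u ↔ Odd (dd s t {u}))
    (W : Set V) (hzW : z ∈ W) (hWN : ∀ n ∈ N, n ∈ W → n = z) (n₂ : V) (hn₂ : n₂ ∈ N)
    (hn₂W : n₂ ∉ W) : dM μ W + 2 * k ≤ dd s t W := by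
  have hind : ∀ W₁ : Finset V, (∀ w ∈ W₁, w ∈ W ∧ w ≠ z) →
      2 * k + (W₁.filter fun w => Odd (dd s t {w})).card ≤ dd s t (insert z (W₁ : Set V)) := by
    intro W₁
    induction W₁ using Finset.induction_on with
    | empty =>
      intro _
      simp [hz]
    | insert w W₁ hw ih =>
      intro hW₁
      have ih' := ih fun x hx => hW₁ x (Finset.mem_insert_of_mem hx)
      obtain ⟨hwW, hwz⟩ := hW₁ w (Finset.mem_insert_self _ _)
      have h1 : dd s t (insert w (insert z (W₁ : Set V))) + 2 * liftE s t z w =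
          dd s t (insert z (W₁ : Set V)) + dd s t {w} := by
        refine lift_step s t (Set.mem_insert _ _) ?_ ?_
        · simp [hwz, hw]
        · have hno : ∀ x, x ∈ insert z (W₁ : Set V) → x ≠ z → x ∉ N ∧ x ≠ w := by
            intro x hx hxz
            have hx1 : x ∈ W₁ := by simpa [hxz] using hx
            refine ⟨fun hxN => hxz (hWN x hxN ?_), fun h => hw (h ▸ hx1)⟩
            exact (hW₁ x (Finset.mem_insert_of_mem hx1)).1
          have hwN : w ∉ N := fun h => hwz (hWN w h hwW)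
          rintro c (⟨h2, h3, h4⟩ | ⟨h2, h3, h4⟩)
          · obtain ⟨h5, h6⟩ := hno _ h3 h4
            have h7 : s c ≠ t c := by rw [h2]; exact h6.symm
            rcases hcrit c h7 with h | h
            · exact hwN (h2 ▸ h.1)
            · exact h5 h.1
          · obtain ⟨h5, h6⟩ := hno _ h3 h4
            have h7 : s c ≠ t c := by rw [h2]; exact h6
            rcases hcrit c h7 with h | h
            · exact h5 h.1
            · exact hwN (h2 ▸ h.1)
      have h2 := lift_pair s t (z := z) (w := w) hwz.symm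
      have h3 : 2 * k ≤ dd s t {z, w} := by
        have hn₂' : n₂ ∉ ({z, w} : Set V) := by
          rintro (h | h)
          · exact hn₂W (h ▸ hzW)
          · exact hn₂W ((Set.mem_singleton_iff.1 h) ▸ hwW)
        exact (hyp {z, w} ⟨z, by simp⟩ ⟨n₂, hn₂'⟩).2 ⟨⟨z, hzN, by simp⟩, ⟨n₂, hn₂, hn₂'⟩⟩
      have h4 : (insert z ((insert w W₁ : Finset V) : Set V)) = insert w (insert z (W₁ : Set V)) := by
        rw [Finset.coe_insert, Set.insert_comm]
      rw [h4]
      by_cases h5 : Odd (dd s t {w})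
      · rw [Finset.filter_insert, if_pos h5, Finset.card_insert_of_notMem (by simp [hw])]
        obtain ⟨m, hm⟩ := h5
        omega
      · rw [Finset.filter_insert, if_neg h5]
        omega
  set W₀ : Finset V := (Finset.univ.filter fun w => w ∈ W).erase z with hW₀
  have h1 := hind W₀ (fun w hw => by
    rw [hW₀, Finset.mem_erase, Finset.mem_filter] at hw
    exact ⟨hw.2.2, hw.1⟩)
  have h2 : insert z (W₀ : Set V) = W := by
    ext x
    rw [hW₀]
    simp only [Finset.coe_erase, Finset.coe_filter, Finset.mem_univ, true_and, Set.mem_insert_iff,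
      Set.mem_sdiff, Set.mem_ofPred_eq, Set.mem_singleton_iff]
    constructor
    · rintro (h | ⟨h, -⟩)
      · exact h ▸ hzW
      · exact h
    · intro h
      by_cases hx : x = z
      · exact Or.inl hx
      · exact Or.inr ⟨h, hx⟩
  rw [h2] at h1
  have h3 : dM μ W ≤ (W₀.filter fun w => Odd (dd s t {w})).card := by
    unfold dM
    rw [← Finset.card_filter]
    refine Finset.card_le_card fun x hx => ?_
    rw [Finset.mem_filter] at hx ⊢
    obtain ⟨-, hxW, hμx⟩ := hx
    have h4 : μ x ≠ x := fun h => hμx (by rw [h]; exact hxW)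
    have h5 := (hodd x).1 h4
    refine ⟨?_, h5⟩
    rw [hW₀, Finset.mem_erase, Finset.mem_filter]
    refine ⟨fun h => ?_, Finset.mem_univ _, hxW⟩
    rw [h, hz] at h5
    obtain ⟨m, hm⟩ := h5
    omega
  omega

/-- Q5 (lifting a pairing across a splitting). -/
theorem split_lift [Fintype V] [Fintype A] (s t : A → V) (N : Set V) (k : ℕ) (hk : 2 ≤ k)
    (hyp : HypN s t N k)
    (hcrit : ∀ a, s a ≠ t a → (s a ∈ N ∧ dd s t {s a} = 2 * k) ∨ (t a ∈ N ∧ dd s t {t a} = 2 * k))
    (z : V) (hzN : z ∈ N) (hz : dd s t {z} = 2 * k) (hN : ∃ n ∈ N, n ≠ z)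
    (a b : A) (u v : V) (huz : u ≠ z) (hvz : v ≠ z) (hab : b ≠ a)
    (ha : Jn s t a z u) (hb : Jn s t b z v)
    (μ : V → V) (hμ : Pairing (spS s a b z u) (spT t a b z v) (N \ {z}) k μ) :
    Pairing s t N k μ := by
  have _ := hk
  have _ := hN
  have _ := huz
  have _ := hvz
  have hdd := lift_dd s t z a b u v hab ha hb
  have hodd : ∀ u, μ u ≠ u ↔ Odd (dd s t {u}) := by
    intro x
    rw [hμ.odd x]
    obtain ⟨j, hj⟩ := hdd {x}
    rw [hj]
    constructor
    · rintro ⟨m, hm⟩; exact ⟨m + j, by omega⟩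
    · rintro ⟨m, hm⟩; exact ⟨m - j, by omega⟩
  refine ⟨hμ.invol, hodd, fun U hU hUc => ?_⟩
  obtain ⟨j, hj⟩ := hdd U
  obtain ⟨h1, h2⟩ := hμ.bd U hU hUc
  refine ⟨by omega, fun hNS => ?_⟩
  by_cases h3 : NSep (N \ {z}) U
  · have := h2 h3
    omega
  · obtain ⟨⟨n₁, hn₁, hn₁U⟩, ⟨n₂, hn₂, hn₂U⟩⟩ := hNS
    by_cases hzU : z ∈ U
    · have hn₂z : n₂ ≠ z := fun h => hn₂U (h ▸ hzU)
      refine lift_main s t N k hyp hcrit z hzN hz μ hodd U hzU ?_ n₂ hn₂ hn₂U
      intro n hn hnU
      by_contra hnz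
      exact h3 ⟨⟨n, ⟨hn, hnz⟩, hnU⟩, ⟨n₂, ⟨hn₂, hn₂z⟩, hn₂U⟩⟩
    · have hn₁z : n₁ ≠ z := fun h => hzU (h ▸ hn₁U)
      rw [← lift_dM_compl hμ.invol U, ← dd_compl s t U]
      refine lift_main s t N k hyp hcrit z hzN hz μ hodd Uᶜ hzU ?_ n₁ hn₁ (fun h => h hn₁U)
      intro n hn hnU
      by_contra hnz
      exact h3 ⟨⟨n₁, ⟨hn₁, hn₁z⟩, hn₁U⟩, ⟨n, ⟨hn, hnz⟩, hnU⟩⟩

end Pool.Agent.DJ9e
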