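import Pool.Agent.Lib_MP_9e7d46_co.Defs

/-!
# MP_9e7d46_co, Q4: the splitting lemma
-/

set_option autoImplicit false
set_option linter.unusedSectionVars false

namespace Pool.Agent.DJ9e

open Classical

universe u v

variable {V : Type u} {A : Type v}

namespace Split

/-- `c` joins `P` and `Q`. -/
def Bt (s t : A → V) (P Q : Set V) (c : A) : Prop :=
  (s c ∈ P ∧ t c ∈ Q) ∨ (s c ∈ Q ∧ t c ∈ P)

/-- number of arcs joining `P` and `Q`. -/
noncomputable def eB [Fintype A] (s t : A → V) (P Q : Set V) : ℕ :=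
  ∑ c, if Bt s t P Q c then 1 else 0

variable [Fintype A] (s t : A → V)

theorem two_sum {f : A → ℕ} {a b : A} (hab : b ≠ a) :
    ∑ c, f c = f a + (f b + ∑ c ∈ (Finset.univ.erase a).erase b, f c) := by
  rw [Finset.add_sum_erase _ f (Finset.mem_erase.2 ⟨hab, Finset.mem_univ b⟩),
    Finset.add_sum_erase _ f (Finset.mem_univ a)]

/-- degrees after splitting. -/
theorem sp_dd {a b : A} {z u v : V} (hab : b ≠ a) (huz : u ≠ z) (hvz : v ≠ z)
    (ha : Jn s t a z u) (hb : Jn s t b z v) {U : Set V} (hzU : z ∉ U) :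
    dd s t U = dd (spS s a b z u) (spT t a b z v) U + (if u ∈ U ∧ v ∈ U then 2 else 0) := by
  unfold dd
  rw [two_sum hab, two_sum (f := fun c => if (spS s a b z u c ∈ U ↔ spT t a b z v c ∈ U)
    then 0 else 1) hab]
  have hrest : ∑ c ∈ (Finset.univ.erase a).erase b, (if (s c ∈ U ↔ t c ∈ U) then 0 else 1) =
      ∑ c ∈ (Finset.univ.erase a).erase b,
        (if (spS s a b z u c ∈ U ↔ spT t a b z v c ∈ U) then 0 else 1) := by
    refine Finset.sum_congr rfl fun c hc => ?_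
    have h1 : c ≠ b := (Finset.mem_erase.1 hc).1
    have h2 : c ≠ a := (Finset.mem_erase.1 (Finset.mem_erase.1 hc).2).1
    simp [spS, spT, h1, h2]
  rw [hrest]
  have hA : spS s a b z u a = u := by simp [spS, hab.symm]
  have hA' : spT t a b z v a = v := by simp [spT, hab.symm]
  have hB : spS s a b z u b = z := by simp [spS]
  have hB' : spT t a b z v b = z := by simp [spT]
  simp only [hA, hA', hB, hB', iff_self, if_true]
  have e1 : (if (s a ∈ U ↔ t a ∈ U) then 0 else 1) = (if u ∈ U then 1 else 0) := by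
    rcases ha with ⟨h1, h2⟩ | ⟨h1, h2⟩ <;> by_cases hu : u ∈ U <;> simp [h1, h2, hu, hzU]
  have e2 : (if (s b ∈ U ↔ t b ∈ U) then 0 else 1) = (if v ∈ U then 1 else 0) := by
    rcases hb with ⟨h1, h2⟩ | ⟨h1, h2⟩ <;> by_cases hv : v ∈ U <;> simp [h1, h2, hv, hzU]
  rw [e1, e2]
  by_cases hu : u ∈ U <;> by_cases hv : v ∈ U <;> simp [hu, hv] <;> omega

/-- the basic identity. -/
theorem dd_z {z : V} {U : Set V} (hzU : z ∉ U) :
    dd s t U + dd s t {z} = dd s t ({z} ∪ U)ᶜ + 2 * eB s t {z} U := by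
  unfold dd eB
  rw [Finset.mul_sum, ← Finset.sum_add_distrib, ← Finset.sum_add_distrib]
  refine Finset.sum_congr rfl fun c _ => ?_
  unfold Bt
  by_cases h1 : s c = z
  · have h1' : s c ∉ U := by rw [h1]; exact hzU
    by_cases h2 : t c = z
    · have h2' : t c ∉ U := by rw [h2]; exact hzU
      simp [h1, h2, hzU]
    · by_cases h3 : t c ∈ U <;> simp [h1, h2, h3, hzU]
  · by_cases h2 : t c = z
    · have h2' : t c ∉ U := by rw [h2]; exact hzU
      by_cases h3 : s c ∈ U <;> simp [h1, h2, h3, hzU]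
    · by_cases h3 : s c ∈ U <;> by_cases h4 : t c ∈ U <;> simp [h1, h2, h3, h4]

theorem dd_submod (X Y : Set V) :
    dd s t (X ∩ Y) + dd s t (X ∪ Y) ≤ dd s t X + dd s t Y := by
  unfold dd
  rw [← Finset.sum_add_distrib, ← Finset.sum_add_distrib]
  refine Finset.sum_le_sum fun c _ => ?_
  by_cases h1 : s c ∈ X <;> by_cases h2 : s c ∈ Y <;> by_cases h3 : t c ∈ X <;>
    by_cases h4 : t c ∈ Y <;> simp [h1, h2, h3, h4]

theorem dd_posimod (X Y : Set V) :
    dd s t (X \ Y) + dd s t (Y \ X) + 2 * eB s t (X ∩ Y) (X ∪ Y)ᶜ ≤ dd s t X + dd s t Y := by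
  unfold dd eB
  rw [Finset.mul_sum, ← Finset.sum_add_distrib, ← Finset.sum_add_distrib,
    ← Finset.sum_add_distrib]
  refine Finset.sum_le_sum fun c _ => ?_
  unfold Bt
  by_cases h1 : s c ∈ X <;> by_cases h2 : s c ∈ Y <;> by_cases h3 : t c ∈ X <;>
    by_cases h4 : t c ∈ Y <;> simp [h1, h2, h3, h4]

theorem eB_ge_two {P Q : Set V} {a b : A} (hab : b ≠ a) (ha : Bt s t P Q a) (hb : Bt s t P Q b) :
    2 ≤ eB s t P Q := by
  unfold eB
  rw [two_sum hab]
  simp only [ha, hb, if_true]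
  omega

theorem eB_ge_one {P Q : Set V} {a : A} (ha : Bt s t P Q a) : 1 ≤ eB s t P Q := by
  unfold eB
  rw [← Finset.add_sum_erase _ _ (Finset.mem_univ a)]
  simp only [ha, if_true]
  omega

/-- existence of an arc at `z` with the other end outside `W`. -/
theorem exists_arc {z : V} {W : Set V} (h : eB s t {z} W < dd s t {z}) :
    ∃ (b : A) (v : V), v ≠ z ∧ v ∉ W ∧ Jn s t b z v := by
  by_contra hcon
  push Not at hcon
  refine absurd h (not_lt.2 ?_)
  unfold dd eB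
  refine Finset.sum_le_sum fun c _ => ?_
  unfold Bt
  by_cases h1 : s c = z
  · by_cases h2 : t c = z
    · simp [h1, h2]
    · have h3 : t c ∈ W := by
        by_contra h3
        exact hcon c (t c) h2 h3 (Or.inl ⟨h1, rfl⟩)
      simp [h1, h2, h3]
  · by_cases h2 : t c = z
    · have h3 : s c ∈ W := by
        by_contra h3
        exact hcon c (s c) h1 h3 (Or.inr ⟨rfl, h2⟩)
      simp [h1, h2, h3]
    · simp [h1, h2]

/-- union estimate. -/
theorem eB_union {z : V} {X Y : Set V} {a : A} (hX : Bt s t {z} X a) (hY : Bt s t {z} Y a) :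
    eB s t {z} (X ∪ Y) + 1 ≤ eB s t {z} X + eB s t {z} Y := by
  have h1 : (∑ c, if c = a then 1 else 0) = 1 := by simp
  rw [← h1]
  unfold eB
  rw [← Finset.sum_add_distrib, ← Finset.sum_add_distrib]
  refine Finset.sum_le_sum fun c _ => ?_
  by_cases hca : c = a
  · subst hca
    simp only [hX, hY, if_true]
    split_ifs <;> omega
  · simp only [hca, if_false]
    by_cases h1 : Bt s t {z} (X ∪ Y) c
    · have : Bt s t {z} X c ∨ Bt s t {z} Y c := by
        rcases h1 with ⟨h1, h2 | h2⟩ | ⟨h2 | h2, h1⟩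
        · exact Or.inl (Or.inl ⟨h1, h2⟩)
        · exact Or.inr (Or.inl ⟨h1, h2⟩)
        · exact Or.inl (Or.inr ⟨h2, h1⟩)
        · exact Or.inr (Or.inr ⟨h2, h1⟩)
      rcases this with h | h <;> simp [h, h1]
    · simp [h1]

theorem NSep_compl {N U : Set V} : NSep N Uᶜ ↔ NSep N U := by
  unfold NSep
  constructor
  · rintro ⟨⟨n, h1, h2⟩, ⟨m, h3, h4⟩⟩
    exact ⟨⟨m, h3, by simpa using h4⟩, ⟨n, h1, h2⟩⟩
  · rintro ⟨⟨n, h1, h2⟩, ⟨m, h3, h4⟩⟩
    exact ⟨⟨m, h3, h4⟩, ⟨n, h1, by simpa using h2⟩⟩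

/-- dangerous sets. -/
def Dg (s t : A → V) (N : Set V) (k : ℕ) (z u : V) (U : Set V) : Prop :=
  z ∉ U ∧ u ∈ U ∧ NSep (N \ {z}) U ∧ dd s t U ≤ 2 * k + 1

variable {s t}

theorem NSep_of {N U : Set V} {z n : V} (hzN : z ∈ N) (hzU : z ∉ U) (hn : n ∈ N) (hnU : n ∈ U) :
    NSep N U := ⟨⟨n, hn, hnU⟩, ⟨z, hzN, hzU⟩⟩

/-- few arcs from `z` to a dangerous set (or any set whose complement meets `N` off `z`). -/
theorem half {N : Set V} {k : ℕ} (hyp : HypN s t N k) {z : V} (hzN : z ∈ N)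
    (hz : dd s t {z} = 2 * k) {U : Set V} (hzU : z ∉ U) {n : V} (hn : n ∈ N) (hnz : n ≠ z)
    (hnU : n ∉ U) : 2 * eB s t {z} U ≤ dd s t U := by
  have h1 := dd_z s t hzU
  have hnY : n ∈ ({z} ∪ U)ᶜ := by simp [hnz, hnU]
  have hzY : z ∉ ({z} ∪ U)ᶜ := by simp
  have h2 := (hyp ({z} ∪ U)ᶜ ⟨n, hnY⟩ ⟨z, hzY⟩).2 (NSep_of hzN hzY hn hnY)
  omega

/-- uncrossing two dangerous sets. -/
theorem uncross {N : Set V} {k : ℕ} [Fintype V] (hk : 2 ≤ k) (hyp : HypN s t N k)
    (htriv : ∀ X : Set V, NSep N X → dd s t X = 2 * k → (∃ x, X = {x}) ∨ (∃ x, Xᶜ = {x}))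
    {z : V} (hzN : z ∈ N) {a : A} {u : V} (huz : u ≠ z) (ha : Jn s t a z u)
    (hu : ¬ (u ∈ N ∧ dd s t {u} = 2 * k)) {X Y : Set V} (hX : Dg s t N k z u X)
    (hY : Dg s t N k z u Y) (hmax : ∀ W, Dg s t N k z u W → W.ncard ≤ X.ncard)
    {v : V} (hvY : v ∈ Y) (hvX : v ∉ X) :
    ∃ x y, X \ Y = {x} ∧ Y \ X = {y} ∧ ∀ c, Bt s t (X ∩ Y) (X ∪ Y)ᶜ c → c = a := by
  obtain ⟨hzX, huX, ⟨⟨n1, ⟨hn1, hn1z⟩, hn1X⟩, ⟨n2, ⟨hn2, hn2z⟩, hn2X⟩⟩, hdX⟩ := hX
  obtain ⟨hzY, huY, ⟨⟨n3, ⟨hn3, hn3z⟩, hn3Y⟩, ⟨n4, ⟨hn4, hn4z⟩, hn4Y⟩⟩, hdY⟩ := hY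
  by_cases halpha : (∃ p ∈ N, p ∈ X ∩ Y) ∧ (∃ q ∈ N, q ≠ z ∧ q ∉ X ∪ Y)
  · exfalso
    obtain ⟨⟨p, hp, hpXY⟩, ⟨q, hq, hqz, hqXY⟩⟩ := halpha
    have hpz : p ≠ z := fun h => hzX (h ▸ hpXY.1)
    have h1 := dd_submod s t X Y
    have hzI : z ∉ X ∩ Y := fun h => hzX h.1
    have hzUn : z ∉ X ∪ Y := by rintro (h | h) <;> contradiction
    have h2 : 2 * k ≤ dd s t (X ∩ Y) :=
      (hyp (X ∩ Y) ⟨u, huX, huY⟩ ⟨z, hzI⟩).2 (NSep_of hzN hzI hp hpXY)
    have h3 : ¬ Dg s t N k z u (X ∪ Y) := by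
      intro h
      have h4 := hmax _ h
      have h5 : X.ncard < (X ∪ Y).ncard := by
        apply Set.ncard_lt_ncard _ (Set.toFinite _)
        refine ⟨Set.subset_union_left, fun h => hvX (h (Or.inr hvY))⟩
      omega
    have h4 : 2 * k + 2 ≤ dd s t (X ∪ Y) := by
      by_contra h5
      apply h3
      refine ⟨hzUn, Or.inl huX, ⟨⟨p, ⟨hp, hpz⟩, Or.inl hpXY.1⟩, ⟨q, ⟨hq, hqz⟩, hqXY⟩⟩, by omega⟩
    have h5 : dd s t (X ∩ Y) = 2 * k := by omega
    rcases htriv (X ∩ Y) (NSep_of hzN hzI hp hpXY) h5 with ⟨x, hx⟩ | ⟨x, hx⟩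
    · have h6 : u = x := by
        have : u ∈ X ∩ Y := ⟨huX, huY⟩
        rw [hx] at this
        exact this
      have h7 : p = x := by
        have := hpXY
        rw [hx] at this
        exact this
      apply hu
      refine ⟨by rw [h6, ← h7]; exact hp, ?_⟩
      rw [h6, ← hx]
      exact h5
    · have h6 : z = x := by
        have : z ∈ (X ∩ Y)ᶜ := hzI
        rw [hx] at this
        exact this
      have h7 : q = x := by
        have : q ∈ (X ∩ Y)ᶜ := fun h => hqXY (Or.inl h.1)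
        rw [hx] at this
        exact this
      exact hqz (h7.trans h6.symm)
  · have hbeta : (∃ p ∈ N, p ∈ X \ Y) ∧ (∃ q ∈ N, q ∈ Y \ X) := by
      rw [not_and_or] at halpha
      push Not at halpha
      rcases halpha with h | h
      · refine ⟨⟨n1, hn1, hn1X, fun h' => h n1 hn1 ⟨hn1X, h'⟩⟩,
          ⟨n3, hn3, hn3Y, fun h' => h n3 hn3 ⟨h', hn3Y⟩⟩⟩
      · have e2 := h n2 hn2 hn2z
        have e4 := h n4 hn4 hn4z
        refine ⟨⟨n4, hn4, ?_, hn4Y⟩, ⟨n2, hn2, ?_, hn2X⟩⟩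
        · rcases e4 with h' | h'
          · exact h'
          · exact absurd h' hn4Y
        · rcases e2 with h' | h'
          · exact absurd h' hn2X
          · exact h'
    obtain ⟨⟨p, hp, hpX⟩, ⟨q, hq, hqY⟩⟩ := hbeta
    have h1 := dd_posimod s t X Y
    have hz1 : z ∉ X \ Y := fun h => hzX h.1
    have hz2 : z ∉ Y \ X := fun h => hzY h.1
    have h2 : 2 * k ≤ dd s t (X \ Y) := (hyp _ ⟨p, hpX⟩ ⟨z, hz1⟩).2 (NSep_of hzN hz1 hp hpX)
    have h3 : 2 * k ≤ dd s t (Y \ X) := (hyp _ ⟨q, hqY⟩ ⟨z, hz2⟩).2 (NSep_of hzN hz2 hq hqY)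
    have haB : Bt s t (X ∩ Y) (X ∪ Y)ᶜ a := by
      have hzc : z ∈ (X ∪ Y)ᶜ := by rintro (h | h) <;> contradiction
      rcases ha with ⟨e1, e2⟩ | ⟨e1, e2⟩
      · exact Or.inr ⟨by rw [e1]; exact hzc, by rw [e2]; exact ⟨huX, huY⟩⟩
      · exact Or.inl ⟨by rw [e1]; exact ⟨huX, huY⟩, by rw [e2]; exact hzc⟩
    have h4 : 1 ≤ eB s t (X ∩ Y) (X ∪ Y)ᶜ := eB_ge_one s t haB
    have h5 : dd s t (X \ Y) = 2 * k := by omega
    have h6 : dd s t (Y \ X) = 2 * k := by omega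
    have h7 : ∃ x, X \ Y = {x} := by
      rcases htriv _ (NSep_of hzN hz1 hp hpX) h5 with h | ⟨x, hx⟩
      · exact h
      · exfalso
        have e1 : z = x := by
          have : z ∈ (X \ Y)ᶜ := hz1
          rw [hx] at this
          exact this
        have e2 : u = x := by
          have : u ∈ (X \ Y)ᶜ := fun h => h.2 huY
          rw [hx] at this
          exact this
        exact huz (e2.trans e1.symm)
    have h8 : ∃ y, Y \ X = {y} := by
      rcases htriv _ (NSep_of hzN hz2 hq hqY) h6 with h | ⟨x, hx⟩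
      · exact h
      · exfalso
        have e1 : z = x := by
          have : z ∈ (Y \ X)ᶜ := hz2
          rw [hx] at this
          exact this
        have e2 : u = x := by
          have : u ∈ (Y \ X)ᶜ := fun h => h.2 huX
          rw [hx] at this
          exact this
        exact huz (e2.trans e1.symm)
    obtain ⟨x, hx⟩ := h7
    obtain ⟨y, hy⟩ := h8
    refine ⟨x, y, hx, hy, fun c hc => ?_⟩
    by_contra hca
    have := eB_ge_two s t hca haB hc
    omega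

end Split

open Split

/-- Q4 (the splitting lemma). -/
theorem split_exists [Fintype V] [Fintype A] (s t : A → V) (N : Set V) (k : ℕ) (hk : 2 ≤ k)
    (hyp : HypN s t N k)
    (h3 : ∀ U : Set V, U.Nonempty → Uᶜ.Nonempty → 3 ≤ dd s t U)
    (htriv : ∀ X : Set V, NSep N X → dd s t X = 2 * k → (∃ x, X = {x}) ∨ (∃ x, Xᶜ = {x}))
    (z : V) (hzN : z ∈ N) (hz : dd s t {z} = 2 * k) (hN : ∃ n ∈ N, n ≠ z)
    (a : A) (u : V) (huz : u ≠ z) (ha : Jn s t a z u) (hu : ¬ (u ∈ N ∧ dd s t {u} = 2 * k)) :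
    ∃ (b : A) (v : V), b ≠ a ∧ v ≠ z ∧ Jn s t b z v ∧
      HypN (spS s a b z u) (spT t a b z v) (N \ {z}) k := by
  by_contra hcon
  push Not at hcon
  obtain ⟨n0, hn0, hn0z⟩ := hN
  have haz : ∀ {U : Set V}, u ∈ U → Bt s t {z} U a := by
    intro U huU
    rcases ha with ⟨e1, e2⟩ | ⟨e1, e2⟩
    · exact Or.inl ⟨e1, by rw [e2]; exact huU⟩
    · exact Or.inr ⟨by rw [e1]; exact huU, e2⟩
  -- every arc at `z` different from `a` ends in a dangerous set
  have hdang : ∀ b v, b ≠ a → v ≠ z → Jn s t b z v → ∃ U, Dg s t N k z u U ∧ v ∈ U := by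
    intro b v hba hvz hb
    have h1 := hcon b v hba hvz hb
    unfold HypN at h1
    push Not at h1
    -- a violating set not containing `z`
    obtain ⟨U, hUne, hUcne, hzU, hviol⟩ : ∃ U : Set V, U.Nonempty ∧ Uᶜ.Nonempty ∧ z ∉ U ∧
        (2 ≤ dd (spS s a b z u) (spT t a b z v) U →
          NSep (N \ {z}) U ∧ dd (spS s a b z u) (spT t a b z v) U < 2 * k) := by
      obtain ⟨U, h2, h4, h5⟩ := h1
      by_cases hzU : z ∈ U
      · refine ⟨Uᶜ, h4, by rwa [compl_compl], fun h => h hzU, ?_⟩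
        rw [dd_compl, NSep_compl]
        exact h5
      · exact ⟨U, h2, h4, hzU, h5⟩
    have hsp := sp_dd s t hba huz hvz ha hb hzU
    have hbase := hyp U hUne hUcne
    have hsub : NSep (N \ {z}) U → NSep N U := by
      rintro ⟨⟨p, hp, hpU⟩, ⟨q, hq, hqU⟩⟩
      exact ⟨⟨p, hp.1, hpU⟩, ⟨q, hq.1, hqU⟩⟩
    by_cases huv : u ∈ U ∧ v ∈ U
    · rw [if_pos huv] at hsp
      by_cases hns : NSep (N \ {z}) U
      · refine ⟨U, ⟨hzU, huv.1, hns, ?_⟩, huv.2⟩
        by_contra hgt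
        have := (hviol (by omega)).2
        omega
      · exfalso
        have h5 : dd s t U ≤ 3 := by
          by_contra hgt
          exact hns (hviol (by omega)).1
        have h6 : ∀ n ∈ N, n ∉ U := by
          intro n hn hnU
          have := hbase.2 (NSep_of hzN hzU hn hnU)
          omega
        have h7 := half hyp hzN hz hzU hn0 hn0z (h6 n0 hn0)
        have h8 : 2 ≤ eB s t {z} U := by
          refine eB_ge_two s t hba (haz huv.1) ?_
          rcases hb with ⟨e1, e2⟩ | ⟨e1, e2⟩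
          · exact Or.inl ⟨e1, by rw [e2]; exact huv.2⟩
          · exact Or.inr ⟨by rw [e1]; exact huv.2, e2⟩
        omega
    · exfalso
      rw [if_neg huv] at hsp
      have h5 := hviol (by omega)
      have h6 := hbase.2 (hsub h5.1)
      omega
  -- few arcs to a dangerous set
  have hhalf : ∀ U, Dg s t N k z u U → eB s t {z} U ≤ k := by
    rintro U ⟨hzU, huU, ⟨_, ⟨n, ⟨hn, hnz⟩, hnU⟩⟩, hdU⟩
    have := half hyp hzN hz hzU hn hnz hnU
    omega
  -- next dangerous set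
  have hnext : ∀ W : Set V, u ∈ W → eB s t {z} W < 2 * k →
      ∃ U v, Dg s t N k z u U ∧ v ∈ U ∧ v ∉ W := by
    intro W huW hlt
    obtain ⟨b, v, hvz, hvW, hb⟩ := exists_arc s t (z := z) (W := W) (by omega)
    have hba : b ≠ a := by
      rintro rfl
      rcases ha with ⟨e1, e2⟩ | ⟨e1, e2⟩ <;> rcases hb with ⟨e3, e4⟩ | ⟨e3, e4⟩
      · exact hvW (by rw [← e4, e2]; exact huW)
      · exact hvz (by rw [← e3, e1])
      · exact hvz (by rw [← e4, e2])
      · exact hvW (by rw [← e3, e1]; exact huW)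
    obtain ⟨U, hU, hvU⟩ := hdang b v hba hvz hb
    exact ⟨U, v, hU, hvU, hvW⟩
  -- there is a dangerous set
  obtain ⟨U0, hU0⟩ : ∃ U, Dg s t N k z u U := by
    by_cases hlt : eB s t {z} {u} < 2 * k
    · obtain ⟨U, v, hU, _⟩ := hnext {u} rfl hlt
      exact ⟨U, hU⟩
    · -- all arcs at `z` go to `u`
      obtain ⟨b, hb, hba⟩ : ∃ b, Bt s t {z} {u} b ∧ b ≠ a := by
        by_contra hall
        push Not at hall
        have : eB s t {z} {u} ≤ ∑ c, if c = a then 1 else 0 := by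
          unfold eB
          refine Finset.sum_le_sum fun c _ => ?_
          by_cases hc : Bt s t {z} {u} c
          · rw [if_pos hc, if_pos (hall c hc)]
          · simp [hc]
        simp at this
        omega
      obtain ⟨U, hU, _⟩ := hdang b u hba huz hb
      exact ⟨U, hU⟩
  -- a dangerous set of maximal cardinality
  obtain ⟨X, hX, hmax⟩ : ∃ X, Dg s t N k z u X ∧ ∀ W, Dg s t N k z u W → W.ncard ≤ X.ncard := by
    have hfin : Set.Finite {U | Dg s t N k z u U} := Set.toFinite _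
    obtain ⟨X, hX, hXm⟩ := Set.exists_max_image {U | Dg s t N k z u U} Set.ncard hfin ⟨U0, hU0⟩
    exact ⟨X, hX, hXm⟩
  obtain ⟨Y, v, hY, hvY, hvX⟩ := hnext X hX.2.1 (by have := hhalf X hX; omega)
  obtain ⟨x, y, hx, hy, hone⟩ := uncross hk hyp htriv hzN huz ha hu hX hY hmax hvY hvX
  have hcard : Y.ncard = X.ncard := by
    have e1 := Set.ncard_inter_add_ncard_sdiff_eq_ncard X Y (Set.toFinite _)
    have e2 := Set.ncard_inter_add_ncard_sdiff_eq_ncard Y X (Set.toFinite _)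
    rw [hx, Set.ncard_singleton] at e1
    rw [hy, Set.ncard_singleton, Set.inter_comm] at e2
    omega
  have hmaxY : ∀ W, Dg s t N k z u W → W.ncard ≤ Y.ncard := by
    intro W hW
    rw [hcard]
    exact hmax W hW
  obtain ⟨Z, w, hZ, hwZ, hwXY⟩ := hnext (X ∪ Y) (Or.inl hX.2.1) (by
    have e1 := eB_union s t (haz hX.2.1) (haz hY.2.1)
    have e2 := hhalf X hX
    have e3 := hhalf Y hY
    omega)
  have hwX : w ∉ X := fun h => hwXY (Or.inl h)
  have hwY : w ∉ Y := fun h => hwXY (Or.inr h)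
  obtain ⟨x', w1, hx', hw1, hone1⟩ := uncross hk hyp htriv hzN huz ha hu hX hZ hmax hwZ hwX
  obtain ⟨y', w2, hy', hw2, hone2⟩ := uncross hk hyp htriv hzN huz ha hu hY hZ hmaxY hwZ hwY
  have hww1 : w = w1 := by
    have : w ∈ Z \ X := ⟨hwZ, hwX⟩
    rw [hw1] at this
    exact this
  have hww2 : w = w2 := by
    have : w ∈ Z \ Y := ⟨hwZ, hwY⟩
    rw [hw2] at this
    exact this
  have hxX : x ∈ X ∧ x ∉ Y := by
    have : x ∈ X \ Y := by rw [hx]; rfl
    exact this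
  have hyY : y ∈ Y ∧ y ∉ X := by
    have : y ∈ Y \ X := by rw [hy]; rfl
    exact this
  have hxZ : x ∉ Z := by
    intro h
    have : x ∈ Z \ Y := ⟨h, hxX.2⟩
    rw [hw2] at this
    have e : x = w2 := this
    rw [← hww2] at e
    exact hwX (e ▸ hxX.1)
  have hxx' : x = x' := by
    have : x ∈ X \ Z := ⟨hxX.1, hxZ⟩
    rw [hx'] at this
    exact this
  have hBZ : X ∩ Y ⊆ Z := by
    intro p hp
    by_contra hpZ
    have : p ∈ X \ Z := ⟨hp.1, hpZ⟩
    rw [hx', ← hxx'] at this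
    have e : p = x := this
    exact hxX.2 (e ▸ hp.2)
  have hZB : ∀ p ∈ Z, p = w ∨ p ∈ X ∩ Y := by
    intro p hp
    by_cases h1 : p ∈ X
    · by_cases h2 : p ∈ Y
      · exact Or.inr ⟨h1, h2⟩
      · left
        have : p ∈ Z \ Y := ⟨hp, h2⟩
        rw [hw2, ← hww2] at this
        exact this
    · left
      have : p ∈ Z \ X := ⟨hp, h1⟩
      rw [hw1, ← hww1] at this
      exact this
  have hXZ : X ∩ Z = X ∩ Y := by
    ext p
    constructor
    · rintro ⟨h1, h2⟩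
      rcases hZB p h2 with h | h
      · exact absurd (h ▸ h1) hwX
      · exact h
    · intro h
      exact ⟨h.1, hBZ h⟩
  have hYZ : Y ∩ Z = X ∩ Y := by
    ext p
    constructor
    · rintro ⟨h1, h2⟩
      rcases hZB p h2 with h | h
      · exact absurd (h ▸ h1) hwY
      · exact h
    · intro h
      exact ⟨h.2, hBZ h⟩
  rw [hXZ] at hone1
  rw [hYZ] at hone2
  -- only the arc `a` leaves `X ∩ Y`
  have hout : ∀ o : V, o ∉ X ∩ Y → o ∈ (X ∪ Y)ᶜ ∨ o ∈ (X ∪ Z)ᶜ ∨ o ∈ (Y ∪ Z)ᶜ := by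
    intro o ho
    by_cases h1 : o ∈ X
    · right; right
      have h2 : o ∉ Y := fun h => ho ⟨h1, h⟩
      rintro (h | h)
      · exact h2 h
      · rcases hZB o h with e | e
        · exact hwX (e ▸ h1)
        · exact ho e
    · by_cases h2 : o ∈ Y
      · right; left
        rintro (h | h)
        · exact h1 h
        · rcases hZB o h with e | e
          · exact hwY (e ▸ h2)
          · exact ho e
      · left
        rintro (h | h) <;> contradiction
  have honly : ∀ c, ¬ (s c ∈ X ∩ Y ↔ t c ∈ X ∩ Y) → c = a := by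
    intro c hc
    by_cases h1 : s c ∈ X ∩ Y
    · have h2 : t c ∉ X ∩ Y := fun h => hc ⟨fun _ => h, fun _ => h1⟩
      rcases hout _ h2 with h | h | h
      · exact hone c (Or.inl ⟨h1, h⟩)
      · exact hone1 c (Or.inl ⟨h1, h⟩)
      · exact hone2 c (Or.inl ⟨h1, h⟩)
    · have h2 : t c ∈ X ∩ Y := by
        by_contra h2
        exact hc ⟨fun h => absurd h h1, fun h => absurd h h2⟩
      rcases hout _ h1 with h | h | h
      · exact hone c (Or.inr ⟨h, h2⟩)
      · exact hone1 c (Or.inr ⟨h, h2⟩)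
      · exact hone2 c (Or.inr ⟨h, h2⟩)
  have hle : dd s t (X ∩ Y) ≤ 1 := by
    have e1 : (∑ c : A, if c = a then 1 else 0) = 1 := by simp
    rw [← e1]
    unfold dd
    refine Finset.sum_le_sum fun c _ => ?_
    by_cases hc : (s c ∈ X ∩ Y ↔ t c ∈ X ∩ Y)
    · simp only [hc, if_true]
      exact Nat.zero_le _
    · rw [if_neg hc, if_pos (honly c hc)]
  have hge := (hyp (X ∩ Y) ⟨u, hX.2.1, hY.2.1⟩ ⟨z, fun h => hX.1 h.1⟩).1
  omega

end Pool.Agent.DJ9e
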