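import Pool.Agent.Lib_MP_9e7d46_co.Defs

/-!
Two steps of the pairing theorem: a vertex of degree two, and adding an arc to a pairing.
-/

set_option autoImplicit false
set_option linter.unusedSectionVars false

namespace Pool.Agent.DJ9e

open Classical

universe u v

variable {V : Type u} {A : Type v}

namespace StepM

theorem dM_compl [Fintype V] (μ : V → V) (hi : ∀ u, μ (μ u) = u) (U : Set V) :
    dM μ Uᶜ = dM μ U := by
  unfold dM
  rw [← Equiv.sum_comp (Function.Involutive.toPerm μ hi)]
  refine Finset.sum_congr rfl fun a _ => ?_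
  simp only [Function.Involutive.coe_toPerm, hi]
  by_cases h1 : a ∈ U <;> by_cases h2 : μ a ∈ U <;> simp [h1, h2]

theorem NSep_compl (N U : Set V) : NSep N Uᶜ ↔ NSep N U := by
  unfold NSep
  simp only [Set.mem_compl_iff, not_not]
  exact and_comm

theorem BdOn_compl [Fintype V] [Fintype A] (s t : A → V) (N : Set V) (k : ℕ) (μ : V → V)
    (hi : ∀ u, μ (μ u) = u) (U : Set V) : BdOn s t N k μ Uᶜ ↔ BdOn s t N k μ U := by
  unfold BdOn
  rw [dM_compl μ hi, dd_compl, NSep_compl]

theorem dd_pair [Fintype A] (s t : A → V) (w y : V) (hwy : w ≠ y) :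
    dd s t {w, y} + 2 * (∑ a, if Jn s t a w y then 1 else 0) = dd s t {w} + dd s t {y} := by
  unfold dd
  rw [Finset.mul_sum, ← Finset.sum_add_distrib, ← Finset.sum_add_distrib]
  refine Finset.sum_congr rfl fun a _ => ?_
  unfold Jn
  by_cases h1 : s a = w
  · by_cases h2 : t a = w
    · simp [h1, h2, hwy]
    · by_cases h3 : t a = y
      · simp [h1, h2, h3, hwy, hwy.symm]
      · simp [h1, h2, h3, hwy, hwy.symm]
  · by_cases h2 : s a = y
    · by_cases h3 : t a = w
      · simp [h2, h3, hwy, hwy.symm]
      · by_cases h4 : t a = y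
        · simp [h2, h4, hwy, hwy.symm]
        · simp [h2, h3, h4, hwy, hwy.symm]
    · by_cases h3 : t a = w
      · simp [h1, h2, h3, hwy, hwy.symm]
      · by_cases h4 : t a = y
        · simp [h1, h2, h4, hwy, hwy.symm]
        · simp [h1, h2, h3, h4]

theorem dd_remove [Fintype A] (s t : A → V) (w y : V) (hwy : w ≠ y) (e : A) (he : Jn s t e w y)
    (U : Set V) (hwU : w ∈ U) (hyU : y ∉ U) :
    dd s t (U \ {w}) + 2 ≤ dd s t U + dd s t {w} := by
  have h2 : (2 : ℕ) = ∑ a : A, if a = e then 2 else 0 := by simp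
  rw [h2]
  unfold dd
  rw [← Finset.sum_add_distrib, ← Finset.sum_add_distrib]
  refine Finset.sum_le_sum fun a _ => ?_
  by_cases hae : a = e
  · subst hae
    rcases he with ⟨h1, h2⟩ | ⟨h1, h2⟩
    · simp [h1, h2, hwU, hyU, hwy, hwy.symm]
    · simp [h1, h2, hwU, hyU, hwy, hwy.symm]
  · by_cases h1 : s a = w
    · by_cases h2 : t a = w
      · simp [h1, h2, hae, hwU]
      · by_cases h3 : t a ∈ U <;> simp [h1, h2, h3, hae, hwU]
    · by_cases h2 : t a = w
      · by_cases h3 : s a ∈ U <;> simp [h1, h2, h3, hae, hwU]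
      · by_cases h3 : s a ∈ U <;> by_cases h4 : t a ∈ U <;> simp [h1, h2, h3, h4, hae]

theorem deg2_aux [Fintype V] [Fintype A] (s t : A → V) (N : Set V) (k : ℕ) (hk : 2 ≤ k)
    (hyp : HypN s t N k)
    (w y : V) (hwy : w ≠ y) (hw : dd s t {w} = 2) (e : A) (he : Jn s t e w y)
    (μ : V → V) (hi : ∀ u, μ (μ u) = u) (hfw : μ w = w)
    (hb : ∀ U : Set V, U.Nonempty → Uᶜ.Nonempty → (w ∈ U ↔ y ∈ U) → BdOn s t N k μ U)
    (U : Set V) (hwU : w ∈ U) (hyU : y ∉ U) : BdOn s t N k μ U := by
  have hwN : ¬ NSep N {w} := by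
    intro hN
    have h1 := (hyp {w} ⟨w, rfl⟩ ⟨y, hwy.symm⟩).2 hN
    omega
  by_cases hU : (U \ {w}).Nonempty
  · have h0 := hb (U \ {w}) hU ⟨w, by simp⟩ (by simp [hyU])
    have h1 : dM μ (U \ {w}) = dM μ U := by
      unfold dM
      refine Finset.sum_congr rfl fun u _ => ?_
      by_cases h1 : u = w
      · subst h1; simp [hfw, hwU]
      · have h2 : μ u ≠ w := by
          intro h3
          apply h1
          rw [← hi u, h3, hfw]
        simp [h1, h2]
    have h2 := dd_remove s t w y hwy e he U hwU hyU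
    rw [hw] at h2
    unfold BdOn at h0 ⊢
    rw [h1] at h0
    refine ⟨by omega, fun hN => ?_⟩
    have h3 : NSep N (U \ {w}) := by
      by_contra h3
      obtain ⟨⟨n, hn, hnU⟩, ⟨n', hn', hnU'⟩⟩ := hN
      by_cases h4 : n = w
      · subst h4
        exact hwN ⟨⟨n, hn, rfl⟩, ⟨n', hn', by rintro rfl; exact hnU' hnU⟩⟩
      · exact h3 ⟨⟨n, hn, hnU, h4⟩, ⟨n', hn', fun h5 => hnU' h5.1⟩⟩
    have := h0.2 h3
    omega
  · have hUw : U = {w} := by
      ext u
      constructor
      · intro hu
        by_contra h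
        exact hU ⟨u, hu, h⟩
      · rintro rfl; exact hwU
    subst hUw
    refine ⟨?_, fun hN => absurd hN hwN⟩
    have : dM μ {w} = 0 := by
      unfold dM
      refine Finset.sum_eq_zero fun u _ => ?_
      by_cases h1 : u = w
      · subst h1; simp [hfw]
      · simp [h1]
    omega

end StepM

open StepM

/-- Q2 (a vertex of degree two). -/
theorem deg2M [Fintype V] [Fintype A] (s t : A → V) (N : Set V) (k : ℕ) (hk : 2 ≤ k)
    (hyp : HypN s t N k)
    (w y : V) (hwy : w ≠ y) (hw : dd s t {w} = 2) (e : A) (he : Jn s t e w y)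
    (μ : V → V) (hi : ∀ u, μ (μ u) = u) (hfw : μ w = w)
    (ho : ∀ u, u ≠ w → u ≠ y → (μ u ≠ u ↔ Odd (dd s t {u})))
    (hoy : μ y ≠ y ↔ Odd (dd s t {w, y}))
    (hb : ∀ U : Set V, U.Nonempty → Uᶜ.Nonempty → (w ∈ U ↔ y ∈ U) → BdOn s t N k μ U) :
    Pairing s t N k μ := by
  refine ⟨hi, fun u => ?_, fun U hU hU' => ?_⟩
  · by_cases h1 : u = w
    · subst h1
      rw [hw]
      simp [hfw]
    · by_cases h2 : u = y
      · subst h2
        rw [hoy]
        have h3 := dd_pair s t w u hwy
        rw [hw] at h3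
        rw [Nat.odd_iff, Nat.odd_iff]
        omega
      · exact ho u h1 h2
  · by_cases h1 : w ∈ U
    · by_cases h2 : y ∈ U
      · exact hb U hU hU' (by simp [h1, h2])
      · exact deg2_aux s t N k hk hyp w y hwy hw e he μ hi hfw hb U h1 h2
    · by_cases h2 : y ∈ U
      · rw [← BdOn_compl s t N k μ hi]
        exact deg2_aux s t N k hk hyp w y hwy hw e he μ hi hfw hb Uᶜ h1 (by simpa using h2)
      · exact hb U hU hU' (by simp [h1, h2])

namespace StepM

theorem dd_update [Fintype A] (s t : A → V) (a : A) (U : Set V) :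
    dd s t U = dd (Function.update s a (t a)) t U +
      (if (s a ∈ U ↔ t a ∈ U) then 0 else 1) := by
  have h2 : (if (s a ∈ U ↔ t a ∈ U) then 0 else 1) =
      ∑ b : A, if b = a then (if (s a ∈ U ↔ t a ∈ U) then 0 else 1) else 0 := by simp
  rw [h2]
  unfold dd
  rw [← Finset.sum_add_distrib]
  refine Finset.sum_congr rfl fun b _ => ?_
  by_cases hb : b = a
  · subst hb; simp
  · simp [hb]

/-- the new pairing in the main case -/
noncomputable def nm (μ : V → V) (x y : V) : V → V := fun u =>
  if u = μ x then μ y else if u = μ y then μ x else if u = x then x else if u = y then y else μ u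

theorem nm_invol (μ : V → V) (hi : ∀ u, μ (μ u) = u) (x y : V) (hxy : x ≠ y) (hm : μ x ≠ y) :
    ∀ u, nm μ x y (nm μ x y u) = u := by
  have hinj : Function.Injective μ := Function.LeftInverse.injective hi
  have hpq : μ x ≠ μ y := fun h => hxy (hinj h)
  have hmy : μ y ≠ x := by
    intro h; apply hm; rw [← h, hi]
  intro u
  unfold nm
  by_cases h1 : u = μ x
  · subst h1
    simp [hpq.symm]
  · by_cases h2 : u = μ y
    · subst h2; simp [hpq.symm]
    · by_cases h3 : u = x
      · subst h3
        simp [h1, h2]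
      · by_cases h4 : u = y
        · subst h4
          simp [h1, h2, h3]
        · have h5 : μ u ≠ μ x := fun h => h3 (hinj h)
          have h6 : μ u ≠ μ y := fun h => h4 (hinj h)
          have h7 : μ u ≠ x := fun h => h1 (by rw [← h, hi])
          have h8 : μ u ≠ y := fun h => h2 (by rw [← h, hi])
          simp [h1, h2, h3, h4, h5, h6, h7, h8, hi]

theorem nm_dM [Fintype V] (μ : V → V) (hi : ∀ u, μ (μ u) = u) (x y : V) (hxy : x ≠ y)
    (hm : μ x ≠ y) (U : Set V) :
    dM (nm μ x y) U ≤ dM μ U + (if (x ∈ U ↔ y ∈ U) then 0 else 1) := by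
  have hinj : Function.Injective μ := Function.LeftInverse.injective hi
  have hpq : μ x ≠ μ y := fun h => hxy (hinj h)
  have hmy : μ y ≠ x := by
    intro h; apply hm; rw [← h, hi]
  unfold dM
  rw [← Finset.sum_sdiff (Finset.subset_univ ({x, y, μ x, μ y} : Finset V)),
    ← Finset.sum_sdiff (Finset.subset_univ ({x, y, μ x, μ y} : Finset V))]
  have h1 : ∑ u ∈ Finset.univ \ ({x, y, μ x, μ y} : Finset V),
      (if u ∈ U ∧ nm μ x y u ∉ U then 1 else 0) =
      ∑ u ∈ Finset.univ \ ({x, y, μ x, μ y} : Finset V), (if u ∈ U ∧ μ u ∉ U then 1 else 0) := by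
    refine Finset.sum_congr rfl fun u hu => ?_
    simp only [Finset.mem_sdiff, Finset.mem_univ, Finset.mem_insert, Finset.mem_singleton,
      true_and, not_or] at hu
    obtain ⟨h1, h2, h3, h4⟩ := hu
    have : nm μ x y u = μ u := by unfold nm; simp [h1, h2, h3, h4]
    rw [this]
  rw [h1]
  have hp : nm μ x y (μ x) = μ y := by unfold nm; simp
  have hq : nm μ x y (μ y) = μ x := by unfold nm; simp [hpq.symm]
  have key : ∑ u ∈ ({x, y, μ x, μ y} : Finset V), (if u ∈ U ∧ nm μ x y u ∉ U then 1 else 0) ≤
      ∑ u ∈ ({x, y, μ x, μ y} : Finset V), (if u ∈ U ∧ μ u ∉ U then 1 else 0) +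
        (if (x ∈ U ↔ y ∈ U) then 0 else 1) := by
    by_cases hx : μ x = x
    · by_cases hy : μ y = y
      · have hS : ({x, y, μ x, μ y} : Finset V) = {x, y} := by
          rw [hx, hy]; ext u; simp only [Finset.mem_insert, Finset.mem_singleton]; tauto
        rw [hS, Finset.sum_pair hxy, Finset.sum_pair hxy]
        rw [hx, hy] at hp hq
        rw [hp, hq, hx, hy]
        by_cases h1 : x ∈ U <;> by_cases h2 : y ∈ U <;> simp [h1, h2]
      · have hS : ({x, y, μ x, μ y} : Finset V) = {x, y, μ y} := by
          rw [hx]; ext u; simp only [Finset.mem_insert, Finset.mem_singleton]; tauto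
        rw [hS]
        rw [Finset.sum_insert (by simp [hxy, hmy.symm]), Finset.sum_pair (Ne.symm hy),
          Finset.sum_insert (by simp [hxy, hmy.symm]), Finset.sum_pair (Ne.symm hy)]
        rw [hx] at hp hq
        have hy' : nm μ x y y = y := by
          unfold nm; rw [hx]; simp [hxy.symm, Ne.symm hy]
        rw [hp, hq, hy', hx, hi]
        by_cases h1 : x ∈ U <;> by_cases h2 : y ∈ U <;> by_cases h3 : μ y ∈ U <;> simp [h1, h2, h3]
    · by_cases hy : μ y = y
      · have hS : ({x, y, μ x, μ y} : Finset V) = {x, y, μ x} := by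
          rw [hy]; ext u; simp only [Finset.mem_insert, Finset.mem_singleton]; tauto
        rw [hS]
        rw [Finset.sum_insert (by simp [hxy, Ne.symm hx]), Finset.sum_pair (Ne.symm hm),
          Finset.sum_insert (by simp [hxy, Ne.symm hx]), Finset.sum_pair (Ne.symm hm)]
        rw [hy] at hp hq
        have hx' : nm μ x y x = x := by
          unfold nm; rw [hy]; simp [hxy, Ne.symm hx]
        rw [hp, hq, hx', hy, hi]
        by_cases h1 : x ∈ U <;> by_cases h2 : y ∈ U <;> by_cases h3 : μ x ∈ U <;> simp [h1, h2, h3]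
      · rw [Finset.sum_insert (by simp [hxy, Ne.symm hx, Ne.symm hmy]),
          Finset.sum_insert (by simp [Ne.symm hy, Ne.symm hm]), Finset.sum_pair hpq,
          Finset.sum_insert (by simp [hxy, Ne.symm hx, Ne.symm hmy]),
          Finset.sum_insert (by simp [Ne.symm hy, Ne.symm hm]), Finset.sum_pair hpq]
        have hx' : nm μ x y x = x := by
          unfold nm; simp [Ne.symm hx, Ne.symm hmy]
        have hy' : nm μ x y y = y := by
          unfold nm; simp [hxy.symm, Ne.symm hy, Ne.symm hm]
        rw [hp, hq, hx', hy', hi, hi]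
        by_cases h1 : x ∈ U <;> by_cases h2 : y ∈ U <;> by_cases h3 : μ x ∈ U <;>
          by_cases h4 : μ y ∈ U <;> simp [h1, h2, h3, h4]
  omega

theorem sw_dM [Fintype V] (μ : V → V) (x y : V) (hxy : x ≠ y) (hm : μ x = y) (hm' : μ y = x)
    (U : Set V) : dM (fun u => if u = x then x else if u = y then y else μ u) U ≤ dM μ U := by
  unfold dM
  refine Finset.sum_le_sum fun u _ => ?_
  by_cases h1 : u = x
  · subst h1; simp
  · by_cases h2 : u = y
    · subst h2; simp [h1]
    · simp [h1, h2]

end StepM

/-- Q3 (deleting an arc, realised by making it a loop). -/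
theorem addEdge [Fintype V] [Fintype A] (s t : A → V) (N : Set V) (k : ℕ)
    (a : A) (ha : s a ≠ t a)
    (μ : V → V) (hμ : Pairing (Function.update s a (t a)) t N k μ) :
    ∃ μ' : V → V, Pairing s t N k μ' := by
  obtain ⟨hi, ho, hb⟩ := hμ
  have hinj : Function.Injective μ := Function.LeftInverse.injective hi
  have hbound : ∀ μ' : V → V,
      (∀ U, dM μ' U ≤ dM μ U + (if (s a ∈ U ↔ t a ∈ U) then 0 else 1)) →
      ∀ U : Set V, U.Nonempty → Uᶜ.Nonempty → BdOn s t N k μ' U := by
    intro μ' h U hU hU'
    have h1 := hb U hU hU'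
    have h2 := h U
    have h3 := dd_update s t a U
    unfold BdOn at h1 ⊢
    refine ⟨by omega, fun hN => ?_⟩
    have := h1.2 hN
    omega
  have hx1 : dd s t {s a} = dd (Function.update s a (t a)) t {s a} + 1 := by
    rw [dd_update s t a {s a}]; simp [ha.symm]
  have hy1 : dd s t {t a} = dd (Function.update s a (t a)) t {t a} + 1 := by
    rw [dd_update s t a {t a}]; simp [ha]
  have hu1 : ∀ u, u ≠ s a → u ≠ t a → dd s t {u} = dd (Function.update s a (t a)) t {u} := by
    intro u h1 h2
    rw [dd_update s t a {u}]; simp [h1.symm, h2.symm]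
  by_cases hm : μ (s a) = t a
  · have hm' : μ (t a) = s a := by rw [← hm, hi]
    refine ⟨fun u => if u = s a then s a else if u = t a then t a else μ u, ?_, ?_, ?_⟩
    · intro u
      by_cases h1 : u = s a
      · simp [h1]
      · by_cases h2 : u = t a
        · simp [h2, ha.symm]
        · have h3 : μ u ≠ s a := fun h => h2 (by rw [← hi u, h, hm])
          have h4 : μ u ≠ t a := fun h => h1 (by rw [← hi u, h, hm'])
          simp [h1, h2, h3, h4, hi]
    · intro u
      by_cases h1 : u = s a
      · subst h1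
        have h5 := (ho (s a)).1 (by rw [hm]; exact ha.symm)
        rw [hx1]
        simp only [if_true, ne_eq, not_true, false_iff]
        rw [Nat.odd_iff] at h5 ⊢
        omega
      · by_cases h2 : u = t a
        · subst h2
          have h5 := (ho (t a)).1 (by rw [hm']; exact ha)
          rw [hy1]
          simp only [ha.symm, if_true, if_false, ne_eq, not_true, false_iff]
          rw [Nat.odd_iff] at h5 ⊢
          omega
        · rw [hu1 u h1 h2, ← ho u]
          simp [h1, h2]
    · exact hbound _ fun U => le_trans (sw_dM μ _ _ ha hm hm' U) (Nat.le_add_right _ _)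
  · have hmy : μ (t a) ≠ s a := by
      intro h; apply hm; rw [← h, hi]
    have hpq : μ (s a) ≠ μ (t a) := fun h => ha (hinj h)
    refine ⟨nm μ (s a) (t a), nm_invol μ hi _ _ ha hm, ?_, hbound _ fun U => nm_dM μ hi _ _ ha hm U⟩
    intro u
    by_cases h1 : u = s a
    · subst h1
      rw [hx1]
      have h5 := ho (s a)
      by_cases h2 : μ (s a) = s a
      · have h6 : nm μ (s a) (t a) (s a) = μ (t a) := by unfold nm; simp [h2]
        rw [h6]
        have h7 : ¬ Odd (dd (Function.update s a (t a)) t {s a}) := fun h => (h5.2 h) h2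
        rw [Nat.odd_iff] at h7 ⊢
        constructor
        · intro _; omega
        · intro _; exact hmy
      · have h6 : nm μ (s a) (t a) (s a) = s a := by unfold nm; simp [Ne.symm h2, Ne.symm hmy]
        rw [h6]
        have h7 := h5.1 h2
        rw [Nat.odd_iff] at h7 ⊢
        constructor
        · intro h; exact absurd rfl h
        · intro h; omega
    · by_cases h2 : u = t a
      · subst h2
        rw [hy1]
        have h5 := ho (t a)
        by_cases h3 : μ (t a) = t a
        · have h6 : nm μ (s a) (t a) (t a) = μ (s a) := by unfold nm; simp [h3, Ne.symm hm]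
          rw [h6]
          have h7 : ¬ Odd (dd (Function.update s a (t a)) t {t a}) := fun h => (h5.2 h) h3
          rw [Nat.odd_iff] at h7 ⊢
          constructor
          · intro _; omega
          · intro _; exact hm
        · have h6 : nm μ (s a) (t a) (t a) = t a := by
            unfold nm; simp [Ne.symm h3, Ne.symm hm, h1]
          rw [h6]
          have h7 := h5.1 h3
          rw [Nat.odd_iff] at h7 ⊢
          constructor
          · intro h; exact absurd rfl h
          · intro h; omega
      · rw [hu1 u h1 h2, ← ho u]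
        by_cases h3 : u = μ (s a)
        · subst h3
          have h6 : nm μ (s a) (t a) (μ (s a)) = μ (t a) := by unfold nm; simp
          rw [h6, hi]
          exact ⟨fun _ => Ne.symm h1, fun _ => hpq.symm⟩
        · by_cases h4 : u = μ (t a)
          · subst h4
            have h6 : nm μ (s a) (t a) (μ (t a)) = μ (s a) := by unfold nm; simp [hpq.symm]
            rw [h6, hi]
            exact ⟨fun _ => Ne.symm h2, fun _ => hpq⟩
          · have h6 : nm μ (s a) (t a) u = μ u := by unfold nm; simp [h1, h2, h3, h4]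
            rw [h6]

end Pool.Agent.DJ9e
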