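import Pool.Agent.Lib_MP_9e7d46_co.Contract
import Pool.Agent.Lib_MP_9e7d46_co.GlueM
import Pool.Agent.Lib_MP_9e7d46_co.StepM
import Pool.Agent.Lib_MP_9e7d46_co.Split
import Pool.Agent.Lib_MP_9e7d46_co.Lift

/-!
The two-level odd vertex pairing theorem.
-/

set_option autoImplicit false
set_option linter.unusedSectionVars false

namespace Pool.Agent.DJ9e

open Classical

universe u v

variable {V : Type u} {A : Type v} [Fintype A]

theorem exists_arc_of_dd_pos (s t : A → V) (w : V) (h : 0 < dd s t {w}) :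
    ∃ (e : A) (y : V), y ≠ w ∧ Jn s t e w y := by
  unfold dd at h
  obtain ⟨e, -, he⟩ := Finset.exists_ne_zero_of_sum_ne_zero (Nat.pos_iff_ne_zero.1 h)
  have hc : ¬ (s e ∈ ({w} : Set V) ↔ t e ∈ ({w} : Set V)) := by
    intro hc
    exact he (if_pos hc)
  by_cases h1 : s e = w
  · refine ⟨e, t e, ?_, Or.inl ⟨h1, rfl⟩⟩
    intro h2
    exact hc (by simp [h1, h2])
  · refine ⟨e, s e, h1, Or.inr ⟨rfl, ?_⟩⟩
    by_contra h2
    exact hc (by simp [h1, h2])

theorem sat_pair {w y : V} {U : Set V} (h : w ∈ U ↔ y ∈ U) : Sat {w, y} U := by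
  by_cases h' : w ∈ U
  · left
    intro x hx
    rcases hx with rfl | hx
    · exact h'
    · rw [Set.mem_singleton_iff] at hx
      subst hx; exact h.1 h'
  · right
    intro x hx
    rcases hx with rfl | hx
    · exact h'
    · rw [Set.mem_singleton_iff] at hx
      subst hx; exact fun h'' => h' (h.2 h'')

theorem dM_id [Fintype V] (U : Set V) : dM (fun u => u) U = 0 := by
  unfold dM
  refine Finset.sum_eq_zero fun u _ => ?_
  rw [if_neg]
  exact fun h => h.2 h.1

theorem nl_update (s t : A → V) (a : A) (ha : s a ≠ t a) :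
    nl (Function.update s a (t a)) t < nl s t := by
  unfold nl
  refine Finset.sum_lt_sum (fun b _ => ?_) ⟨a, Finset.mem_univ _, ?_⟩
  · by_cases hb : b = a
    · subst hb
      rw [Function.update_self, if_pos rfl]
      exact Nat.zero_le _
    · rw [Function.update_of_ne hb]
  · rw [Function.update_self, if_pos rfl, if_neg ha]
    exact Nat.one_pos

theorem nl_split (s t : A → V) (a b : A) (z u v : V) (hab : b ≠ a)
    (hb : s b ≠ t b) (ha : s a ≠ t a) : nl (spS s a b z u) (spT t a b z v) < nl s t := by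
  unfold nl
  refine Finset.sum_lt_sum (fun c _ => ?_) ⟨b, Finset.mem_univ _, ?_⟩
  · by_cases hcb : c = b
    · subst hcb
      rw [if_pos (by simp [spS, spT])]
      exact Nat.zero_le _
    · by_cases hca : c = a
      · subst hca
        rw [if_neg ha]
        split_ifs <;> omega
      · have e1 : spS s a b z u c = s c := by simp [spS, hcb, hca]
        have e2 : spT t a b z v c = t c := by simp [spT, hcb, hca]
        rw [e1, e2]
  · rw [if_pos (by simp [spS, spT]), if_neg hb]
    exact Nat.one_pos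

theorem dd_update1 (s t : A → V) (a : A) (U : Set V) :
    dd s t U = dd (Function.update s a (t a)) t U + (if (s a ∈ U ↔ t a ∈ U) then 0 else 1) := by
  unfold dd
  have h : ∀ b, (if (s b ∈ U ↔ t b ∈ U) then 0 else 1) =
      (if (Function.update s a (t a) b ∈ U ↔ t b ∈ U) then 0 else 1) +
      (if b = a then (if (s a ∈ U ↔ t a ∈ U) then 0 else 1) else 0) := by
    intro b
    by_cases hb : b = a
    · subst hb
      rw [Function.update_self]
      simp
    · rw [Function.update_of_ne hb, if_neg hb, Nat.add_zero]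
  rw [Finset.sum_congr rfl fun b _ => h b, Finset.sum_add_distrib]
  congr 1
  rw [Finset.sum_ite_eq']
  simp

theorem two_of_not_singleton {X : Set V} (hne : X.Nonempty) (h : ¬ ∃ x, X = {x}) :
    ∃ x x', x ∈ X ∧ x' ∈ X ∧ x' ≠ x := by
  obtain ⟨x, hx⟩ := hne
  by_contra hcc
  apply h
  refine ⟨x, ?_⟩
  ext z
  simp only [Set.mem_singleton_iff]
  constructor
  · intro hz
    by_contra hzx
    exact hcc ⟨x, z, hx, hz, hzx⟩
  · rintro rfl; exact hx

theorem pair_induction (k : ℕ) (hk : 2 ≤ k) (n : ℕ) :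
    ∀ (V : Type u) [Fintype V] (s t : A → V) (N : Set V), mm s t = n → HypN s t N k →
      ∃ μ : V → V, Pairing s t N k μ := by
  induction n using Nat.strong_induction_on with
  | _ n IHn =>
  intro V _ s t N hn hyp
  have IH : ∀ (V' : Type u) [Fintype V'] (s' t' : A → V') (N' : Set V'), mm s' t' < mm s t →
      HypN s' t' N' k → ∃ μ : V' → V', Pairing s' t' N' k μ := by
    intro V' _ s' t' N' hlt h
    exact IHn _ (by rw [← hn]; exact hlt) V' s' t' N' rfl h
  by_cases h0 : Subsingleton V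
  · refine ⟨fun u => u, fun _ => rfl, fun u => ?_, fun U hU hUc => ?_⟩
    · have : dd s t {u} = 0 := by
        unfold dd
        refine Finset.sum_eq_zero fun a _ => ?_
        rw [if_pos]
        rw [Subsingleton.elim (s a) (t a)]
      rw [this]; simp
    · obtain ⟨x, hx⟩ := hU
      obtain ⟨y, hy⟩ := hUc
      rw [Subsingleton.elim x y] at hx
      exact absurd hx hy
  by_cases hA : ∃ X : Set V, (dd s t X = 2 ∨ (NSep N X ∧ dd s t X = 2 * k)) ∧
      (∃ x x', x ∈ X ∧ x' ∈ X ∧ x' ≠ x) ∧ (∃ y y', y ∈ Xᶜ ∧ y' ∈ Xᶜ ∧ y' ≠ y)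
  · obtain ⟨X, hX, ⟨x, x', hx, hx', hxx⟩, ⟨y, y', hy, hy', hyy⟩⟩ := hA
    have heven : ¬ Odd (dd s t X) := by
      rw [Nat.not_odd_iff_even]
      rcases hX with h | ⟨-, h⟩
      · rw [h]; exact ⟨1, rfl⟩
      · rw [h]; exact ⟨k, by ring⟩
    obtain ⟨μ₁, i1, f1, o1, p1, b1⟩ := contractM k s t N IH hyp Xᶜ y y' hy hy' hyy
    obtain ⟨μ₂, i2, f2, o2, p2, b2⟩ := contractM k s t N IH hyp X x x' hx hx' hxx
    refine ⟨_, glueM s t N k hk X hX μ₁ μ₂ i1 i2 ?_ ?_ ?_ ?_ b1 b2⟩
    · intro u hu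
      by_cases huy : u = y
      · subst huy
        by_contra hc
        rw [dd_compl] at p1
        exact heven (p1.1 hc)
      · exact f1 u hu huy
    · intro u hu
      by_cases hux : u = x
      · subst hux
        by_contra hc
        exact heven (p2.1 hc)
      · exact f2 u hu hux
    · intro u hu
      exact o1 u (by simpa using hu)
    · intro u hu
      exact o2 u hu
  by_cases hB : ∃ w, dd s t {w} = 2
  · obtain ⟨w, hw⟩ := hB
    obtain ⟨e, y, hyw, he⟩ := exists_arc_of_dd_pos s t w (by omega)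
    obtain ⟨μ, i1, f1, o1, p1, b1⟩ := contractM k s t N IH hyp {w, y} y w (by simp) (by simp)
      (Ne.symm hyw)
    refine ⟨μ, deg2M s t N k hk hyp w y (Ne.symm hyw) hw e he μ i1
      (f1 w (by simp) (Ne.symm hyw)) ?_ p1 ?_⟩
    · intro u hu hu'
      exact o1 u (by simp [hu, hu'])
    · intro U hU hUc h
      exact b1 U hU hUc (sat_pair h)
  by_cases hC : ∃ a, s a ≠ t a ∧ HypN (Function.update s a (t a)) t N k
  · obtain ⟨a, ha, hH⟩ := hC
    obtain ⟨μ, hμ⟩ := IH V (Function.update s a (t a)) t N (by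
      unfold mm
      have := nl_update s t a ha
      omega) hH
    exact addEdge s t N k a ha μ hμ
  have htriv : ∀ X : Set V, NSep N X → dd s t X = 2 * k →
      (∃ x, X = {x}) ∨ (∃ x, Xᶜ = {x}) := by
    intro X hX hd
    by_contra hc
    push Not at hc
    obtain ⟨⟨n1, -, hn1⟩, ⟨n2, -, hn2⟩⟩ := id hX
    exact hA ⟨X, Or.inr ⟨hX, hd⟩, two_of_not_singleton ⟨n1, hn1⟩ (by push Not; exact hc.1),
      two_of_not_singleton ⟨n2, hn2⟩ (by push Not; exact hc.2)⟩
  have h3 : ∀ U : Set V, U.Nonempty → Uᶜ.Nonempty → 3 ≤ dd s t U := by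
    intro U hU hUc
    have h2 := (hyp U hU hUc).1
    by_contra hlt
    have h2' : dd s t U = 2 := by omega
    by_cases hs : ∃ x, U = {x}
    · obtain ⟨x, rfl⟩ := hs
      exact hB ⟨x, h2'⟩
    by_cases hs' : ∃ x, Uᶜ = {x}
    · obtain ⟨x, hx⟩ := hs'
      exact hB ⟨x, by rw [← hx, dd_compl]; exact h2'⟩
    exact hA ⟨U, Or.inl h2', two_of_not_singleton hU hs, two_of_not_singleton hUc hs'⟩
  have hcrit : ∀ a, s a ≠ t a → ∃ x, (x = s a ∨ x = t a) ∧ x ∈ N ∧ dd s t {x} = 2 * k ∧
      ∃ n ∈ N, n ≠ x := by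
    intro a ha
    by_contra hc
    apply hC
    refine ⟨a, ha, fun U hU hUc => ?_⟩
    have hu := dd_update1 s t a U
    have h3U := h3 U hU hUc
    refine ⟨by split_ifs at hu <;> omega, fun hN => ?_⟩
    have h2k := (hyp U hU hUc).2 hN
    by_contra hlt
    have hcr : ¬ (s a ∈ U ↔ t a ∈ U) := by
      intro h
      rw [if_pos h] at hu
      omega
    rw [if_neg hcr] at hu
    have hd : dd s t U = 2 * k := by omega
    apply hc
    obtain ⟨⟨n1, hn1N, hn1⟩, ⟨n2, hn2N, hn2⟩⟩ := id hN
    rcases htriv U hN hd with ⟨x, rfl⟩ | ⟨x, hx⟩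
    · refine ⟨x, ?_, ?_, hd, n2, hn2N, hn2⟩
      · simp only [Set.mem_singleton_iff] at hcr
        by_contra hcc
        push Not at hcc
        exact hcr ⟨fun h => absurd h.symm hcc.1, fun h => absurd h.symm hcc.2⟩
      · rw [Set.mem_singleton_iff] at hn1
        rw [← hn1]; exact hn1N
    · have hmem : ∀ w, w ∉ U ↔ w = x := by
        intro w
        rw [← Set.mem_compl_iff, hx, Set.mem_singleton_iff]
      refine ⟨x, ?_, ?_, ?_, n1, hn1N, ?_⟩
      · by_contra hcc
        push Not at hcc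
        apply hcr
        have e1 : s a ∈ U := by
          by_contra h
          exact hcc.1 ((hmem _).1 h).symm
        have e2 : t a ∈ U := by
          by_contra h
          exact hcc.2 ((hmem _).1 h).symm
        exact ⟨fun _ => e2, fun _ => e1⟩
      · rw [← (hmem n2).1 hn2]; exact hn2N
      · rw [← hx, dd_compl]; exact hd
      · intro h
        exact (hmem n1).2 h hn1
  by_cases hD : ∀ v, v ∈ N ∧ dd s t {v} = 2 * k
  · refine ⟨fun u => u, fun _ => rfl, fun u => ?_, fun U hU hUc => ?_⟩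
    · rw [(hD u).2]
      simp
    · unfold BdOn
      rw [dM_id]
      have := hyp U hU hUc
      exact ⟨by omega, fun h => by have := this.2 h; omega⟩
  · push Not at hD
    obtain ⟨u, hu⟩ := hD
    have hu' : ¬ (u ∈ N ∧ dd s t {u} = 2 * k) := fun h => hu h.1 h.2
    have hucne : ({u} : Set V)ᶜ.Nonempty := by
      rw [not_subsingleton_iff_nontrivial] at h0
      obtain ⟨w, hw⟩ := exists_ne u
      exact ⟨w, hw⟩
    obtain ⟨a, z, hzu, ha⟩ := exists_arc_of_dd_pos s t u (by
      have := h3 {u} ⟨u, rfl⟩ hucne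
      omega)
    have hane : s a ≠ t a := by
      rcases ha with ⟨h, h'⟩ | ⟨h, h'⟩
      · rw [h, h']; exact Ne.symm hzu
      · rw [h, h']; exact hzu
    obtain ⟨x, hx, hxN, hxd, hN⟩ := hcrit a hane
    have hxz : x = z := by
      by_contra hc
      have : x = u := by
        rcases ha with ⟨h, h'⟩ | ⟨h, h'⟩ <;> rcases hx with hx | hx
        · rw [hx, h]
        · exact absurd (hx.trans h') hc
        · exact absurd (hx.trans h) hc
        · rw [hx, h']
      subst this
      exact hu' ⟨hxN, hxd⟩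
    subst hxz
    obtain ⟨b, v, hba, hvz, hb, hsp⟩ := split_exists s t N k hk hyp h3 htriv x hxN hxd hN a u
      (Ne.symm hzu) ((Jn_symm s t).1 ha) hu'
    have hbne : s b ≠ t b := by
      rcases hb with ⟨h, h'⟩ | ⟨h, h'⟩
      · rw [h, h']; exact Ne.symm hvz
      · rw [h, h']; exact hvz
    obtain ⟨μ, hμ⟩ := IH V _ _ _ (by
      unfold mm
      have := nl_split s t a b x u v hba hbne hane
      omega) hsp
    refine ⟨μ, split_lift s t N k hk hyp ?_ x hxN hxd hN a b u v (Ne.symm hzu) hvz hba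
      ((Jn_symm s t).1 ha) hb μ hμ⟩
    intro c hc
    obtain ⟨w, hw, hwN, hwd, -⟩ := hcrit c hc
    rcases hw with rfl | rfl
    · exact Or.inl ⟨hwN, hwd⟩
    · exact Or.inr ⟨hwN, hwd⟩

end Pool.Agent.DJ9e
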