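import Pool.Agent.Lib_MP_9e7d46_co.Main
import Pool.Agent.Lib_MP_9e7d46_co.PairThm

/-!
From good orientations to disjoint k-dijoins.
-/

set_option autoImplicit false
set_option linter.unusedSectionVars false

namespace Pool.Agent.DJ9e

open Classical

universe u v

variable {V : Type u} {A : Type v} [Fintype A]

theorem dd_eq_ncard (s t : A → V) (U : Set V) :
    dd s t U = {e : A | ¬ (s e ∈ U ↔ t e ∈ U)}.ncard := by
  rw [Set.ncard_eq_toFinset_card']
  unfold dd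
  rw [Set.toFinset_ofPred, Finset.card_filter]
  refine Finset.sum_congr rfl fun a _ => ?_
  by_cases h : (s a ∈ U ↔ t a ∈ U) <;> simp [h]

theorem dd_closed (s t : A → V) (U : Set V) (h : ∀ e, ¬ (t e ∈ U ∧ s e ∉ U)) :
    dd s t U = {e : A | s e ∈ U ∧ t e ∉ U}.ncard := by
  rw [dd_eq_ncard]
  congr 1
  ext e
  have := h e
  simp only [Set.mem_ofPred_eq]
  tauto

theorem inn_closed_true (s t : A → V) (O : A → Bool) (U : Set V)
    (h : ∀ e, ¬ (t e ∈ U ∧ s e ∉ U)) :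
    inn s t O Uᶜ =
      {e : A | e ∈ (Finset.univ.filter fun e => O e = true) ∧ s e ∈ U ∧ t e ∉ U}.ncard := by
  rw [Set.ncard_eq_toFinset_card']
  unfold inn
  rw [Set.toFinset_ofPred, Finset.card_filter]
  refine Finset.sum_congr rfl fun a _ => ?_
  have := h a
  unfold hd tl
  by_cases h1 : s a ∈ U <;> by_cases h2 : t a ∈ U <;> cases hO : O a <;> simp_all

theorem inn_closed_false (s t : A → V) (O : A → Bool) (U : Set V)
    (h : ∀ e, ¬ (t e ∈ U ∧ s e ∉ U)) :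
    inn s t O U =
      {e : A | e ∈ (Finset.univ.filter fun e => O e = false) ∧ s e ∈ U ∧ t e ∉ U}.ncard := by
  rw [Set.ncard_eq_toFinset_card']
  unfold inn
  rw [Set.toFinset_ofPred, Finset.card_filter]
  refine Finset.sum_congr rfl fun a _ => ?_
  have := h a
  unfold hd tl
  by_cases h1 : s a ∈ U <;> by_cases h2 : t a ∈ U <;> cases hO : O a <;> simp_all

/-- a set crossed by at most one arc is a shore -/
theorem sh_of_dd_le_one (s t : A → V) (U : Set V) (h : dd s t U ≤ 1) : Sh s t U := by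
  by_contra hc
  unfold Sh at hc
  push Not at hc
  obtain ⟨⟨a, ha, ha'⟩, ⟨b, hb, hb'⟩⟩ := hc
  have hab : a ≠ b := by
    rintro rfl
    exact ha' hb
  have h2 : 2 ≤ dd s t U := by
    unfold dd
    calc 2 = ∑ c ∈ ({a, b} : Finset A), (if (s c ∈ U ↔ t c ∈ U) then 0 else 1) := by
          rw [Finset.sum_pair hab, if_neg (by tauto), if_neg (by tauto)]
      _ ≤ _ := Finset.sum_le_sum_of_subset (Finset.subset_univ _)
  omega

theorem two_le_dd (s t : A → V) (k : ℕ) (hk : 1 ≤ k)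
    (h : ∀ U : Set V, U.Nonempty → Uᶜ.Nonempty → Sh s t U → 2 * k ≤ dd s t U)
    (U : Set V) (hU : U.Nonempty) (hUc : Uᶜ.Nonempty) : 2 ≤ dd s t U := by
  by_contra hc
  have := h U hU hUc (sh_of_dd_le_one s t U (by omega))
  omega

theorem exists_good [Fintype V] (s t : A → V) (k : ℕ) (hk : 1 ≤ k)
    (h : ∀ U : Set V, U.Nonempty → Uᶜ.Nonempty → Sh s t U → 2 * k ≤ dd s t U)
    (hX : ∀ X : Set V, Thick s t X → Thick s t Xᶜ → dd s t X ≤ 3 ∨ 2 * k ≤ dd s t X) :
    ∃ O : A → Bool, ∀ U : Set V, U.Nonempty → Uᶜ.Nonempty → Sh s t U → k ≤ inn s t O U := by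
  rcases Nat.lt_or_ge k 2 with hk2 | hk2
  · -- k = 1
    obtain ⟨μ, hμ⟩ := pair_induction (A := A) 2 le_rfl _ V s t ∅ rfl (by
      intro U hU hUc
      refine ⟨two_le_dd s t k hk h U hU hUc, fun hN => ?_⟩
      obtain ⟨⟨n, hn, -⟩, -⟩ := hN
      exact absurd hn (by simp))
    obtain ⟨O, -, hO⟩ := orient_of_pairing s t ∅ 2 μ hμ none
      (by intro v a h; exact absurd h (by simp))
    refine ⟨O, fun U hU hUc _ => ?_⟩
    have h1 := hO U
    have h2 := (hμ.bd U hU hUc).1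
    omega
  · have hyp : Hyp s t k := fun U hU hUc =>
      ⟨two_le_dd s t k hk h U hU hUc, h U hU hUc, fun h1 h2 => hX U h1 h2⟩
    obtain ⟨O, hG, -⟩ := main_induction (A := A) k hk2
      (fun V' _ A' _ s' t' N' h' => pair_induction (A := A') k hk2 _ V' s' t' N' rfl h') _ V rfl
      s t hyp none (by intro v a h; exact absurd h (by simp))
    exact ⟨O, fun U hU hUc hS => (hG U hU hUc).2 hS⟩

/-- Two disjoint `k`-dijoins. -/
theorem two_dijoins [Fintype V] (s t : A → V) (k : ℕ)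
    (h : ∀ U : Set V, U.Nonempty → U ≠ Set.univ → (∀ e, ¬ (t e ∈ U ∧ s e ∉ U)) →
      2 * k ≤ {e : A | s e ∈ U ∧ t e ∉ U}.ncard)
    (hX : ∀ X : Set V, Thick s t X → Thick s t Xᶜ → dd s t X ≤ 3 ∨ 2 * k ≤ dd s t X) :
    ∃ J₁ J₂ : Finset A, Disjoint J₁ J₂ ∧
      ∀ U : Set V, U.Nonempty → U ≠ Set.univ → (∀ e, ¬ (t e ∈ U ∧ s e ∉ U)) →
        k ≤ {e : A | e ∈ J₁ ∧ s e ∈ U ∧ t e ∉ U}.ncard ∧
        k ≤ {e : A | e ∈ J₂ ∧ s e ∈ U ∧ t e ∉ U}.ncard := by
  rcases Nat.eq_zero_or_pos k with hk | hk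
  · subst hk
    exact ⟨∅, ∅, by simp, fun U _ _ _ => ⟨Nat.zero_le _, Nat.zero_le _⟩⟩
  have h' : ∀ U : Set V, U.Nonempty → Uᶜ.Nonempty → Sh s t U → 2 * k ≤ dd s t U := by
    intro U hU hUc hS
    rcases hS with hS | hS
    · have hcl : ∀ e, ¬ (t e ∈ U ∧ s e ∉ U) := fun e he => he.2 (hS e he.1)
      rw [dd_closed s t U hcl]
      exact h U hU (Set.nonempty_compl.1 hUc) hcl
    · have hcl : ∀ e, ¬ (t e ∈ Uᶜ ∧ s e ∉ Uᶜ) := by
        intro e he
        exact he.1 (hS e (by simpa using he.2))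
      rw [← dd_compl, dd_closed s t Uᶜ hcl]
      refine h Uᶜ hUc ?_ hcl
      exact Set.nonempty_compl.1 (by rwa [compl_compl])
  obtain ⟨O, hO⟩ := exists_good s t k hk h' hX
  refine ⟨Finset.univ.filter fun e => O e = true, Finset.univ.filter fun e => O e = false,
    ?_, ?_⟩
  · rw [Finset.disjoint_filter]
    intro e _ h1 h2
    rw [h1] at h2
    exact absurd h2 (by simp)
  · intro U hU hne hcl
    have hUc : Uᶜ.Nonempty := Set.nonempty_compl.2 hne
    have hS : Sh s t U := Or.inl fun e he => by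
      by_contra hc
      exact hcl e ⟨he, hc⟩
    refine ⟨?_, ?_⟩
    · rw [← inn_closed_true s t O U hcl]
      exact hO Uᶜ hUc (by rwa [compl_compl]) ((Sh_compl s t U).2 hS)
    · rw [← inn_closed_false s t O U hcl]
      exact hO U hU hUc hS

end Pool.Agent.DJ9e
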