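import Pool.Agent.Lib_MP_9e7d46_co.Defs

set_option autoImplicit false
set_option linter.unusedSectionVars false

namespace Pool.Agent.DJ9e

open Classical

universe u v

variable {V : Type u} {A : Type v}

namespace Term

theorem card_le_dd [Fintype A] (s t : A → V) (U : Set V) (F : Finset A)
    (hF : ∀ a ∈ F, Cr s t U a) : F.card ≤ dd s t U := by
  unfold dd
  calc F.card = ∑ a ∈ F, 1 := by simp
    _ ≤ ∑ a ∈ F, (if (s a ∈ U ↔ t a ∈ U) then 0 else 1) := by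
        refine Finset.sum_le_sum fun a ha => ?_
        have := hF a ha
        unfold Cr at this
        simp [this]
    _ ≤ ∑ a, (if (s a ∈ U ↔ t a ∈ U) then 0 else 1) :=
        Finset.sum_le_sum_of_subset (Finset.subset_univ F)

theorem dd_swap [Fintype A] (s t : A → V) (U : Set V) : dd t s U = dd s t U := by
  unfold dd
  refine Finset.sum_congr rfl fun a _ => ?_
  by_cases h1 : s a ∈ U <;> by_cases h2 : t a ∈ U <;> simp [h1, h2]

theorem Sh_swap (s t : A → V) (U : Set V) : Sh t s U ↔ Sh s t U := by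
  unfold Sh
  exact or_comm

/-- four arcs between a vertex of degree three and two other vertices. -/
theorem no_four [Fintype A] (s t : A → V) (v x y : V) (hv : dd s t {v} = 3)
    (hx : x ≠ v) (hy : y ≠ v) (hxy : x ≠ y) (b1 b2 b3 b4 : A)
    (h1 : s b1 = v ∧ t b1 = x) (h2 : s b2 = x ∧ t b2 = v)
    (h3 : s b3 = v ∧ t b3 = y) (h4 : s b4 = y ∧ t b4 = v) : False := by
  have e12 : b1 ≠ b2 := by
    rintro rfl
    exact hx (h2.1.symm.trans h1.1)
  have e13 : b1 ≠ b3 := by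
    rintro rfl
    exact hxy (h1.2.symm.trans h3.2)
  have e14 : b1 ≠ b4 := by
    rintro rfl
    exact hy (h4.1.symm.trans h1.1)
  have e23 : b2 ≠ b3 := by
    rintro rfl
    exact hx (h2.1.symm.trans h3.1)
  have e24 : b2 ≠ b4 := by
    rintro rfl
    exact hxy (h2.1.symm.trans h4.1)
  have e34 : b3 ≠ b4 := by
    rintro rfl
    exact hy (h4.1.symm.trans h3.1)
  have hc : ({b1, b2, b3, b4} : Finset A).card = 4 := by
    rw [Finset.card_insert_of_notMem, Finset.card_insert_of_notMem,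
      Finset.card_insert_of_notMem, Finset.card_singleton]
    · simpa using e34
    · simpa using ⟨e23, e24⟩
    · simpa using ⟨e12, e13, e14⟩
  have := card_le_dd s t {v} {b1, b2, b3, b4} (by
    intro a ha
    simp only [Finset.mem_insert, Finset.mem_singleton] at ha
    unfold Cr
    rcases ha with rfl | rfl | rfl | rfl
    · simp [h1.1, h1.2, hx]
    · simp [h2.1, h2.2, hx]
    · simp [h3.1, h3.2, hy]
    · simp [h4.1, h4.2, hy])
  omega

/-- the vertices used as terminals -/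
def NN (s t : A → V) (Z : Set V) : Set V := {n | n ∉ Z ∧ (Sh s t {n} ∨ Sh s t ({n} ∪ Z))}

theorem NN_swap (s t : A → V) (Z : Set V) : NN t s Z = NN s t Z := by
  unfold NN
  ext n
  simp only [Set.mem_ofPred_eq, Sh_swap]

/-- closed sets meet `NN`. -/
theorem meets [Fintype V] [Fintype A] (s t : A → V) (k : ℕ) (hk : 2 ≤ k)
    (hyp : Hyp s t k) (Z : Set V) (hZ : Z = ∅ ∨ ∃ v, Z = {v} ∧ dd s t {v} = 3)
    (harc : ∀ a, s a ≠ t a → s a ∉ Z → t a ∉ Z →
      ∃ W : Set V, (∀ b, t b ∈ W → s b ∈ W) ∧ s a ∈ W ∧ t a ∉ W)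
    (U : Set V) (hU : U.Nonempty) (hUc : Uᶜ.Nonempty) (hcl : ∀ b, t b ∈ U → s b ∈ U) :
    ∃ n ∈ NN s t Z, n ∈ U := by
  -- a minimal nonempty closed subset
  have hex : ∃ m : ℕ, ∃ K : Set V, K.ncard = m ∧ K.Nonempty ∧ K ⊆ U ∧ ∀ b, t b ∈ K → s b ∈ K :=
    ⟨_, U, rfl, hU, subset_rfl, hcl⟩
  obtain ⟨K, hKm, hK, hKU, hKcl⟩ := Nat.find_spec hex
  have hmin : ∀ L : Set V, L.Nonempty → L ⊆ K → (∀ b, t b ∈ L → s b ∈ L) → L = K := by
    intro L hL hLK hLcl
    by_contra hne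
    have hlt : L.ncard < K.ncard := Set.ncard_lt_ncard (lt_of_le_of_ne hLK hne) (Set.toFinite K)
    rw [hKm] at hlt
    exact Nat.find_min hex hlt ⟨L, rfl, hL, hLK.trans hKU, hLcl⟩
  have hstar : ∀ b, s b ≠ t b → s b ∈ K → t b ∈ K → s b ∉ Z → t b ∉ Z → False := by
    intro b hb hs ht hsZ htZ
    obtain ⟨W, hW, h1, h2⟩ := harc b hb hsZ htZ
    have := hmin (W ∩ K) ⟨s b, h1, hs⟩ Set.inter_subset_right
      (fun c hc => ⟨hW c hc.1, hKcl c hc.2⟩)
    have h3 : t b ∈ W ∩ K := by rw [this]; exact ht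
    exact h2 h3.1
  by_cases hKZ : ∃ v ∈ K, v ∈ Z
  · obtain ⟨v, hvK, hvZ⟩ := hKZ
    rcases hZ with rfl | ⟨v', rfl, hv3⟩
    · exact absurd hvZ (Set.notMem_empty v)
    obtain rfl : v = v' := hvZ
    have hvc : ({v} : Set V)ᶜ.Nonempty := by
      obtain ⟨w, hw⟩ := hUc
      refine ⟨w, ?_⟩
      rintro rfl
      exact hw (hKU hvK)
    have hnSh : ¬ Sh s t {v} := by
      intro h
      have := (hyp {v} ⟨v, rfl⟩ hvc).2.1 h
      omega
    -- some y
    have hy : ∃ b, t b = v ∧ s b ≠ v := by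
      by_contra hno
      push Not at hno
      apply hnSh
      left
      intro b hb
      exact hno b hb
    obtain ⟨b0, hb0, hb0'⟩ := hy
    have hyK : s b0 ∈ K := hKcl b0 (by rw [hb0]; exact hvK)
    by_cases hgood : ∃ y ∈ K, y ≠ v ∧ ∀ b, t b = y → s b = y
    · obtain ⟨y, hyK', hyv, hyc⟩ := hgood
      exact ⟨y, ⟨hyv, Or.inl (Or.inl hyc)⟩, hKU hyK'⟩
    push Not at hgood
    have key : ∀ y ∈ K, y ≠ v → ∃ b b' : A, (s b = v ∧ t b = y) ∧ (s b' = y ∧ t b' = v) := by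
      intro y hyK' hyv
      obtain ⟨b, hb, hb'⟩ := hgood y hyK' hyv
      have hsK : s b ∈ K := hKcl b (by rw [hb]; exact hyK')
      have hsv : s b = v := by
        by_contra hsv
        exact hstar b (by rw [hb]; exact hb') hsK (by rw [hb]; exact hyK') hsv
          (by rw [hb]; exact hyv)
      have hnc : ¬ ∀ c, t c ∈ K \ {y} → s c ∈ K \ {y} := by
        intro hc
        have := hmin (K \ {y}) ⟨v, hvK, fun h => hyv h.symm⟩ Set.sdiff_subset hc
        have h2 : y ∈ K \ {y} := by rw [this]; exact hyK'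
        exact h2.2 rfl
      push Not at hnc
      obtain ⟨c, hc1, hc2⟩ := hnc
      have hcK : s c ∈ K := hKcl c hc1.1
      have hcy : s c = y := by
        by_contra hne
        exact hc2 ⟨hcK, hne⟩
      have htv : t c = v := by
        by_contra htv
        refine hstar c ?_ hcK hc1.1 ?_ htv
        · rw [hcy]
          exact fun h => hc1.2 h.symm
        · rw [hcy]
          exact hyv
      exact ⟨b, c, ⟨hsv, hb⟩, ⟨hcy, htv⟩⟩
    have huniq : ∀ y ∈ K, y ≠ v → y = s b0 := by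
      intro y hyK' hyv
      by_contra hne
      obtain ⟨b1, b2, h1, h2⟩ := key y hyK' hyv
      obtain ⟨b3, b4, h3, h4⟩ := key (s b0) hyK hb0'
      exact no_four s t v y (s b0) hv3 hyv hb0' hne b1 b2 b3 b4 h1 h2 h3 h4
    have hKeq : ({s b0} ∪ {v} : Set V) = K := by
      ext x
      constructor
      · rintro (h | h)
        · rw [Set.mem_singleton_iff.mp h]
          exact hyK
        · rw [Set.mem_singleton_iff.mp h]
          exact hvK
      · intro hx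
        by_cases hxv : x = v
        · exact Or.inr hxv
        · exact Or.inl (huniq x hx hxv)
    refine ⟨s b0, ⟨hb0', Or.inr (Or.inl ?_)⟩, hKU hyK⟩
    rw [hKeq]
    exact hKcl
  · push Not at hKZ
    obtain ⟨n, hn⟩ := hK
    refine ⟨n, ⟨hKZ n hn, Or.inl (Or.inl ?_)⟩, hKU hn⟩
    intro b hb
    by_contra hne
    have hb' : t b = n := hb
    have hsK : s b ∈ K := hKcl b (by rw [hb']; exact hn)
    refine hstar b ?_ hsK (by rw [hb']; exact hn) (hKZ _ hsK) (by rw [hb']; exact hKZ _ hn)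
    rw [hb']
    exact hne

theorem meets' [Fintype V] [Fintype A] (s t : A → V) (k : ℕ) (hk : 2 ≤ k)
    (hyp : Hyp s t k) (Z : Set V) (hZ : Z = ∅ ∨ ∃ v, Z = {v} ∧ dd s t {v} = 3)
    (harc : ∀ a, s a ≠ t a → s a ∉ Z → t a ∉ Z →
      ∃ W : Set V, (∀ b, t b ∈ W → s b ∈ W) ∧ s a ∈ W ∧ t a ∉ W)
    (U : Set V) (hU : U.Nonempty) (hUc : Uᶜ.Nonempty) (hsh : Sh s t U) :
    ∃ n ∈ NN s t Z, n ∈ U := by
  rcases hsh with hcl | hcl
  · exact meets s t k hk hyp Z hZ harc U hU hUc hcl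
  · have hyp' : Hyp t s k := by
      intro U h1 h2
      have := hyp U h1 h2
      unfold Thick at *
      simp only [dd_swap, Sh_swap] at *
      exact this
    have := meets t s k hk hyp' Z (by simpa only [dd_swap] using hZ) (by
      intro a ha h1 h2
      obtain ⟨W, hW, h3, h4⟩ := harc a (Ne.symm ha) h2 h1
      refine ⟨Wᶜ, ?_, h4, ?_⟩
      · intro b hb hc
        exact hb (hW b hc)
      · exact fun h => h h3) U hU hUc hcl
    rwa [NN_swap] at this

/-- case B of the count: `n1` is not a shore by itself. -/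
theorem caseB [Fintype V] [Fintype A] (s t : A → V) (k : ℕ) (hk : 2 ≤ k)
    (hyp : Hyp s t k) (Z : Set V) (hZ : Z = ∅ ∨ ∃ v, Z = {v} ∧ dd s t {v} = 3)
    (hcut : ∀ X : Set V, dd s t X ≤ 3 → X.Nonempty → Xᶜ.Nonempty →
      (∃ x, X = {x}) ∨ (∃ x, Xᶜ = {x}))
    (X : Set V) (n1 n2 : V) (h1 : n1 ∈ NN s t Z) (h2 : n2 ∈ NN s t Z) (hn1 : n1 ∈ X)
    (hn2 : n2 ∉ X) (hns : ¬ Sh s t {n1}) : 2 * k ≤ dd s t X := by
  have h12 : n1 ≠ n2 := fun h => hn2 (h ▸ hn1)
  have pairs : ∀ n n' : V, n' ≠ n → n ∈ NN s t Z → ¬ Sh s t {n} → ∃ v, Z = {v} ∧ n ≠ v ∧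
      Sh s t ({n} ∪ {v}) ∧ ∃ b b' : A, (s b = v ∧ t b = n) ∧ (s b' = n ∧ t b' = v) := by
    intro n n' hnn' hn hns
    have hsh : Sh s t ({n} ∪ Z) := hn.2.resolve_left hns
    rcases hZ with rfl | ⟨v, rfl, hv3⟩
    · rw [Set.union_empty] at hsh
      exact absurd hsh hns
    have hnv : n ≠ v := hn.1
    have hvs : ¬ Sh s t {v} := by
      intro h
      have := (hyp {v} ⟨v, rfl⟩ ⟨n, hnv⟩).2.1 h
      omega
    have q1 : ¬ ∀ b, t b ∈ ({n} : Set V) → s b ∈ ({n} : Set V) := fun h => hns (Or.inl h)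
    have q2 : ¬ ∀ b, s b ∈ ({n} : Set V) → t b ∈ ({n} : Set V) := fun h => hns (Or.inr h)
    have q3 : ¬ ∀ b, t b ∈ ({v} : Set V) → s b ∈ ({v} : Set V) := fun h => hvs (Or.inl h)
    have q4 : ¬ ∀ b, s b ∈ ({v} : Set V) → t b ∈ ({v} : Set V) := fun h => hvs (Or.inr h)
    push Not at q1 q2 q3 q4
    obtain ⟨b1, h1, h1'⟩ := q1
    obtain ⟨b2, h2, h2'⟩ := q2
    obtain ⟨b3, h3, h3'⟩ := q3
    obtain ⟨b4, h4, h4'⟩ := q4
    refine ⟨v, rfl, hnv, hsh, ?_⟩
    rcases hsh with hc | hc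
    · refine ⟨b1, b3, ⟨?_, h1⟩, ⟨?_, h3⟩⟩
      · exact (hc b1 (Or.inl h1)).resolve_left h1'
      · exact (hc b3 (Or.inr h3)).resolve_right h3'
    · refine ⟨b4, b2, ⟨h4, ?_⟩, ⟨h2, ?_⟩⟩
      · exact (hc b4 (Or.inr h4)).resolve_right h4'
      · exact (hc b2 (Or.inl h2)).resolve_left h2'
  obtain ⟨v, hZv, h1v, hsh1, b1, b2, hb1, hb2⟩ := pairs n1 n2 h12.symm h1 hns
  have hv3 : dd s t {v} = 3 := by
    rcases hZ with rfl | ⟨v', rfl, hv3⟩
    · exact absurd (show v ∈ (∅ : Set V) by rw [hZv]; rfl) (Set.notMem_empty v)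
    · rw [← hZv]; exact hv3
  have h2v : n2 ≠ v := by
    have := h2.1
    rw [hZv] at this
    exact this
  have hsh2 : Sh s t {n2} := by
    by_contra hns2
    obtain ⟨v', hZv', h2v', hsh2, b3, b4, hb3, hb4⟩ := pairs n2 n1 h12 h2 hns2
    have hvv : v' = v := by
      have : v' ∈ ({v} : Set V) := by rw [← hZv, hZv']; rfl
      exact this
    subst hvv
    exact no_four s t v' n1 n2 hv3 h1v h2v h12 b1 b2 b3 b4 hb1 hb2 hb3 hb4
  -- the case `v ∈ X`
  have main : ∀ Y : Set V, n1 ∈ Y → v ∈ Y → n2 ∉ Y → 2 * k ≤ dd s t Y := by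
    intro Y hY1 hYv hY2
    have hYn : Y.Nonempty := ⟨n1, hY1⟩
    have hYc : Yᶜ.Nonempty := ⟨n2, hY2⟩
    have ht1 : Thick s t Y := by
      refine ⟨{n1} ∪ {v}, ⟨n1, Or.inl rfl⟩, ?_, hsh1⟩
      rintro x (hx | hx)
      · rw [Set.mem_singleton_iff.mp hx]; exact hY1
      · rw [Set.mem_singleton_iff.mp hx]; exact hYv
    have ht2 : Thick s t Yᶜ := by
      refine ⟨{n2}, ⟨n2, rfl⟩, ?_, hsh2⟩
      intro x hx
      rw [Set.mem_singleton_iff.mp hx]; exact hY2
    rcases (hyp Y hYn hYc).2.2 ht1 ht2 with h3 | h3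
    · rcases hcut Y h3 hYn hYc with ⟨x, hx⟩ | ⟨x, hx⟩
      · exfalso
        rw [hx] at hY1 hYv
        exact h1v (hY1.trans hYv.symm)
      · refine (hyp Y hYn hYc).2.1 ?_
        rw [← Sh_compl, hx]
        have : n2 ∈ ({x} : Set V) := by rw [← hx]; exact hY2
        rw [← Set.mem_singleton_iff.mp this]
        exact hsh2
    · exact h3
  by_cases hvX : v ∈ X
  · exact main X hn1 hvX hn2
  · have h2k := main (X ∪ {v}) (Or.inl hn1) (Or.inr rfl) (by
      rintro (h | h)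
      · exact hn2 h
      · exact h2v h)
    have hb12 : b1 ≠ b2 := by
      rintro rfl
      exact h1v (hb2.1.symm.trans hb1.1)
    have hle : dd s t (X ∪ {v}) + ∑ a, (if a = b1 ∨ a = b2 then 2 else 0)
        ≤ dd s t X + dd s t {v} := by
      unfold dd
      rw [← Finset.sum_add_distrib, ← Finset.sum_add_distrib]
      refine Finset.sum_le_sum fun a _ => ?_
      by_cases ha : a = b1 ∨ a = b2
      · rw [if_pos ha]
        rcases ha with rfl | rfl
        · simp [hb1.1, hb1.2, hvX, hn1, h1v]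
        · simp [hb2.1, hb2.2, hvX, hn1, h1v]
      · rw [if_neg ha]
        simp only [Set.mem_union, Set.mem_singleton_iff]
        by_cases c1 : s a ∈ X <;> by_cases c2 : t a ∈ X <;> by_cases c3 : s a = v <;>
          by_cases c4 : t a = v <;> simp [c1, c2, c3, c4]
    have hsum : ∑ a, (if a = b1 ∨ a = b2 then 2 else 0) = 4 := by
      rw [← Finset.sum_filter]
      have : (Finset.univ.filter fun a => a = b1 ∨ a = b2) = {b1, b2} := by
        ext a
        simp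
      rw [this, Finset.sum_pair hb12]
    rw [hsum, hv3] at hle
    omega

theorem count [Fintype V] [Fintype A] (s t : A → V) (k : ℕ) (hk : 2 ≤ k)
    (hyp : Hyp s t k) (Z : Set V) (hZ : Z = ∅ ∨ ∃ v, Z = {v} ∧ dd s t {v} = 3)
    (hcut : ∀ X : Set V, dd s t X ≤ 3 → X.Nonempty → Xᶜ.Nonempty →
      (∃ x, X = {x}) ∨ (∃ x, Xᶜ = {x}))
    (X : Set V) (n1 n2 : V) (h1 : n1 ∈ NN s t Z) (h2 : n2 ∈ NN s t Z) (hn1 : n1 ∈ X)
    (hn2 : n2 ∉ X) : 2 * k ≤ dd s t X := by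
  by_cases hs1 : Sh s t {n1}
  · by_cases hs2 : Sh s t {n2}
    · have hXn : X.Nonempty := ⟨n1, hn1⟩
      have hXc : Xᶜ.Nonempty := ⟨n2, hn2⟩
      have ht1 : Thick s t X := by
        refine ⟨{n1}, ⟨n1, rfl⟩, ?_, hs1⟩
        intro x hx
        rw [Set.mem_singleton_iff.mp hx]; exact hn1
      have ht2 : Thick s t Xᶜ := by
        refine ⟨{n2}, ⟨n2, rfl⟩, ?_, hs2⟩
        intro x hx
        rw [Set.mem_singleton_iff.mp hx]; exact hn2
      rcases (hyp X hXn hXc).2.2 ht1 ht2 with h3 | h3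
      · refine (hyp X hXn hXc).2.1 ?_
        rcases hcut X h3 hXn hXc with ⟨x, hx⟩ | ⟨x, hx⟩
        · have : n1 ∈ ({x} : Set V) := by rw [← hx]; exact hn1
          rw [hx, ← Set.mem_singleton_iff.mp this]
          exact hs1
        · have : n2 ∈ ({x} : Set V) := by rw [← hx]; exact hn2
          rw [← Sh_compl, hx, ← Set.mem_singleton_iff.mp this]
          exact hs2
      · exact h3
    · have := caseB s t k hk hyp Z hZ hcut Xᶜ n2 n1 h2 h1 hn2 (fun h => h hn1) hs2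
      rwa [dd_compl] at this
  · exact caseB s t k hk hyp Z hZ hcut X n1 n2 h1 h2 hn1 hn2 hs1

end Term

/-- P8 : the terminal case.  `Z` is empty or a root of degree three. -/
theorem terminal_N [Fintype V] [Fintype A] (s t : A → V) (k : ℕ) (hk : 2 ≤ k)
    (hyp : Hyp s t k) (Z : Set V) (hZ : Z = ∅ ∨ ∃ v, Z = {v} ∧ dd s t {v} = 3)
    (hcut : ∀ X : Set V, dd s t X ≤ 3 → X.Nonempty → Xᶜ.Nonempty →
      (∃ x, X = {x}) ∨ (∃ x, Xᶜ = {x}))
    (harc : ∀ a, s a ≠ t a → s a ∉ Z → t a ∉ Z →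
      ∃ W : Set V, (∀ b, t b ∈ W → s b ∈ W) ∧ s a ∈ W ∧ t a ∉ W) :
    ∃ N : Set V, HypN s t N k ∧
      ∀ U : Set V, U.Nonempty → Uᶜ.Nonempty → Sh s t U → NSep N U := by
  refine ⟨Term.NN s t Z, ?_, ?_⟩
  · intro U hU hUc
    refine ⟨(hyp U hU hUc).1, ?_⟩
    rintro ⟨⟨n1, h1, hn1⟩, ⟨n2, h2, hn2⟩⟩
    exact Term.count s t k hk hyp Z hZ hcut U n1 n2 h1 h2 hn1 hn2
  · intro U hU hUc hsh
    refine ⟨Term.meets' s t k hk hyp Z hZ harc U hU hUc hsh, ?_⟩
    exact Term.meets' s t k hk hyp Z hZ harc Uᶜ hUc (by rwa [compl_compl])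
      ((Sh_compl s t U).2 hsh)

end Pool.Agent.DJ9e
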