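import Pool.Agent.Lib_MP_9e7d46_co.Defs

/-!
Contraction of a vertex set and transfer of the induction hypotheses.
-/

set_option autoImplicit false
set_option linter.unusedSectionVars false

namespace Pool.Agent.DJ9e

open Classical

universe u v

variable {V : Type u} {A : Type v}

/-- vertices of the graph obtained by contracting `K` to `k0`. -/
abbrev CV (K : Set V) (k0 : V) : Type u := {x : V // x ∉ K ∨ x = k0}

/-- the contraction map. -/
noncomputable def cmap (K : Set V) (k0 : V) (x : V) : CV K k0 :=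
  if h : x ∈ K then ⟨k0, Or.inr rfl⟩ else ⟨x, Or.inl h⟩

theorem cmap_mem {K : Set V} {k0 x : V} (h : x ∈ K) : cmap K k0 x = ⟨k0, Or.inr rfl⟩ := by
  unfold cmap; rw [dif_pos h]

theorem cmap_not {K : Set V} {k0 x : V} (h : x ∉ K) : cmap K k0 x = ⟨x, Or.inl h⟩ := by
  unfold cmap; rw [dif_neg h]

theorem cmap_surj {K : Set V} {k0 : V} (hk : k0 ∈ K) : Function.Surjective (cmap K k0) := by
  rintro ⟨y, hy⟩
  rcases hy with hy | hy
  · exact ⟨y, cmap_not hy⟩
  · subst hy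
    exact ⟨y, cmap_mem hk⟩

theorem cmap_card [Fintype V] {K : Set V} {k0 x0 : V} (hx : x0 ∈ K) (hne : x0 ≠ k0) :
    Fintype.card (CV K k0) < Fintype.card V := by
  refine Fintype.card_subtype_lt (x := x0) ?_
  push Not
  exact ⟨hx, hne⟩

theorem preimage_sat {K : Set V} {k0 : V} (hk : k0 ∈ K) {U : Set V} (hU : Sat K U) :
    cmap K k0 ⁻¹' {y | y.1 ∈ U} = U := by
  ext x
  show (cmap K k0 x).1 ∈ U ↔ x ∈ U
  by_cases hx : x ∈ K
  · rw [cmap_mem hx]
    rcases hU with h | h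
    · exact ⟨fun _ => h hx, fun _ => h hk⟩
    · exact ⟨fun h' => absurd h' (h hk), fun h' => absurd h' (h hx)⟩
  · rw [cmap_not hx]

theorem sat_preimage {K : Set V} {k0 : V} (U : Set (CV K k0)) :
    Sat K (cmap K k0 ⁻¹' U) := by
  by_cases h : (⟨k0, Or.inr rfl⟩ : CV K k0) ∈ U
  · left
    intro x hx
    rw [Set.mem_preimage, cmap_mem hx]
    exact h
  · right
    intro x hx hc
    rw [Set.mem_preimage, cmap_mem hx] at hc
    exact h hc

theorem cmap_fiber_not {K : Set V} {k0 : V} (hk : k0 ∈ K) {v : V} (hv : v ∉ K) :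
    cmap K k0 ⁻¹' {cmap K k0 v} = {v} := by
  ext x
  simp only [Set.mem_preimage, Set.mem_singleton_iff]
  constructor
  · intro h
    rw [cmap_not hv] at h
    by_cases hx : x ∈ K
    · rw [cmap_mem hx] at h
      have := congrArg Subtype.val h
      simp only at this
      exact absurd (this ▸ hk) hv
    · rw [cmap_not hx] at h
      exact congrArg Subtype.val h
  · rintro rfl; rfl

theorem cmap_fiber_mem {K : Set V} {k0 : V} (hk : k0 ∈ K) :
    cmap K k0 ⁻¹' {cmap K k0 k0} = K := by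
  ext x
  simp only [Set.mem_preimage, Set.mem_singleton_iff]
  constructor
  · intro h
    rw [cmap_mem hk] at h
    by_contra hx
    rw [cmap_not hx] at h
    have := congrArg Subtype.val h
    simp only at this
    exact hx (this ▸ hk)
  · intro hx
    rw [cmap_mem hk, cmap_mem hx]

section transfer

variable [Fintype A]

theorem hyp_comp {V' : Type u} (φ : V → V') (hφ : Function.Surjective φ) (s t : A → V) (k : ℕ)
    (h : Hyp s t k) : Hyp (φ ∘ s) (φ ∘ t) k := by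
  intro U hU hUc
  have h1 : (φ ⁻¹' U).Nonempty := hU.preimage hφ
  have h2 : (φ ⁻¹' U)ᶜ.Nonempty := by
    rw [← Set.preimage_compl]; exact hUc.preimage hφ
  have hT : ∀ X : Set V', Thick (φ ∘ s) (φ ∘ t) X → Thick s t (φ ⁻¹' X) := by
    rintro X ⟨W, hW, hWX, hS⟩
    exact ⟨φ ⁻¹' W, hW.preimage hφ, Set.preimage_mono hWX, hS⟩
  obtain ⟨ha, hb, hc⟩ := h _ h1 h2
  refine ⟨ha, hb, fun h3 h4 => hc (hT _ h3) ?_⟩
  rw [← Set.preimage_compl]
  exact hT _ h4

theorem hypN_comp {V' : Type u} (φ : V → V') (hφ : Function.Surjective φ) (s t : A → V)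
    (N : Set V) (k : ℕ)
    (h : HypN s t N k) : HypN (φ ∘ s) (φ ∘ t) (φ '' N) k := by
  intro U hU hUc
  have h1 : (φ ⁻¹' U).Nonempty := hU.preimage hφ
  have h2 : (φ ⁻¹' U)ᶜ.Nonempty := by
    rw [← Set.preimage_compl]; exact hUc.preimage hφ
  obtain ⟨ha, hb⟩ := h _ h1 h2
  refine ⟨ha, fun hN => hb ?_⟩
  rcases hN with ⟨⟨n, ⟨m, hm, rfl⟩, hn⟩, ⟨n', ⟨m', hm', rfl⟩, hn'⟩⟩
  exact ⟨⟨m, hm, hn⟩, ⟨m', hm', hn'⟩⟩

theorem hd_comp {V' : Type u} (φ : V → V') (s t : A → V) (O : A → Bool) (a : A) :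
    hd (φ ∘ s) (φ ∘ t) O a = φ (hd s t O a) := by
  unfold hd; cases O a <;> rfl

theorem tl_comp {V' : Type u} (φ : V → V') (s t : A → V) (O : A → Bool) (a : A) :
    tl (φ ∘ s) (φ ∘ t) O a = φ (tl s t O a) := by
  unfold tl; cases O a <;> rfl

theorem cr_comp {V' : Type u} (φ : V → V') (s t : A → V) (U : Set V') (a : A) :
    Cr (φ ∘ s) (φ ∘ t) U a ↔ Cr s t (φ ⁻¹' U) a := Iff.rfl

/-- The statement proved by induction. -/
def MainStmt (k : ℕ) (s t : A → V) : Prop :=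
  Hyp s t k → ∀ R : Option (V × A), RootOK s t R → ∃ O, Good s t k O ∧ PatOK s t O R

theorem good_of_comp {V' : Type u} (φ : V → V') (s t : A → V) (k : ℕ) (O : A → Bool)
    (h : Good (φ ∘ s) (φ ∘ t) k O) (U : Set V')
    (hU : U.Nonempty) (hUc : Uᶜ.Nonempty) : GoodOn s t k O (φ ⁻¹' U) := by
  have := h U hU hUc
  unfold GoodOn at this ⊢
  rw [inn_comp] at this
  exact this

theorem good_sat {K : Set V} {k0 : V} (hk0 : k0 ∈ K) (s t : A → V) (k : ℕ) (O : A → Bool)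
    (h : Good (cmap K k0 ∘ s) (cmap K k0 ∘ t) k O) (U : Set V)
    (hU : U.Nonempty) (hUc : Uᶜ.Nonempty) (hs : Sat K U) : GoodOn s t k O U := by
  have key := preimage_sat hk0 hs
  rw [← key]
  apply good_of_comp _ s t k O h
  · obtain ⟨x, hx⟩ := hU
    refine ⟨cmap K k0 x, ?_⟩
    rw [← key] at hx; exact hx
  · obtain ⟨x, hx⟩ := hUc
    refine ⟨cmap K k0 x, ?_⟩
    rw [← key] at hx; exact hx

theorem contract_use [Fintype V] (k : ℕ) (s t : A → V)
    (IH : ∀ (V' : Type u) [Fintype V'], Fintype.card V' < Fintype.card V →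
      ∀ s' t' : A → V', MainStmt k s' t')
    (hyp : Hyp s t k) (K : Set V) (k0 x0 : V) (hk0 : k0 ∈ K) (hx0 : x0 ∈ K) (hne : x0 ≠ k0)
    (R : Option (V × A)) (hR : RootOK s t R) (hRK : ∀ v a, R = some (v, a) → v ∉ K) :
    ∃ O : A → Bool, (∀ U : Set V, U.Nonempty → Uᶜ.Nonempty → Sat K U → GoodOn s t k O U) ∧
      PatOK s t O R := by
  have h1 := IH (CV K k0) (cmap_card hx0 hne) (cmap K k0 ∘ s) (cmap K k0 ∘ t)
    (hyp_comp _ (cmap_surj hk0) s t k hyp) (R.map fun p => (cmap K k0 p.1, p.2)) (by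
      intro v a hva
      rw [Option.map_eq_some_iff] at hva
      obtain ⟨⟨v', a'⟩, hR', he⟩ := hva
      simp only [Prod.mk.injEq] at he
      obtain ⟨rfl, rfl⟩ := he
      have h2 := hR v' a' hR'
      have h3 := hRK v' a' hR'
      rw [dd_comp, cr_comp, cmap_fiber_not hk0 h3]
      exact h2)
  obtain ⟨O, hG, hP⟩ := h1
  refine ⟨O, fun U hU hUc hs => good_sat hk0 s t k O hG U hU hUc hs, ?_⟩
  intro v a hva
  have h3 := hRK v a hva
  obtain ⟨h4, h5⟩ := hP (cmap K k0 v) a (by rw [hva]; rfl)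
  have inj : ∀ x, cmap K k0 x = cmap K k0 v → x = v := by
    intro x hx
    have : x ∈ cmap K k0 ⁻¹' {cmap K k0 v} := hx
    rw [cmap_fiber_not hk0 h3] at this
    exact this
  refine ⟨inj _ ((hd_comp _ s t O _).symm.trans h4), fun b hb hc => inj _ ?_⟩
  refine (tl_comp _ s t O _).symm.trans (h5 b hb ?_)
  rw [cr_comp, cmap_fiber_not hk0 h3]
  exact hc

theorem contract_root [Fintype V] (k : ℕ) (s t : A → V)
    (IH : ∀ (V' : Type u) [Fintype V'], Fintype.card V' < Fintype.card V →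
      ∀ s' t' : A → V', MainStmt k s' t')
    (hyp : Hyp s t k) (K : Set V) (k0 x0 : V) (hk0 : k0 ∈ K) (hx0 : x0 ∈ K) (hne : x0 ≠ k0)
    (hK : dd s t K = 3) (a0 : A) (ha0 : Cr s t K a0) :
    ∃ O : A → Bool, (∀ U : Set V, U.Nonempty → Uᶜ.Nonempty → Sat K U → GoodOn s t k O U) ∧
      hd s t O a0 ∈ K ∧ ∀ b, b ≠ a0 → Cr s t K b → tl s t O b ∈ K := by
  have h1 := IH (CV K k0) (cmap_card hx0 hne) (cmap K k0 ∘ s) (cmap K k0 ∘ t)
    (hyp_comp _ (cmap_surj hk0) s t k hyp) (some (cmap K k0 k0, a0)) (by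
      intro v a hva
      simp only [Option.some.injEq, Prod.mk.injEq] at hva
      obtain ⟨rfl, rfl⟩ := hva
      rw [dd_comp, cr_comp, cmap_fiber_mem hk0]
      exact ⟨hK, ha0⟩)
  obtain ⟨O, hG, hP⟩ := h1
  refine ⟨O, fun U hU hUc hs => good_sat hk0 s t k O hG U hU hUc hs, ?_⟩
  obtain ⟨h4, h5⟩ := hP (cmap K k0 k0) a0 rfl
  have inj : ∀ x, cmap K k0 x = cmap K k0 k0 → x ∈ K := by
    intro x hx
    have : x ∈ cmap K k0 ⁻¹' {cmap K k0 k0} := hx
    rw [cmap_fiber_mem hk0] at this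
    exact this
  refine ⟨inj _ ((hd_comp _ s t O _).symm.trans h4), fun b hb hc => inj _ ?_⟩
  refine (tl_comp _ s t O _).symm.trans (h5 b hb ?_)
  rw [cr_comp, cmap_fiber_mem hk0]
  exact hc

/-! ### transfer of pairings -/

/-- number of arcs which are not loops -/
noncomputable def nl (s t : A → V) : ℕ := ∑ a, if s a = t a then 0 else 1

theorem nl_comp {V' : Type u} (φ : V → V') (s t : A → V) : nl (φ ∘ s) (φ ∘ t) ≤ nl s t := by
  unfold nl
  refine Finset.sum_le_sum fun a _ => ?_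
  by_cases h : s a = t a
  · rw [if_pos h, if_pos]
    simp only [Function.comp, h]
  · rw [if_neg h]
    split_ifs <;> omega

/-- measure for the pairing theorem -/
noncomputable def mm [Fintype V] (s t : A → V) : ℕ := Fintype.card V + nl s t

theorem contractM [Fintype V] (k : ℕ) (s t : A → V) (N : Set V)
    (IH : ∀ (V' : Type u) [Fintype V'] (s' t' : A → V') (N' : Set V'), mm s' t' < mm s t →
      HypN s' t' N' k → ∃ μ : V' → V', Pairing s' t' N' k μ)
    (hyp : HypN s t N k) (K : Set V) (k0 x0 : V) (hk0 : k0 ∈ K) (hx0 : x0 ∈ K) (hne : x0 ≠ k0) :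
    ∃ μ : V → V, (∀ u, μ (μ u) = u) ∧ (∀ u, u ∈ K → u ≠ k0 → μ u = u) ∧
      (∀ u, u ∉ K → (μ u ≠ u ↔ Odd (dd s t {u}))) ∧
      (μ k0 ≠ k0 ↔ Odd (dd s t K)) ∧
      (∀ U : Set V, U.Nonempty → Uᶜ.Nonempty → Sat K U → BdOn s t N k μ U) := by
  have hlt : mm (cmap K k0 ∘ s) (cmap K k0 ∘ t) < mm s t := by
    unfold mm
    have h1 := cmap_card (K := K) hx0 hne
    have h2 := nl_comp (cmap K k0) s t
    omega
  obtain ⟨ν, hν⟩ := IH (CV K k0) (cmap K k0 ∘ s) (cmap K k0 ∘ t) (cmap K k0 '' N) hlt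
    (hypN_comp _ (cmap_surj hk0) s t N k hyp)
  -- pull back
  let μ : V → V := fun x => if h : (x ∉ K ∨ x = k0) then (ν ⟨x, h⟩).1 else x
  have hμ1 : ∀ y : CV K k0, μ y.1 = (ν y).1 := by
    intro y
    simp only [μ]
    rw [dif_pos y.2]
  have hμ2 : ∀ x, ¬ (x ∉ K ∨ x = k0) → μ x = x := by
    intro x hx
    simp only [μ]
    rw [dif_neg hx]
  have hinv : ∀ u, μ (μ u) = u := by
    intro u
    by_cases hu : u ∉ K ∨ u = k0
    · have := hμ1 ⟨u, hu⟩
      simp only at this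
      rw [this, hμ1, hν.invol]
    · rw [hμ2 u hu, hμ2 u hu]
  refine ⟨μ, hinv, ?_, ?_, ?_, ?_⟩
  · intro u hu hne'
    exact hμ2 u (by push Not; exact ⟨hu, hne'⟩)
  · intro u hu
    have h1 := hμ1 ⟨u, Or.inl hu⟩
    have h2 := hν.odd ⟨u, Or.inl hu⟩
    simp only at h1
    rw [dd_comp, ← cmap_not hu, cmap_fiber_not hk0 hu] at h2
    rw [← h2, h1]
    rw [cmap_not hu]
    constructor
    · intro h h'
      exact h (congrArg Subtype.val h')
    · intro h h'
      exact h (Subtype.ext h')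
  · have h1 := hμ1 ⟨k0, Or.inr rfl⟩
    have h2 := hν.odd ⟨k0, Or.inr rfl⟩
    simp only at h1
    rw [dd_comp, ← cmap_mem hk0, cmap_fiber_mem hk0] at h2
    rw [← h2, h1, cmap_mem hk0]
    constructor
    · intro h h'
      exact h (congrArg Subtype.val h')
    · intro h h'
      exact h (Subtype.ext h')
  · intro U hU hUc hs
    have key := preimage_sat hk0 hs
    have h1 : ({y | y.1 ∈ U} : Set (CV K k0)).Nonempty := by
      obtain ⟨x, hx⟩ := hU
      refine ⟨cmap K k0 x, ?_⟩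
      rw [← key] at hx; exact hx
    have h2 : ({y | y.1 ∈ U} : Set (CV K k0))ᶜ.Nonempty := by
      obtain ⟨x, hx⟩ := hUc
      refine ⟨cmap K k0 x, ?_⟩
      rw [← key] at hx; exact hx
    have h3 := hν.bd _ h1 h2
    have h4 : dM μ U = dM ν {y | y.1 ∈ U} := by
      unfold dM
      have e1 : (∑ y : CV K k0, if (y ∈ ({y | y.1 ∈ U} : Set (CV K k0)) ∧
          ν y ∉ ({y | y.1 ∈ U} : Set (CV K k0))) then 1 else 0) =
          ∑ y : CV K k0, (fun u : V => if (u ∈ U ∧ μ u ∉ U) then 1 else 0) y.1 := by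
        refine Finset.sum_congr rfl fun y _ => ?_
        have : μ y.1 = (ν y).1 := hμ1 y
        simp only [this]
        rfl
      rw [e1, ← Finset.subtype_univ]
      refine Eq.trans ?_ (Finset.sum_subtype_eq_sum_filter (s := Finset.univ)
        (p := fun x => x ∉ K ∨ x = k0) (fun u : V => if (u ∈ U ∧ μ u ∉ U) then 1 else 0)).symm
      symm
      apply Finset.sum_filter_of_ne
      intro x _ hx
      by_contra hc
      apply hx
      rw [if_neg]
      rw [hμ2 x hc]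
      exact fun h => h.2 h.1
    unfold BdOn at h3 ⊢
    rw [dd_comp, key, ← h4] at h3
    refine ⟨h3.1, fun hN => h3.2 ?_⟩
    obtain ⟨⟨n, hn, hn1⟩, ⟨m, hm, hm1⟩⟩ := hN
    refine ⟨⟨cmap K k0 n, ⟨n, hn, rfl⟩, ?_⟩, ⟨cmap K k0 m, ⟨m, hm, rfl⟩, ?_⟩⟩
    · rw [← key] at hn1; exact hn1
    · rw [← key] at hm1; exact hm1

end transfer

end Pool.Agent.DJ9e
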