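import Mathlib

/-!
Definitions for the problem on two disjoint k-dijoins (MP_9e7d46_co).

A digraph is given by `s t : A → V` (tail and head of every arc; loops and parallel arcs are
allowed).  `dd` counts the arcs crossing a vertex set in the underlying undirected graph,
an orientation of the underlying graph is a map `O : A → Bool` (`true` keeps the arc, `false`
reverses it), `inn` counts the arcs entering a set under such an orientation.
-/

set_option autoImplicit false
set_option linter.unusedSectionVars false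

namespace Pool.Agent.DJ9e

open Classical

universe u v

variable {V : Type u} {A : Type v}

/-- number of arcs crossing `U` (in either direction). -/
noncomputable def dd [Fintype A] (s t : A → V) (U : Set V) : ℕ :=
  ∑ a, if (s a ∈ U ↔ t a ∈ U) then 0 else 1

/-- the arc `a` crosses `U`. -/
def Cr (s t : A → V) (U : Set V) (a : A) : Prop := ¬ (s a ∈ U ↔ t a ∈ U)

/-- head of `a` in the orientation `O`. -/
def hd (s t : A → V) (O : A → Bool) (a : A) : V := bif O a then t a else s a

/-- tail of `a` in the orientation `O`. -/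
def tl (s t : A → V) (O : A → Bool) (a : A) : V := bif O a then s a else t a

/-- number of arcs entering `U` in the orientation `O`. -/
noncomputable def inn [Fintype A] (s t : A → V) (O : A → Bool) (U : Set V) : ℕ :=
  ∑ a, if (hd s t O a ∈ U ∧ tl s t O a ∉ U) then 1 else 0

/-- `U` or its complement is the shore of a directed cut (or trivial). -/
def Sh (s t : A → V) (U : Set V) : Prop :=
  (∀ a, t a ∈ U → s a ∈ U) ∨ (∀ a, s a ∈ U → t a ∈ U)

/-- `X` contains a nonempty set which is a shore. -/
def Thick (s t : A → V) (X : Set V) : Prop := ∃ W : Set V, W.Nonempty ∧ W ⊆ X ∧ Sh s t W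

/-- The hypothesis carried by the induction. -/
def Hyp [Fintype A] (s t : A → V) (k : ℕ) : Prop :=
  ∀ U : Set V, U.Nonempty → Uᶜ.Nonempty →
    2 ≤ dd s t U ∧ (Sh s t U → 2 * k ≤ dd s t U) ∧
      (Thick s t U → Thick s t Uᶜ → dd s t U ≤ 3 ∨ 2 * k ≤ dd s t U)

/-- The orientation `O` is good on the set `U`. -/
def GoodOn [Fintype A] (s t : A → V) (k : ℕ) (O : A → Bool) (U : Set V) : Prop :=
  1 ≤ inn s t O U ∧ (Sh s t U → k ≤ inn s t O U)

/-- The orientation `O` is good. -/
def Good [Fintype A] (s t : A → V) (k : ℕ) (O : A → Bool) : Prop :=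
  ∀ U : Set V, U.Nonempty → Uᶜ.Nonempty → GoodOn s t k O U

/-- `U` does not separate points of `K`. -/
def Sat (K U : Set V) : Prop := K ⊆ U ∨ K ⊆ Uᶜ

/-- `R` is an admissible root: a vertex `v` with exactly three arcs crossing `{v}`,
and one of these arcs. -/
def RootOK [Fintype A] (s t : A → V) (R : Option (V × A)) : Prop :=
  ∀ v a, R = some (v, a) → dd s t {v} = 3 ∧ Cr s t {v} a

/-- the orientation follows the pattern prescribed at the root: the chosen arc enters,
the other arcs at the root leave. -/
def PatOK (s t : A → V) (O : A → Bool) (R : Option (V × A)) : Prop :=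
  ∀ v a, R = some (v, a) → hd s t O a = v ∧ ∀ b, b ≠ a → Cr s t {v} b → tl s t O b = v

/-- the arc `a` joins `x` and `y`. -/
def Jn (s t : A → V) (a : A) (x y : V) : Prop := (s a = x ∧ t a = y) ∨ (s a = y ∧ t a = x)

/-- `U` separates two vertices of `N`. -/
def NSep (N U : Set V) : Prop := (∃ n ∈ N, n ∈ U) ∧ (∃ n ∈ N, n ∉ U)

/-- The hypothesis for the pairing theorem. -/
def HypN [Fintype A] (s t : A → V) (N : Set V) (k : ℕ) : Prop :=
  ∀ U : Set V, U.Nonempty → Uᶜ.Nonempty →
    2 ≤ dd s t U ∧ (NSep N U → 2 * k ≤ dd s t U)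

/-- number of pairs `{u, μ u}` separated by `U`. -/
noncomputable def dM [Fintype V] (μ : V → V) (U : Set V) : ℕ :=
  ∑ u, if (u ∈ U ∧ μ u ∉ U) then 1 else 0

/-- bound for the pairing on the set `U`. -/
def BdOn [Fintype V] [Fintype A] (s t : A → V) (N : Set V) (k : ℕ) (μ : V → V) (U : Set V) :
    Prop :=
  dM μ U + 2 ≤ dd s t U ∧ (NSep N U → dM μ U + 2 * k ≤ dd s t U)

/-- `μ` is a feasible pairing of the odd vertices. -/
structure Pairing [Fintype V] [Fintype A] (s t : A → V) (N : Set V) (k : ℕ) (μ : V → V) :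
    Prop where
  invol : ∀ u, μ (μ u) = u
  odd : ∀ u, μ u ≠ u ↔ Odd (dd s t {u})
  bd : ∀ U : Set V, U.Nonempty → Uᶜ.Nonempty → BdOn s t N k μ U

/-- sum of `x` over the set `U`. -/
noncomputable def xs [Fintype V] (x : V → ℤ) (U : Set V) : ℤ := ∑ u, if u ∈ U then x u else 0

/-- The graph obtained by splitting off the two arcs `a`, `b` at `z`; `u`, `v` are their
other ends: `a` becomes an arc from `u` to `v` and `b` becomes a loop at `z`. -/
noncomputable def spS (s : A → V) (a b : A) (z u : V) : A → V :=
  fun c => if c = b then z else if c = a then u else s c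

/-- see `spS`. -/
noncomputable def spT (t : A → V) (a b : A) (z v : V) : A → V :=
  fun c => if c = b then z else if c = a then v else t c

/-! ### Basic facts -/

section basic

variable [Fintype A] (s t : A → V)

theorem dd_compl (U : Set V) : dd s t Uᶜ = dd s t U := by
  unfold dd
  refine Finset.sum_congr rfl fun a _ => ?_
  by_cases h1 : s a ∈ U <;> by_cases h2 : t a ∈ U <;> simp [h1, h2]

theorem inn_add_compl (O : A → Bool) (U : Set V) :
    inn s t O U + inn s t O Uᶜ = dd s t U := by
  unfold inn dd
  rw [← Finset.sum_add_distrib]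
  refine Finset.sum_congr rfl fun a _ => ?_
  unfold hd tl
  by_cases h1 : s a ∈ U <;> by_cases h2 : t a ∈ U <;> cases O a <;> simp [h1, h2]

theorem Sh_compl (U : Set V) : Sh s t Uᶜ ↔ Sh s t U := by
  unfold Sh
  constructor
  · rintro (h | h)
    · exact Or.inr fun a ha => by
        by_contra hc
        exact h a hc ha
    · exact Or.inl fun a ha => by
        by_contra hc
        exact h a hc ha
  · rintro (h | h)
    · exact Or.inr fun a ha hc => ha (h a hc)
    · exact Or.inl fun a ha hc => ha (h a hc)

theorem Sat_compl (K U : Set V) : Sat K Uᶜ ↔ Sat K U := by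
  unfold Sat
  rw [compl_compl]
  exact or_comm

theorem inn_flip (O : A → Bool) (U : Set V) :
    inn s t (fun a => !(O a)) U = inn s t O Uᶜ := by
  unfold inn
  refine Finset.sum_congr rfl fun a _ => ?_
  unfold hd tl
  by_cases h1 : s a ∈ U <;> by_cases h2 : t a ∈ U <;> cases h : O a <;> simp [h1, h2, h]

theorem dd_comp {V' : Type u} (φ : V → V') (U : Set V') :
    dd (φ ∘ s) (φ ∘ t) U = dd s t (φ ⁻¹' U) := rfl

theorem inn_comp {V' : Type u} (φ : V → V') (O : A → Bool) (U : Set V') :
    inn (φ ∘ s) (φ ∘ t) O U = inn s t O (φ ⁻¹' U) := by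
  unfold inn
  refine Finset.sum_congr rfl fun a _ => ?_
  unfold hd tl
  cases O a <;> rfl

theorem Sh_comp {V' : Type u} (φ : V → V') (U : Set V') :
    Sh (φ ∘ s) (φ ∘ t) U ↔ Sh s t (φ ⁻¹' U) := Iff.rfl

theorem Jn_symm {a : A} {x y : V} : Jn s t a x y ↔ Jn s t a y x := by
  unfold Jn; exact or_comm

end basic

end Pool.Agent.DJ9e
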