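import Pool.Agent.Lib_MP_9e7d46_co.Defs

/-!
Pieces P4 and P5: extending and gluing orientations.
-/

set_option autoImplicit false
set_option linter.unusedSectionVars false

namespace Pool.Agent.DJ9e

open Classical

universe u v

variable {V : Type u} {A : Type v}

namespace Ext

variable [Fintype A] (s t : A → V)

theorem inn_pos (O : A → Bool) (U : Set V) (a : A) (h1 : hd s t O a ∈ U) (h2 : tl s t O a ∉ U) :
    1 ≤ inn s t O U := by
  unfold inn
  have h := Finset.single_le_sum (f := fun a => if (hd s t O a ∈ U ∧ tl s t O a ∉ U) then 1 else 0)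
    (fun i _ => Nat.zero_le _) (Finset.mem_univ a)
  simpa [h1, h2] using h

theorem exists_of_inn_pos (O : A → Bool) (U : Set V) (h : 1 ≤ inn s t O U) :
    ∃ a, hd s t O a ∈ U ∧ tl s t O a ∉ U := by
  by_contra hc
  push Not at hc
  have : inn s t O U = 0 := by
    unfold inn
    refine Finset.sum_eq_zero fun a _ => ?_
    rw [if_neg]
    rintro ⟨h1, h2⟩
    exact h2 (hc a h1)
  omega

/-- direct the arc `a` away from `x`. -/
noncomputable def away (x : V) (a : A) : Bool := decide (s a = x)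

theorem away_hd (O : A → Bool) (x y : V) (a : A) (ha : Jn s t a x y) (hO : O a = away s x a) :
    hd s t O a = y ∧ tl s t O a = x := by
  unfold hd tl
  rw [hO]
  unfold away
  rcases ha with ⟨h1, h2⟩ | ⟨h1, h2⟩
  · simp [h1, h2]
  · by_cases h : s a = x
    · simp only [h, decide_true, cond_true, and_true]
      rw [h2, ← h, h1]
    · simp only [h, decide_false, cond_false]
      exact ⟨h1, h2⟩

theorem jn_ends (O : A → Bool) (x y : V) (a : A) (ha : Jn s t a x y) :
    (hd s t O a = x ∧ tl s t O a = y) ∨ (hd s t O a = y ∧ tl s t O a = x) := by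
  unfold hd tl
  rcases ha with ⟨h1, h2⟩ | ⟨h1, h2⟩ <;> cases O a <;> simp [h1, h2]

/-- changing the orientation on arcs joining `x` and `y` does not change `inn` for sets not
separating them -/
theorem inn_congr_jn (O O' : A → Bool) (x y : V) (h : ∀ b, ¬ Jn s t b x y → O b = O' b)
    (U : Set V) (hU : x ∈ U ↔ y ∈ U) : inn s t O U = inn s t O' U := by
  unfold inn
  refine Finset.sum_congr rfl fun b _ => ?_
  by_cases hb : Jn s t b x y
  · have h1 : ∀ O : A → Bool, ¬ (hd s t O b ∈ U ∧ tl s t O b ∉ U) := by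
      rintro O ⟨h1, h2⟩
      rcases jn_ends s t O x y b hb with ⟨e1, e2⟩ | ⟨e1, e2⟩
      · rw [e1] at h1; rw [e2] at h2; exact h2 (hU.mp h1)
      · rw [e1] at h1; rw [e2] at h2; exact h2 (hU.mpr h1)
    rw [if_neg (h1 O), if_neg (h1 O')]
  · have e := h b hb
    unfold hd tl
    rw [e]

/-- arcs between two sets -/
noncomputable def eb (P Q : Set V) : ℕ :=
  ∑ a, if (s a ∈ P ∧ t a ∈ Q) ∨ (s a ∈ Q ∧ t a ∈ P) then 1 else 0

theorem inn_union (O : A → Bool) (P Q : Set V) (hPQ : Disjoint P Q) :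
    inn s t O P + inn s t O Q = inn s t O (P ∪ Q) + eb s t P Q := by
  unfold inn eb
  rw [← Finset.sum_add_distrib, ← Finset.sum_add_distrib]
  refine Finset.sum_congr rfl fun a _ => ?_
  have hd1 : s a ∈ P → s a ∉ Q := fun h1 h2 => Set.disjoint_left.mp hPQ h1 h2
  have hd2 : t a ∈ P → t a ∉ Q := fun h1 h2 => Set.disjoint_left.mp hPQ h1 h2
  unfold hd tl
  by_cases h1 : s a ∈ P <;> by_cases h2 : t a ∈ P <;> by_cases h3 : s a ∈ Q <;>
    by_cases h4 : t a ∈ Q <;> cases O a <;> simp_all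

theorem two_le_eb (P Q : Set V) (a b : A) (hab : a ≠ b)
    (ha : (s a ∈ P ∧ t a ∈ Q) ∨ (s a ∈ Q ∧ t a ∈ P))
    (hb : (s b ∈ P ∧ t b ∈ Q) ∨ (s b ∈ Q ∧ t b ∈ P)) : 2 ≤ eb s t P Q := by
  unfold eb
  have h : ∑ c ∈ ({a, b} : Finset A),
      (if (s c ∈ P ∧ t c ∈ Q) ∨ (s c ∈ Q ∧ t c ∈ P) then 1 else 0) ≤
      ∑ c, if (s c ∈ P ∧ t c ∈ Q) ∨ (s c ∈ Q ∧ t c ∈ P) then 1 else 0 :=
    Finset.sum_le_sum_of_subset (Finset.subset_univ _)
  rw [Finset.sum_pair hab, if_pos ha, if_pos hb] at h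
  exact h

theorem Sh_part (P Q : Set V) (hPQ : Disjoint P Q) (he : eb s t P Q ≤ 1)
    (h : Sh s t (P ∪ Q)) : Sh s t P ∨ Sh s t Q := by
  by_contra hc
  push Not at hc
  obtain ⟨h1, h2⟩ := hc
  unfold Sh at h1 h2
  push Not at h1 h2
  obtain ⟨⟨a, ha1, ha2⟩, ⟨a', ha1', ha2'⟩⟩ := h1
  obtain ⟨⟨b, hb1, hb2⟩, ⟨b', hb1', hb2'⟩⟩ := h2
  have hdis : ∀ z, z ∈ P → z ∉ Q := fun z h1 h2 => Set.disjoint_left.mp hPQ h1 h2
  rcases h with h | h
  · have e1 : s a ∈ Q := (h a (Or.inl ha1)).resolve_left ha2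
    have e2 : s b ∈ P := (h b (Or.inr hb1)).resolve_right hb2
    have hne : a ≠ b := by
      rintro rfl
      exact hdis _ ha1 hb1
    have := two_le_eb s t P Q a b hne (Or.inr ⟨e1, ha1⟩) (Or.inl ⟨e2, hb1⟩)
    omega
  · have e1 : t a' ∈ Q := (h a' (Or.inl ha1')).resolve_left ha2'
    have e2 : t b' ∈ P := (h b' (Or.inr hb1')).resolve_right hb2'
    have hne : a' ≠ b' := by
      rintro rfl
      exact hdis _ ha1' hb1'
    have := two_le_eb s t P Q a' b' hne (Or.inl ⟨ha1', e1⟩) (Or.inr ⟨hb1', e2⟩)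
    omega

theorem two_part (k : ℕ) (O : A → Bool) (P Q : Set V) (hPQ : Disjoint P Q)
    (he : eb s t P Q ≤ 1) (h1 : GoodOn s t k O P) (h2 : GoodOn s t k O Q) :
    GoodOn s t k O (P ∪ Q) := by
  have h := inn_union s t O P Q hPQ
  obtain ⟨h1a, h1b⟩ := h1
  obtain ⟨h2a, h2b⟩ := h2
  refine ⟨by omega, fun hs => ?_⟩
  rcases Sh_part s t P Q hPQ he hs with h3 | h3
  · have := h1b h3
    omega
  · have := h2b h3
    omega

theorem GoodOn_flip (k : ℕ) (O : A → Bool) (P : Set V) :
    GoodOn s t k (fun a => !(O a)) P ↔ GoodOn s t k O Pᶜ := by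
  unfold GoodOn
  rw [inn_flip, Sh_compl]

theorem two_part' (k : ℕ) (O : A → Bool) (P Q : Set V) (hPQ : Disjoint P Q)
    (he : eb s t P Q ≤ 1) (h1 : GoodOn s t k O Pᶜ) (h2 : GoodOn s t k O Qᶜ) :
    GoodOn s t k O (P ∪ Q)ᶜ := by
  rw [← GoodOn_flip] at *
  exact two_part s t k _ P Q hPQ he h1 h2

end Ext

open Ext

/-- P4 (undoing the contraction of a pair of adjacent vertices). -/
theorem pair_ext [Fintype V] [Fintype A] (s t : A → V)
    (h2 : ∀ U : Set V, U.Nonempty → Uᶜ.Nonempty → 2 ≤ dd s t U)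
    (x y : V) (hxy : x ≠ y) (a : A) (ha : Jn s t a x y) (O₀ : A → Bool)
    (hO : ∀ U : Set V, U.Nonempty → Uᶜ.Nonempty → (x ∈ U ↔ y ∈ U) → 1 ≤ inn s t O₀ U) :
    ∃ O : A → Bool, (∀ b, ¬ Jn s t b x y → O b = O₀ b) ∧
      ∀ U : Set V, U.Nonempty → Uᶜ.Nonempty → 1 ≤ inn s t O U := by
  by_cases hb : ∃ b, b ≠ a ∧ Jn s t b x y
  · obtain ⟨b, hba, hb⟩ := hb
    set O : A → Bool := fun c => if c = a then away s x a else if c = b then away s y b else O₀ c
      with hOd
    have hk : ∀ c, ¬ Jn s t c x y → O c = O₀ c := by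
      intro c hc
      have h1 : c ≠ a := by rintro rfl; exact hc ha
      have h3 : c ≠ b := by rintro rfl; exact hc hb
      simp only [hOd, if_neg h1, if_neg h3]
    refine ⟨O, hk, fun U hU hUc => ?_⟩
    by_cases hsep : x ∈ U ↔ y ∈ U
    · rw [inn_congr_jn s t O O₀ x y hk U hsep]
      exact hO U hU hUc hsep
    · have hOa : O a = away s x a := by simp only [hOd, if_true]
      have hOb : O b = away s y b := by simp only [hOd, if_neg hba, if_true]
      obtain ⟨e1, e2⟩ := away_hd s t O x y a ha hOa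
      obtain ⟨e3, e4⟩ := away_hd s t O y x b ((Jn_symm s t).mp hb) hOb
      by_cases hx : x ∈ U
      · have hy : y ∉ U := fun h => hsep ⟨fun _ => h, fun _ => hx⟩
        exact inn_pos s t O U b (by rw [e3]; exact hx) (by rw [e4]; exact hy)
      · have hy : y ∈ U := by
          by_contra h
          exact hsep ⟨fun h' => absurd h' hx, fun h' => absurd h' h⟩
        exact inn_pos s t O U a (by rw [e1]; exact hy) (by rw [e2]; exact hx)
  · push Not at hb
    set O1 : A → Bool := fun c => if c = a then away s x a else O₀ c with hO1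
    set O2 : A → Bool := fun c => if c = a then away s y a else O₀ c with hO2
    have hk1 : ∀ c, ¬ Jn s t c x y → O1 c = O₀ c := by
      intro c hc
      have h1 : c ≠ a := by rintro rfl; exact hc ha
      simp only [hO1, if_neg h1]
    have hk2 : ∀ c, ¬ Jn s t c x y → O2 c = O₀ c := by
      intro c hc
      have h1 : c ≠ a := by rintro rfl; exact hc ha
      simp only [hO2, if_neg h1]
    have hO1a : O1 a = away s x a := by simp only [hO1, if_true]
    have hO2a : O2 a = away s y a := by simp only [hO2, if_true]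
    obtain ⟨e1, e2⟩ := away_hd s t O1 x y a ha hO1a
    obtain ⟨e3, e4⟩ := away_hd s t O2 y x a ((Jn_symm s t).mp ha) hO2a
    have eo1 : ∀ c, c ≠ a → hd s t O1 c = hd s t O₀ c ∧ tl s t O1 c = tl s t O₀ c := by
      intro c hc
      have : O1 c = O₀ c := by simp only [hO1, if_neg hc]
      unfold hd tl
      rw [this]
      exact ⟨rfl, rfl⟩
    have eo2 : ∀ c, c ≠ a → hd s t O2 c = hd s t O₀ c ∧ tl s t O2 c = tl s t O₀ c := by
      intro c hc
      have : O2 c = O₀ c := by simp only [hO2, if_neg hc]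
      unfold hd tl
      rw [this]
      exact ⟨rfl, rfl⟩
    by_contra hcon
    push Not at hcon
    obtain ⟨U1, hU1, hU1c, hi1⟩ := hcon O1 hk1
    obtain ⟨U2, hU2, hU2c, hi2⟩ := hcon O2 hk2
    have no1 : ∀ c, hd s t O1 c ∈ U1 → tl s t O1 c ∈ U1 := by
      intro c h1
      by_contra h3
      have := inn_pos s t O1 U1 c h1 h3
      omega
    have no2 : ∀ c, hd s t O2 c ∈ U2 → tl s t O2 c ∈ U2 := by
      intro c h1
      by_contra h3
      have := inn_pos s t O2 U2 c h1 h3
      omega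
    have hs1 : ¬ (x ∈ U1 ↔ y ∈ U1) := by
      intro h
      rw [inn_congr_jn s t O1 O₀ x y hk1 U1 h] at hi1
      have := hO U1 hU1 hU1c h
      omega
    have hs2 : ¬ (x ∈ U2 ↔ y ∈ U2) := by
      intro h
      rw [inn_congr_jn s t O2 O₀ x y hk2 U2 h] at hi2
      have := hO U2 hU2 hU2c h
      omega
    have hy1 : y ∉ U1 := by
      intro h
      have h3 := no1 a (by rw [e1]; exact h)
      rw [e2] at h3
      exact hs1 ⟨fun _ => h, fun _ => h3⟩
    have hx1 : x ∈ U1 := by
      by_contra h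
      exact hs1 ⟨fun h' => absurd h' h, fun h' => absurd h' hy1⟩
    have hx2 : x ∉ U2 := by
      intro h
      have h3 := no2 a (by rw [e3]; exact h)
      rw [e4] at h3
      exact hs2 ⟨fun _ => h3, fun _ => h⟩
    have hy2 : y ∈ U2 := by
      by_contra h
      exact hs2 ⟨fun h' => absurd h' hx2, fun h' => absurd h' h⟩
    -- the intersection is empty
    have hcap : ∀ z, z ∈ U1 → z ∉ U2 := by
      intro z hz1 hz2
      have h := hO (U1 ∩ U2) ⟨z, hz1, hz2⟩ ⟨x, fun h => hx2 h.2⟩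
        ⟨fun h => absurd h.2 hx2, fun h => absurd h.1 hy1⟩
      obtain ⟨c, hc1, hc2⟩ := exists_of_inn_pos s t O₀ _ h
      have hca : c ≠ a := by
        rintro rfl
        rcases jn_ends s t O₀ x y c ha with ⟨h3, _⟩ | ⟨h3, _⟩
        · rw [h3] at hc1; exact hx2 hc1.2
        · rw [h3] at hc1; exact hy1 hc1.1
      obtain ⟨f1, f2⟩ := eo1 c hca
      obtain ⟨f3, f4⟩ := eo2 c hca
      apply hc2
      constructor
      · rw [← f2]; apply no1; rw [f1]; exact hc1.1
      · rw [← f4]; apply no2; rw [f3]; exact hc1.2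
    have hcup : ∀ z, z ∈ U1 ∨ z ∈ U2 := by
      intro z
      by_contra hz
      have h := hO (U1 ∪ U2) ⟨x, Or.inl hx1⟩ ⟨z, hz⟩ ⟨fun _ => Or.inr hy2, fun _ => Or.inl hx1⟩
      obtain ⟨c, hc1, hc2⟩ := exists_of_inn_pos s t O₀ _ h
      have hca : c ≠ a := by
        rintro rfl
        rcases jn_ends s t O₀ x y c ha with ⟨_, h3⟩ | ⟨_, h3⟩
        · rw [h3] at hc2; exact hc2 (Or.inr hy2)
        · rw [h3] at hc2; exact hc2 (Or.inl hx1)
      obtain ⟨f1, f2⟩ := eo1 c hca
      obtain ⟨f3, f4⟩ := eo2 c hca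
      apply hc2
      rcases hc1 with h3 | h3
      · left; rw [← f2]; apply no1; rw [f1]; exact h3
      · right; rw [← f4]; apply no2; rw [f3]; exact h3
    have hdd : dd s t U1 ≤ 1 := by
      have h : dd s t U1 ≤ ∑ c, if c = a then 1 else 0 := by
        unfold dd
        refine Finset.sum_le_sum fun c _ => ?_
        by_cases hca : c = a
        · rw [if_pos hca]; split_ifs <;> omega
        · rw [if_neg hca, if_pos]
          obtain ⟨f1, f2⟩ := eo1 c hca
          obtain ⟨f3, f4⟩ := eo2 c hca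
          have g1 := no1 c
          have g2 := no2 c
          rw [f1, f2] at g1
          rw [f3, f4] at g2
          have g3 : tl s t O₀ c ∈ U1 → hd s t O₀ c ∈ U1 := by
            intro h1
            rcases hcup (hd s t O₀ c) with h3 | h3
            · exact h3
            · exact absurd (g2 h3) (hcap _ h1)
          unfold hd tl at g1 g3
          cases h : O₀ c
          · rw [h] at g1 g3
            exact ⟨fun h1 => g1 h1, fun h1 => g3 h1⟩
          · rw [h] at g1 g3
            exact ⟨fun h1 => g3 h1, fun h1 => g1 h1⟩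
      simpa using h
    have := h2 U1 hU1 hU1c
    omega

/-- P5 (gluing two orientations along a cut with at most three arcs). -/
theorem glue_orient [Fintype V] [Fintype A] (s t : A → V) (k : ℕ)
    (X : Set V) (hX : dd s t X ≤ 3) (O₁ O₂ : A → Bool)
    (hag : ∀ a, Cr s t X a → O₁ a = O₂ a)
    (h1 : ∀ U : Set V, U.Nonempty → Uᶜ.Nonempty → Sat Xᶜ U → GoodOn s t k O₁ U)
    (h2 : ∀ U : Set V, U.Nonempty → Uᶜ.Nonempty → Sat X U → GoodOn s t k O₂ U) :
    Good s t k (fun a => if s a ∈ X ∨ t a ∈ X then O₁ a else O₂ a) := by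
  set O : A → Bool := fun a => if s a ∈ X ∨ t a ∈ X then O₁ a else O₂ a with hOd
  have k1 : ∀ U : Set V, Sat Xᶜ U → inn s t O U = inn s t O₁ U := by
    intro U hU
    unfold inn
    refine Finset.sum_congr rfl fun a _ => ?_
    by_cases ha : s a ∈ X ∨ t a ∈ X
    · have e : O a = O₁ a := by simp only [hOd, if_pos ha]
      unfold hd tl
      rw [e]
    · push Not at ha
      obtain ⟨ha1, ha2⟩ := ha
      have hiff : s a ∈ U ↔ t a ∈ U := by
        rcases hU with h | h
        · exact ⟨fun _ => h ha2, fun _ => h ha1⟩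
        · exact ⟨fun h' => absurd h' (h ha1), fun h' => absurd h' (h ha2)⟩
      have h3 : ∀ O : A → Bool, ¬ (hd s t O a ∈ U ∧ tl s t O a ∉ U) := by
        intro O
        unfold hd tl
        cases O a <;> simp [hiff]
      rw [if_neg (h3 O), if_neg (h3 O₁)]
  have k2 : ∀ U : Set V, Sat X U → inn s t O U = inn s t O₂ U := by
    intro U hU
    unfold inn
    refine Finset.sum_congr rfl fun a _ => ?_
    by_cases ha : Cr s t X a
    · have e : O a = O₂ a := by
        simp only [hOd]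
        split_ifs with h
        · exact hag a ha
        · rfl
      unfold hd tl
      rw [e]
    · unfold Cr at ha
      push Not at ha
      by_cases hs : s a ∈ X
      · have ht : t a ∈ X := ha.mp hs
        have hiff : s a ∈ U ↔ t a ∈ U := by
          rcases hU with h | h
          · exact ⟨fun _ => h ht, fun _ => h hs⟩
          · exact ⟨fun h' => absurd h' (h hs), fun h' => absurd h' (h ht)⟩
        have h3 : ∀ O : A → Bool, ¬ (hd s t O a ∈ U ∧ tl s t O a ∉ U) := by
          intro O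
          unfold hd tl
          cases O a <;> simp [hiff]
        rw [if_neg (h3 O), if_neg (h3 O₂)]
      · have ht : t a ∉ X := fun h => hs (ha.mpr h)
        have e : O a = O₂ a := by
          simp only [hOd]
          rw [if_neg]
          push Not
          exact ⟨hs, ht⟩
        unfold hd tl
        rw [e]
  have g1 : ∀ U : Set V, U.Nonempty → Uᶜ.Nonempty → Sat Xᶜ U → GoodOn s t k O U := by
    intro U hU hUc hs
    have := h1 U hU hUc hs
    unfold GoodOn at this ⊢
    rw [k1 U hs]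
    exact this
  have g2 : ∀ U : Set V, U.Nonempty → Uᶜ.Nonempty → Sat X U → GoodOn s t k O U := by
    intro U hU hUc hs
    have := h2 U hU hUc hs
    unfold GoodOn at this ⊢
    rw [k2 U hs]
    exact this
  intro U hU hUc
  by_cases hs1 : Sat Xᶜ U
  · exact g1 U hU hUc hs1
  by_cases hs2 : Sat X U
  · exact g2 U hU hUc hs2
  unfold Sat at hs1 hs2
  push Not at hs1 hs2
  obtain ⟨hs1a, hs1b⟩ := hs1
  obtain ⟨hs2a, hs2b⟩ := hs2
  rw [Set.not_subset] at hs1a hs1b hs2a hs2b
  obtain ⟨zS, hzS1, hzS2⟩ := hs1a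
  obtain ⟨zQ, hzQ1, hzQ2⟩ := hs1b
  obtain ⟨zR, hzR1, hzR2⟩ := hs2a
  obtain ⟨zP, hzP1, hzP2⟩ := hs2b
  have hzQ3 : zQ ∈ U := by by_contra h; exact hzQ2 h
  have hzP3 : zP ∈ U := by by_contra h; exact hzP2 h
  set P : Set V := U ∩ X with hP
  set Q : Set V := U \ X with hQ
  set R : Set V := X \ U with hR
  set S : Set V := (U ∪ X)ᶜ with hS
  have hPQ : P ∪ Q = U := Set.inter_union_sdiff U X
  have hRS : (R ∪ S)ᶜ = U := by
    ext z
    simp only [hR, hS, Set.mem_compl_iff, Set.mem_union, Set.mem_sdiff]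
    tauto
  have dPQ : Disjoint P Q := by
    rw [Set.disjoint_left]
    intro z h1 h2
    exact h2.2 h1.2
  have dRS : Disjoint R S := by
    rw [Set.disjoint_left]
    intro z h1 h2
    exact h2 (Or.inr h1.1)
  have hsum : eb s t P Q + eb s t R S ≤ dd s t X := by
    unfold eb dd
    rw [← Finset.sum_add_distrib]
    refine Finset.sum_le_sum fun a _ => ?_
    simp only [hP, hQ, hR, hS, Set.mem_inter_iff, Set.mem_sdiff, Set.mem_compl_iff, Set.mem_union]
    by_cases h1 : s a ∈ U <;> by_cases h2 : t a ∈ U <;> by_cases h3 : s a ∈ X <;>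
      by_cases h4 : t a ∈ X <;> simp [h1, h2, h3, h4]
  have hP1 : P.Nonempty := ⟨zP, hzP3, hzP1⟩
  have hQ1 : Q.Nonempty := ⟨zQ, hzQ3, hzQ1⟩
  have hR1 : R.Nonempty := ⟨zR, hzR1, hzR2⟩
  have hS1 : S.Nonempty := ⟨zS, fun h => h.elim hzS2 hzS1⟩
  have hP2 : Pᶜ.Nonempty := ⟨zR, fun h => hzR2 h.1⟩
  have hQ2 : Qᶜ.Nonempty := ⟨zR, fun h => hzR2 h.1⟩
  by_cases he : eb s t P Q ≤ 1
  · have a1 : GoodOn s t k O P := g1 P hP1 hP2 (Or.inr fun z hz h => hz h.2)
    have a2 : GoodOn s t k O Q := g2 Q hQ1 hQ2 (Or.inr fun z hz h => h.2 hz)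
    have := two_part s t k O P Q dPQ he a1 a2
    rwa [hPQ] at this
  · have he' : eb s t R S ≤ 1 := by omega
    have a1 : GoodOn s t k O Rᶜ := g1 Rᶜ ⟨zP, fun h => h.2 hzP3⟩ (by rw [compl_compl]; exact hR1)
      (Or.inl fun z hz h => hz h.1)
    have a2 : GoodOn s t k O Sᶜ := g2 Sᶜ ⟨zP, fun h => h (Or.inl hzP3)⟩
      (by rw [compl_compl]; exact hS1) (Or.inl fun z hz h => h (Or.inr hz))
    have := two_part' s t k O R S dRS he' a1 a2
    rwa [hRS] at this

end Pool.Agent.DJ9e
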