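import Pool.Agent.Lib_MP_9e7d46_co.Defs

set_option autoImplicit false
set_option linter.unusedSectionVars false

/-!
# Orientations with prescribed net degrees (Hakimi, via the theorem of Hall)
-/

namespace Pool.Agent.DJ9e

open Classical

universe u v

variable {V : Type u} {A : Type v}

theorem xs_singleton [Fintype V] (x : V → ℤ) (u : V) : xs x {u} = x u := by
  unfold xs
  simp

theorem xs_add_compl [Fintype V] (x : V → ℤ) (U : Set V) :
    xs x U + xs x Uᶜ = xs x Set.univ := by
  unfold xs
  rw [← Finset.sum_add_distrib]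
  refine Finset.sum_congr rfl fun u _ => ?_
  by_cases h : u ∈ U <;> simp [h]

/-- the net degree as a sum over arcs. -/
theorem net_eq [Fintype A] (s t : A → V) (O : A → Bool) (U : Set V) :
    (inn s t O Uᶜ : ℤ) - inn s t O U =
      ∑ a, ((if tl s t O a ∈ U then (1 : ℤ) else 0) - (if hd s t O a ∈ U then 1 else 0)) := by
  unfold inn
  push_cast
  rw [← Finset.sum_sub_distrib]
  refine Finset.sum_congr rfl fun a _ => ?_
  by_cases h1 : hd s t O a ∈ U <;> by_cases h2 : tl s t O a ∈ U <;> simp [h1, h2]

/-- it suffices to know the net degrees of the vertices. -/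
theorem net_of_singletons [Fintype V] [Fintype A] (s t : A → V) (O : A → Bool) (x : V → ℤ)
    (h : ∀ u, (inn s t O {u}ᶜ : ℤ) - inn s t O {u} = x u) (U : Set V) :
    (inn s t O Uᶜ : ℤ) - inn s t O U = xs x U := by
  unfold xs
  have h1 : ∀ u, (if u ∈ U then x u else 0) =
      ∑ a, (if u ∈ U then ((if tl s t O a ∈ ({u} : Set V) then (1 : ℤ) else 0) -
        (if hd s t O a ∈ ({u} : Set V) then 1 else 0)) else 0) := by
    intro u
    by_cases hu : u ∈ U
    · simp only [hu, if_true]
      rw [← h u, net_eq]
      refine Finset.sum_congr rfl fun a _ => ?_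
      congr!
    · simp [hu]
  rw [Finset.sum_congr rfl fun u _ => h1 u, Finset.sum_comm, net_eq]
  refine Finset.sum_congr rfl fun a _ => ?_
  have h2 : ∀ u, (if u ∈ U then ((if tl s t O a ∈ ({u} : Set V) then (1 : ℤ) else 0) -
        (if hd s t O a ∈ ({u} : Set V) then 1 else 0)) else 0) =
      (if u = tl s t O a then (if u ∈ U then (1 : ℤ) else 0) else 0) -
      (if u = hd s t O a then (if u ∈ U then (1 : ℤ) else 0) else 0) := by
    intro u
    by_cases hu : u ∈ U <;> by_cases h3 : u = tl s t O a <;> by_cases h4 : u = hd s t O a <;>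
      simp [hu, h3, h4, eq_comm] <;> simp_all [eq_comm]
  rw [Finset.sum_congr rfl fun u _ => h2 u, Finset.sum_sub_distrib]
  simp

theorem cross_sum [Fintype V] (p q : V) (W : Set V) :
    (∑ u, (if u ∈ W then (if (p ∈ ({u} : Set V) ↔ q ∈ ({u} : Set V)) then 0 else 1) else 0)) =
      if p = q then 0 else (if p ∈ W then 1 else 0) + (if q ∈ W then 1 else 0) := by
  by_cases hpq : p = q
  · subst hpq
    simp
  · rw [if_neg hpq]
    have h2 : ∀ u, (if u ∈ W then (if (p ∈ ({u} : Set V) ↔ q ∈ ({u} : Set V)) then 0 else 1)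
        else 0) = (if u = p then (if u ∈ W then 1 else 0) else 0) +
        (if u = q then (if u ∈ W then 1 else 0) else 0) := by
      intro u
      by_cases hu : u ∈ W
      · by_cases h3 : u = p
        · subst h3
          simp [hu, hpq, Ne.symm hpq]
        · by_cases h4 : u = q
          · subst h4
            simp [hu, hpq, Ne.symm hpq]
          · simp [hu, h3, h4, Ne.symm h3, Ne.symm h4]
      · simp [hu]
    rw [Finset.sum_congr rfl fun u _ => h2 u, Finset.sum_add_distrib]
    simp

/-- the sum of the degrees over the vertices of `W`. -/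
theorem deg_sum [Fintype V] [Fintype A] (s t : A → V) (W : Set V) :
    (∑ u, (if u ∈ W then dd s t {u} else 0)) =
      ∑ a, (if s a = t a then 0 else (if s a ∈ W then 1 else 0) + (if t a ∈ W then 1 else 0)) := by
  have h1 : ∀ u, (if u ∈ W then dd s t {u} else 0) =
      ∑ a, (if u ∈ W then (if (s a ∈ ({u} : Set V) ↔ t a ∈ ({u} : Set V)) then 0 else 1)
        else 0) := by
    intro u
    by_cases hu : u ∈ W
    · simp only [hu, if_true]
      rfl
    · simp [hu]
  rw [Finset.sum_congr rfl fun u _ => h1 u, Finset.sum_comm]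
  exact Finset.sum_congr rfl fun a _ => cross_sum (s a) (t a) W

/-- twice the number of nonloop arcs meeting `W`. -/
theorem two_meet [Fintype V] [Fintype A] (s t : A → V) (W : Set V) :
    (∑ u, (if u ∈ W then dd s t {u} else 0)) + dd s t W =
      2 * (Finset.univ.filter (fun a : A => s a ≠ t a ∧ (s a ∈ W ∨ t a ∈ W))).card := by
  rw [deg_sum, Finset.card_filter, Finset.mul_sum]
  unfold dd
  rw [← Finset.sum_add_distrib]
  refine Finset.sum_congr rfl fun a _ => ?_
  by_cases h1 : s a = t a
  · simp [h1]
  · by_cases h2 : s a ∈ W <;> by_cases h3 : t a ∈ W <;> simp [h1, h2, h3]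

theorem hakimi [Fintype V] [Fintype A] (s t : A → V) (x : V → ℤ)
    (hpar : ∀ u, Even (x u + (dd s t {u} : ℤ)))
    (hsum : xs x Set.univ = 0)
    (hle : ∀ U : Set V, xs x U ≤ dd s t U) :
    ∃ O : A → Bool, ∀ U : Set V, (inn s t O Uᶜ : ℤ) - inn s t O U = xs x U := by
  have hlow : ∀ u, 0 ≤ x u + (dd s t {u} : ℤ) := by
    intro u
    have h1 := hle {u}ᶜ
    have h2 := xs_add_compl x {u}
    rw [dd_compl] at h1
    rw [xs_singleton, hsum] at h2
    linarith
  have hex : ∀ u, ∃ n : ℕ, 2 * (n : ℤ) = x u + (dd s t {u} : ℤ) := by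
    intro u
    obtain ⟨m, hm⟩ := hpar u
    have := hlow u
    have hm0 : 0 ≤ m := by omega
    refine ⟨m.toNat, ?_⟩
    rw [Int.toNat_of_nonneg hm0]
    omega
  choose out hout using hex
  -- the sum of `out` over a set
  have houtsum : ∀ W : Set V, 2 * ((∑ u, (if u ∈ W then out u else 0) : ℕ) : ℤ) =
      xs x W + ((∑ u, (if u ∈ W then dd s t {u} else 0) : ℕ) : ℤ) := by
    intro W
    unfold xs
    push_cast
    rw [Finset.mul_sum, ← Finset.sum_add_distrib]
    refine Finset.sum_congr rfl fun u _ => ?_
    by_cases hu : u ∈ W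
    · simp only [hu, if_true]
      exact hout u
    · simp [hu]
  let M : Set V → Finset A := fun W =>
    Finset.univ.filter (fun a : A => s a ≠ t a ∧ (s a ∈ W ∨ t a ∈ W))
  have hM : ∀ W : Set V, (∑ u, (if u ∈ W then out u else 0)) ≤ (M W).card := by
    intro W
    have h1 := houtsum W
    have h2 := two_meet s t W
    have h3 := hle W
    have h4 : (((∑ u, (if u ∈ W then dd s t {u} else 0)) + dd s t W : ℕ) : ℤ) =
      ((2 * (M W).card : ℕ) : ℤ) := by exact_mod_cast h2
    push_cast at h4 h1
    zify
    linarith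
  let ι := Σ u : V, Fin (out u)
  let τ : ι → Finset A := fun p =>
    Finset.univ.filter (fun a : A => s a ≠ t a ∧ (s a = p.1 ∨ t a = p.1))
  have hall : ∀ B : Finset ι, B.card ≤ (B.biUnion τ).card := by
    intro B
    obtain ⟨W, hW⟩ : ∃ W : Set V, ∀ u, u ∈ W ↔ ∃ i, (⟨u, i⟩ : ι) ∈ B :=
      ⟨{u | ∃ i, (⟨u, i⟩ : ι) ∈ B}, fun u => Iff.rfl⟩
    have h1 : B.card ≤ ∑ u, (if u ∈ W then out u else 0) := by
      have h2 : B ⊆ (Finset.univ.filter (fun u => u ∈ W)).sigma
          (fun u => (Finset.univ : Finset (Fin (out u)))) := by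
        rintro ⟨u, i⟩ hp
        rw [Finset.mem_sigma, Finset.mem_filter]
        exact ⟨⟨Finset.mem_univ _, (hW u).2 ⟨i, hp⟩⟩, Finset.mem_univ _⟩
      have h3 := Finset.card_le_card h2
      rw [Finset.card_sigma, Finset.sum_filter] at h3
      simpa using h3
    have h4 : M W ⊆ B.biUnion τ := by
      intro a ha
      simp only [M, Finset.mem_filter, Finset.mem_univ, true_and, hW] at ha
      rw [Finset.mem_biUnion]
      rcases ha with ⟨hne, ⟨i, hi⟩ | ⟨i, hi⟩⟩
      · exact ⟨_, hi, by simp [τ, hne]⟩
      · exact ⟨_, hi, by simp [τ, hne]⟩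
    exact h1.trans ((hM W).trans (Finset.card_le_card h4))
  obtain ⟨f, hfi, hf⟩ := (Finset.all_card_le_biUnion_card_iff_exists_injective τ).1 hall
  have hf' : ∀ p : ι, s (f p) ≠ t (f p) ∧ (s (f p) = p.1 ∨ t (f p) = p.1) := by
    intro p
    have := hf p
    simpa only [τ, Finset.mem_filter, Finset.mem_univ, true_and] using this
  -- `f` is onto the nonloop arcs
  have hcard : Fintype.card ι = (M Set.univ).card := by
    obtain ⟨T, hTu⟩ : ∃ T : Set V, T = Set.univ := ⟨_, rfl⟩
    have h1 := houtsum T
    have h2 := two_meet s t T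
    have h3 : dd s t T = 0 := by simp [dd, hTu]
    have hT : ∀ u, u ∈ T := fun u => by rw [hTu]; trivial
    rw [← hTu] at hsum ⊢
    rw [hsum] at h1
    have h4 : Fintype.card ι = ∑ u, out u := by
      simp [ι]
    rw [h3, add_zero] at h2
    rw [h4]
    have h6 : 2 * (∑ u, out u) = 2 * (M T).card := by
      have h7 := h1
      rw [zero_add] at h7
      have h8 : 2 * (∑ u, (if u ∈ T then out u else 0)) =
          ∑ u, (if u ∈ T then dd s t {u} else 0) := by exact_mod_cast h7
      rw [h2] at h8
      have h9 : (∑ u, (if u ∈ T then out u else 0)) = ∑ u, out u :=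
        Finset.sum_congr rfl fun u _ => if_pos (hT u)
      rw [h9] at h8
      exact h8
    omega
  have honto : ∀ a, s a ≠ t a → ∃ p : ι, f p = a := by
    have h1 : Finset.univ.image f ⊆ M Set.univ := by
      intro a ha
      obtain ⟨p, -, rfl⟩ := Finset.mem_image.1 ha
      simp only [M, Finset.mem_filter, Finset.mem_univ, true_and, Set.mem_univ, or_self, and_true]
      exact (hf' p).1
    have h2 : (M Set.univ).card ≤ (Finset.univ.image f).card := by
      rw [Finset.card_image_of_injective _ hfi, Finset.card_univ, hcard]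
    have h3 := Finset.eq_of_subset_of_card_le h1 h2
    intro a ha
    have h4 : a ∈ M Set.univ := by
      simp only [M, Finset.mem_filter, Finset.mem_univ, true_and, Set.mem_univ, or_self, and_true]
      exact ha
    rw [← h3] at h4
    obtain ⟨p, -, hp⟩ := Finset.mem_image.1 h4
    exact ⟨p, hp⟩
  let O : A → Bool := fun a => decide (∃ i, f ⟨s a, i⟩ = a)
  have hOt : ∀ a, O a = true ↔ ∃ i, f ⟨s a, i⟩ = a := fun a => by simp [O]
  refine ⟨O, net_of_singletons s t O x fun u => ?_⟩
  have hout' : inn s t O {u}ᶜ = out u := by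
    have h1 : inn s t O {u}ᶜ = (Finset.univ.filter
        (fun a : A => hd s t O a ∈ ({u}ᶜ : Set V) ∧ tl s t O a ∉ ({u}ᶜ : Set V))).card := by
      rw [Finset.card_filter]
      unfold inn
      refine Finset.sum_congr rfl fun a _ => ?_
      congr!
    have h2 : (Finset.univ.filter
        (fun a : A => hd s t O a ∈ ({u}ᶜ : Set V) ∧ tl s t O a ∉ ({u}ᶜ : Set V))) =
        Finset.univ.image (fun i : Fin (out u) => f ⟨u, i⟩) := by
      ext a
      simp only [Finset.mem_filter, Finset.mem_univ, true_and, Set.mem_compl_iff,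
        Set.mem_singleton_iff, not_not, Finset.mem_image]
      constructor
      · rintro ⟨h3, h4⟩
        by_cases hO : O a = true
        · obtain ⟨i, hi⟩ := (hOt a).1 hO
          have h5 : s a = u := by simpa [tl, hO] using h4
          subst h5
          exact ⟨i, hi⟩
        · have hO' : O a = false := by simpa using hO
          have h5 : t a = u := by simpa [tl, hO'] using h4
          have h6 : s a ≠ u := by simpa [hd, hO'] using h3
          have h7 : s a ≠ t a := by rw [h5]; exact h6
          obtain ⟨⟨w, i⟩, hp⟩ := honto a h7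
          have h8 := (hf' ⟨w, i⟩).2
          rw [hp] at h8
          rcases h8 with h8 | h8
          · exfalso
            apply hO
            rw [hOt]
            subst h8
            exact ⟨i, hp⟩
          · have h9 : w = u := h8.symm.trans h5
            subst h9
            exact ⟨i, hp⟩
      · rintro ⟨i, hi⟩
        have h3 := hf' ⟨u, i⟩
        rw [hi] at h3
        obtain ⟨h4, h5⟩ := h3
        rcases h5 with h5 | h5
        · have hO : O a = true := by
            rw [hOt]
            subst h5
            exact ⟨i, hi⟩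
          simp only [hd, tl, hO, cond_true]
          exact ⟨fun h => h4 (h5.trans h.symm), h5⟩
        · have hO : O a = false := by
            by_contra hO
            have hO' : O a = true := by simpa using hO
            obtain ⟨j, hj⟩ := (hOt a).1 hO'
            have h6 := hfi (hj.trans hi.symm)
            have h7 : s a = u := congrArg Sigma.fst h6
            exact h4 (h7.trans h5.symm)
          simp only [hd, tl, hO, cond_false]
          exact ⟨fun h => h4 (h.trans h5.symm), h5⟩
    rw [h1, h2, Finset.card_image_of_injective, Finset.card_univ, Fintype.card_fin]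
    intro i j hij
    have := hfi hij
    exact eq_of_heq (Sigma.mk.inj_iff.1 this).2
  have h1 := inn_add_compl s t O {u}
  have h2 := hout u
  rw [hout'] at h1 ⊢
  have h3 : (inn s t O {u} : ℤ) + out u = dd s t {u} := by exact_mod_cast h1
  linarith

end Pool.Agent.DJ9e
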