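import Pool.Agent.Lib_MP_9e7d46_co.Hakimi

set_option autoImplicit false
set_option linter.unusedSectionVars false

/-!
# Orientations with prescribed net degrees and a forced arc
-/

namespace Pool.Agent.DJ9e

open Classical

universe u v

variable {V : Type u} {A : Type v}

/-- indicator. -/
noncomputable def ind (U : Set V) (u : V) : ℤ := if u ∈ U then 1 else 0

theorem xs_move [Fintype V] (x : V → ℤ) (v w : V) (U : Set V) :
    xs (fun u => x u + (if u = v then 1 else 0) - (if u = w then 1 else 0)) U =
      xs x U + ind U v - ind U w := by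
  unfold xs ind
  have h : ∀ u, (if u ∈ U then x u + (if u = v then 1 else 0) - (if u = w then 1 else 0) else 0) =
      ((if u ∈ U then x u else 0) + (if u = v then (if u ∈ U then (1 : ℤ) else 0) else 0)) -
        (if u = w then (if u ∈ U then (1 : ℤ) else 0) else 0) := by
    intro u
    by_cases hu : u ∈ U
    · simp only [hu, if_true]
    · simp [hu]
  rw [Finset.sum_congr rfl fun u _ => h u, Finset.sum_sub_distrib, Finset.sum_add_distrib]
  simp

theorem dd_update [Fintype A] (s t : A → V) (a0 : A) (v : V) (U : Set V) :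
    dd (Function.update s a0 v) (Function.update t a0 v) U +
      (if (s a0 ∈ U ↔ t a0 ∈ U) then 0 else 1) = dd s t U := by
  unfold dd
  rw [← Finset.add_sum_erase _ _ (Finset.mem_univ a0),
    ← Finset.add_sum_erase _ (fun a => if (s a ∈ U ↔ t a ∈ U) then 0 else 1)
      (Finset.mem_univ a0)]
  have h : ∀ a ∈ Finset.univ.erase a0,
      (if (Function.update s a0 v a ∈ U ↔ Function.update t a0 v a ∈ U) then 0 else 1) =
      (if (s a ∈ U ↔ t a ∈ U) then 0 else 1) := by
    intro a ha
    have hne : a ≠ a0 := Finset.ne_of_mem_erase ha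
    simp only [Function.update_of_ne hne]
  rw [Finset.sum_congr rfl h]
  simp only [Function.update_self, if_true, zero_add]
  rw [add_comm]

theorem net_update [Fintype A] (s t : A → V) (O' : A → Bool) (a0 : A) (v w : V)
    (h0 : (s a0 = v ∧ t a0 = w) ∨ (s a0 = w ∧ t a0 = v)) (hvw : v ≠ w) (U : Set V) :
    (∑ a, (ind U (tl s t (Function.update O' a0 (decide (t a0 = v))) a) -
      ind U (hd s t (Function.update O' a0 (decide (t a0 = v))) a))) =
    (∑ a, (ind U (tl (Function.update s a0 v) (Function.update t a0 v) O' a) -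
      ind U (hd (Function.update s a0 v) (Function.update t a0 v) O' a))) + ind U w - ind U v := by
  rw [← Finset.add_sum_erase _ _ (Finset.mem_univ a0),
    ← Finset.add_sum_erase _ (fun a =>
      (ind U (tl (Function.update s a0 v) (Function.update t a0 v) O' a) -
      ind U (hd (Function.update s a0 v) (Function.update t a0 v) O' a)))
      (Finset.mem_univ a0)]
  have h : ∀ a ∈ Finset.univ.erase a0,
      (ind U (tl s t (Function.update O' a0 (decide (t a0 = v))) a) -
      ind U (hd s t (Function.update O' a0 (decide (t a0 = v))) a)) =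
      (ind U (tl (Function.update s a0 v) (Function.update t a0 v) O' a) -
      ind U (hd (Function.update s a0 v) (Function.update t a0 v) O' a)) := by
    intro a ha
    have hne : a ≠ a0 := Finset.ne_of_mem_erase ha
    simp only [tl, hd, Function.update_of_ne hne]
  rw [Finset.sum_congr rfl h]
  have h2 : tl s t (Function.update O' a0 (decide (t a0 = v))) a0 = w := by
    rcases h0 with ⟨h1, h2⟩ | ⟨h1, h2⟩
    · simp [tl, h1, h2, hvw.symm]
    · simp [tl, h1, h2]
  have h3 : hd s t (Function.update O' a0 (decide (t a0 = v))) a0 = v := by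
    rcases h0 with ⟨h1, h2⟩ | ⟨h1, h2⟩
    · simp [hd, h1, h2, hvw.symm]
    · simp [hd, h1, h2]
  have h4 : tl (Function.update s a0 v) (Function.update t a0 v) O' a0 = v := by
    simp only [tl, Function.update_self, Bool.cond_self]
  have h5 : hd (Function.update s a0 v) (Function.update t a0 v) O' a0 = v := by
    simp only [hd, Function.update_self, Bool.cond_self]
  rw [h2, h3, h4, h5]
  ring

theorem net_eq' [Fintype A] (s t : A → V) (O : A → Bool) (U : Set V) :
    (inn s t O Uᶜ : ℤ) - inn s t O U = ∑ a, (ind U (tl s t O a) - ind U (hd s t O a)) :=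
  net_eq s t O U

theorem hakimi_root [Fintype V] [Fintype A] (s t : A → V) (x : V → ℤ)
    (hpar : ∀ u, Even (x u + (dd s t {u} : ℤ)))
    (hsum : xs x Set.univ = 0)
    (hle : ∀ U : Set V, U.Nonempty → Uᶜ.Nonempty → xs x U + 2 ≤ dd s t U)
    (v : V) (a0 : A) (hv : dd s t {v} = 3) (hxv : x v = 1) (ha0 : Cr s t {v} a0) :
    ∃ O : A → Bool, (∀ U : Set V, (inn s t O Uᶜ : ℤ) - inn s t O U = xs x U) ∧
      hd s t O a0 = v ∧ ∀ b, b ≠ a0 → Cr s t {v} b → tl s t O b = v := by
  obtain ⟨w, hvw, h0⟩ : ∃ w, v ≠ w ∧ ((s a0 = v ∧ t a0 = w) ∨ (s a0 = w ∧ t a0 = v)) := by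
    unfold Cr at ha0
    simp only [Set.mem_singleton_iff] at ha0
    by_cases h1 : s a0 = v
    · refine ⟨t a0, fun h => ha0 ⟨fun _ => h.symm, fun _ => h1⟩, Or.inl ⟨h1, rfl⟩⟩
    · by_cases h2 : t a0 = v
      · exact ⟨s a0, fun h => h1 h.symm, Or.inr ⟨rfl, h2⟩⟩
      · exact absurd ⟨fun h => absurd h h1, fun h => absurd h h2⟩ ha0
  have hcr : ∀ U : Set V, ((if (s a0 ∈ U ↔ t a0 ∈ U) then 0 else 1 : ℕ) : ℤ) =
      (ind U v - ind U w) * (ind U v - ind U w) := by
    intro U
    unfold ind
    rcases h0 with ⟨h1, h2⟩ | ⟨h1, h2⟩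
    · rw [h1, h2]
      by_cases h3 : v ∈ U <;> by_cases h4 : w ∈ U <;> simp [h3, h4]
    · rw [h1, h2]
      by_cases h3 : v ∈ U <;> by_cases h4 : w ∈ U <;> simp [h3, h4]
  have hddZ : ∀ U : Set V,
      (dd (Function.update s a0 v) (Function.update t a0 v) U : ℤ) =
        dd s t U - (ind U v - ind U w) * (ind U v - ind U w) := by
    intro U
    have h1 := dd_update s t a0 v U
    rw [← hcr U]
    have h2 : ((dd (Function.update s a0 v) (Function.update t a0 v) U +
      (if (s a0 ∈ U ↔ t a0 ∈ U) then 0 else 1) : ℕ) : ℤ) = dd s t U := by exact_mod_cast h1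
    push_cast at h2 ⊢
    linarith
  have hind : ∀ (U : Set V) (p : V), ind U p = 0 ∨ ind U p = 1 := by
    intro U p
    unfold ind
    by_cases h : p ∈ U <;> simp [h]
  obtain ⟨O', hO'⟩ := hakimi (Function.update s a0 v) (Function.update t a0 v)
    (fun u => x u + (if u = v then 1 else 0) - (if u = w then 1 else 0)) (by
      intro u
      rw [hddZ]
      have h1 := hpar u
      have h2 : ind ({u} : Set V) v = if u = v then 1 else 0 := by
        unfold ind; simp [eq_comm]
      have h3 : ind ({u} : Set V) w = if u = w then 1 else 0 := by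
        unfold ind; simp [eq_comm]
      rw [h2, h3]
      rw [Int.even_iff] at h1 ⊢
      by_cases h4 : u = v
      · have h5 : u ≠ w := fun h => hvw (h4.symm.trans h)
        simp only [h4, hvw, if_true, if_false]
        rw [h4] at h1
        omega
      · by_cases h5 : u = w
        · simp only [h5, hvw.symm, if_true, if_false]
          rw [h5] at h1
          omega
        · simp only [h4, h5, if_false]
          omega) (by
      rw [xs_move, hsum]
      unfold ind
      simp) (by
      intro U
      rw [xs_move, hddZ]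
      by_cases h1 : U.Nonempty
      · by_cases h2 : Uᶜ.Nonempty
        · have h3 := hle U h1 h2
          rcases hind U v with h4 | h4 <;> rcases hind U w with h5 | h5 <;> rw [h4, h5] <;> omega
        · rw [Set.not_nonempty_iff_eq_empty, Set.compl_empty_iff] at h2
          subst h2
          rw [hsum]
          unfold ind
          simp
      · rw [Set.not_nonempty_iff_eq_empty] at h1
        subst h1
        unfold ind xs
        simp)
  have hO : ∀ U : Set V, (inn s t (Function.update O' a0 (decide (t a0 = v))) Uᶜ : ℤ) -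
      inn s t (Function.update O' a0 (decide (t a0 = v))) U = xs x U := by
    intro U
    rw [net_eq', net_update s t O' a0 v w h0 hvw U, ← net_eq', hO', xs_move]
    ring
  have hhd : hd s t (Function.update O' a0 (decide (t a0 = v))) a0 = v := by
    rcases h0 with ⟨h1, h2⟩ | ⟨h1, h2⟩
    · simp [hd, h1, h2, hvw.symm]
    · simp [hd, h1, h2]
  have htl : tl s t (Function.update O' a0 (decide (t a0 = v))) a0 = w := by
    rcases h0 with ⟨h1, h2⟩ | ⟨h1, h2⟩
    · simp [tl, h1, h2, hvw.symm]
    · simp [tl, h1, h2]
  refine ⟨Function.update O' a0 (decide (t a0 = v)), hO, hhd, ?_⟩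
  intro b hb hcb
  generalize Function.update O' a0 (decide (t a0 = v)) = O at hO hhd htl ⊢
  by_contra hcon
  have h1 := hO {v}
  have h2 := inn_add_compl s t O {v}
  rw [xs_singleton, hxv] at h1
  rw [hv] at h2
  have h3 : inn s t O {v} = 1 := by omega
  have h4 : hd s t O b = v := by
    unfold Cr at hcb
    simp only [Set.mem_singleton_iff] at hcb
    unfold hd
    unfold tl at hcon
    by_cases h5 : O b = true
    · simp only [h5, cond_true] at hcon ⊢
      by_contra h6
      exact hcb ⟨fun h => absurd h hcon, fun h => absurd h h6⟩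
    · have h6 : O b = false := by simpa using h5
      simp only [h6, cond_false] at hcon ⊢
      by_contra h6
      exact hcb ⟨fun h => absurd h h6, fun h => absurd h hcon⟩
  have h5 : ({a0, b} : Finset A).card ≤ inn s t O {v} := by
    unfold inn
    have h6 : (∑ a ∈ ({a0, b} : Finset A),
        if (hd s t O a ∈ ({v} : Set V) ∧ tl s t O a ∉ ({v} : Set V)) then 1 else 0) ≤
        ∑ a, if (hd s t O a ∈ ({v} : Set V) ∧ tl s t O a ∉ ({v} : Set V)) then 1 else 0 :=
      Finset.sum_le_sum_of_subset (Finset.subset_univ _)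
    refine le_trans ?_ h6
    rw [Finset.card_eq_sum_ones]
    refine Finset.sum_le_sum fun a ha => ?_
    rw [Finset.mem_insert, Finset.mem_singleton] at ha
    rcases ha with rfl | rfl
    · rw [if_pos]
      refine ⟨hhd, ?_⟩
      rw [htl]
      exact fun h => hvw h.symm
    · rw [if_pos]
      exact ⟨h4, hcon⟩
  rw [h3, Finset.card_pair (Ne.symm hb)] at h5
  omega

end Pool.Agent.DJ9e
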