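import Pool.Agent.Lib_MP_9e7d46_co.Defs

set_option autoImplicit false
set_option linter.unusedSectionVars false

namespace Pool.Agent.DJ9e

open Classical

universe u v

variable {V : Type u} {A : Type v}

/-- the sign vector of a pairing, with global sign `c` -/
noncomputable def sgv [Fintype V] (μ : V → V) (c : ℤ) (u : V) : ℤ :=
  if μ u = u then 0 else if Fintype.equivFin V u < Fintype.equivFin V (μ u) then c else -c

theorem sgv_inv [Fintype V] (μ : V → V) (hi : ∀ u, μ (μ u) = u) (c : ℤ) (u : V) :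
    sgv μ c (μ u) = - sgv μ c u := by
  unfold sgv
  rw [hi]
  by_cases h : μ u = u
  · rw [if_pos h, if_pos h.symm, neg_zero]
  · rw [if_neg h, if_neg (fun h' => h h'.symm)]
    have hne : Fintype.equivFin V u ≠ Fintype.equivFin V (μ u) := fun h' =>
      h ((Fintype.equivFin V).injective h').symm
    rcases lt_or_gt_of_ne hne with h1 | h1
    · rw [if_pos h1, if_neg (not_lt.mpr h1.le)]
    · rw [if_pos h1, if_neg (not_lt.mpr h1.le), neg_neg]

theorem sgv_le [Fintype V] (μ : V → V) (c : ℤ) (hc : c = 1 ∨ c = -1) (u : V) :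
    sgv μ c u ≤ 1 := by
  unfold sgv
  rcases hc with rfl | rfl <;> split_ifs <;> norm_num

theorem sgv_odd [Fintype V] (μ : V → V) (c : ℤ) (hc : c = 1 ∨ c = -1) (u : V) (h : μ u ≠ u) :
    Odd (sgv μ c u) := by
  unfold sgv
  rw [if_neg h]
  rcases hc with rfl | rfl <;> split_ifs <;> decide

theorem xs_le_dM [Fintype V] (μ : V → V) (hi : ∀ u, μ (μ u) = u) (c : ℤ)
    (hc : c = 1 ∨ c = -1) (U : Set V) : xs (sgv μ c) U ≤ dM μ U := by
  unfold xs dM
  have h1 : ∀ u, (if u ∈ U then sgv μ c u else 0) =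
      (if (u ∈ U ∧ μ u ∉ U) then sgv μ c u else 0) + (if (u ∈ U ∧ μ u ∈ U) then sgv μ c u else 0) := by
    intro u
    by_cases h1 : u ∈ U <;> by_cases h2 : μ u ∈ U <;> simp [h1, h2]
  have h2 : ∑ u, (if (u ∈ U ∧ μ u ∈ U) then sgv μ c u else 0) = 0 := by
    have h3 : ∑ u, (if (u ∈ U ∧ μ u ∈ U) then sgv μ c u else 0)
        = ∑ u, (if (μ u ∈ U ∧ μ (μ u) ∈ U) then sgv μ c (μ u) else 0) := by
      symm
      exact Fintype.sum_bijective μ (Function.Involutive.bijective hi) _ _ (fun _ => rfl)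
    have h4 : ∑ u, (if (μ u ∈ U ∧ μ (μ u) ∈ U) then sgv μ c (μ u) else 0)
        = - ∑ u, (if (u ∈ U ∧ μ u ∈ U) then sgv μ c u else 0) := by
      rw [← Finset.sum_neg_distrib]
      refine Finset.sum_congr rfl fun u _ => ?_
      rw [hi, sgv_inv μ hi]
      by_cases h1 : u ∈ U <;> by_cases h2 : μ u ∈ U <;> simp [h1, h2]
    linarith
  rw [Finset.sum_congr rfl fun u _ => h1 u, Finset.sum_add_distrib, h2, add_zero]
  push_cast
  refine Finset.sum_le_sum fun u _ => ?_
  have := sgv_le μ c hc u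
  by_cases h1 : u ∈ U ∧ μ u ∉ U
  · simpa [h1] using this
  · simp [h1]

theorem xs_univ_zero [Fintype V] (μ : V → V) (hi : ∀ u, μ (μ u) = u) (c : ℤ) :
    xs (sgv μ c) Set.univ = 0 := by
  unfold xs
  simp only [Set.mem_univ, if_true]
  have h3 : ∑ u, sgv μ c u = ∑ u, sgv μ c (μ u) := by
    symm
    exact Fintype.sum_bijective μ (Function.Involutive.bijective hi) _ _ (fun _ => rfl)
  have h4 : ∑ u, sgv μ c (μ u) = - ∑ u, sgv μ c u := by
    rw [← Finset.sum_neg_distrib]
    exact Finset.sum_congr rfl fun u _ => sgv_inv μ hi c u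
  linarith

/-- P3 (orientation from a pairing), relative to the two Hakimi type statements. -/
theorem orient_of_pairing_aux [Fintype V] [Fintype A]
    (hakimi : ∀ (s t : A → V) (x : V → ℤ)
      (_ : ∀ u, Even (x u + (dd s t {u} : ℤ)))
      (_ : xs x Set.univ = 0)
      (_ : ∀ U : Set V, xs x U ≤ dd s t U),
      ∃ O : A → Bool, ∀ U : Set V, (inn s t O Uᶜ : ℤ) - inn s t O U = xs x U)
    (hakimi_root : ∀ (s t : A → V) (x : V → ℤ)
      (_ : ∀ u, Even (x u + (dd s t {u} : ℤ)))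
      (_ : xs x Set.univ = 0)
      (_ : ∀ U : Set V, U.Nonempty → Uᶜ.Nonempty → xs x U + 2 ≤ dd s t U)
      (v : V) (a0 : A) (_ : dd s t {v} = 3) (_ : x v = 1) (_ : Cr s t {v} a0),
      ∃ O : A → Bool, (∀ U : Set V, (inn s t O Uᶜ : ℤ) - inn s t O U = xs x U) ∧
        hd s t O a0 = v ∧ ∀ b, b ≠ a0 → Cr s t {v} b → tl s t O b = v)
    (s t : A → V) (N : Set V) (k : ℕ)
    (μ : V → V) (hμ : Pairing s t N k μ) (R : Option (V × A)) (hR : RootOK s t R) :
    ∃ O : A → Bool, PatOK s t O R ∧ ∀ U : Set V, dd s t U ≤ 2 * inn s t O U + dM μ U := by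
  have hi := hμ.invol
  have hpar : ∀ c : ℤ, (c = 1 ∨ c = -1) → ∀ u, Even (sgv μ c u + (dd s t {u} : ℤ)) := by
    intro c hc u
    by_cases h : μ u = u
    · have h1 : ¬ Odd (dd s t {u}) := fun h' => (hμ.odd u).mpr h' h
      rw [Nat.not_odd_iff_even] at h1
      have h2 : sgv μ c u = 0 := by unfold sgv; rw [if_pos h]
      rw [h2, zero_add]
      exact_mod_cast h1
    · have h1 : Odd (dd s t {u}) := (hμ.odd u).mp h
      have h2 : Odd ((dd s t {u} : ℤ)) := by exact_mod_cast h1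
      exact (sgv_odd μ c hc u h).add_odd h2
  have hle2 : ∀ c : ℤ, (c = 1 ∨ c = -1) → ∀ U : Set V, U.Nonempty → Uᶜ.Nonempty →
      xs (sgv μ c) U + 2 ≤ dd s t U := by
    intro c hc U h1 h2
    have h3 := (hμ.bd U h1 h2).1
    have h4 := xs_le_dM μ hi c hc U
    have h5 : (dM μ U : ℤ) + 2 ≤ dd s t U := by exact_mod_cast h3
    linarith
  have hfin : ∀ c : ℤ, (c = 1 ∨ c = -1) → ∀ O : A → Bool,
      (∀ U : Set V, (inn s t O Uᶜ : ℤ) - inn s t O U = xs (sgv μ c) U) →
      ∀ U : Set V, dd s t U ≤ 2 * inn s t O U + dM μ U := by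
    intro c hc O hO U
    have h1 := hO U
    have h2 := inn_add_compl s t O U
    have h3 := xs_le_dM μ hi c hc U
    have h4 : (inn s t O U : ℤ) + inn s t O Uᶜ = dd s t U := by exact_mod_cast h2
    have h5 : (dd s t U : ℤ) ≤ 2 * inn s t O U + dM μ U := by linarith
    exact_mod_cast h5
  rcases R with _ | ⟨v, a⟩
  · have hle : ∀ U : Set V, xs (sgv μ 1) U ≤ dd s t U := by
      intro U
      by_cases h1 : U.Nonempty
      · by_cases h2 : Uᶜ.Nonempty
        · have := hle2 1 (Or.inl rfl) U h1 h2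
          linarith
        · have : U = Set.univ := by
            rw [Set.not_nonempty_iff_eq_empty, Set.compl_empty_iff] at h2
            exact h2
          rw [this, xs_univ_zero μ hi]
          positivity
      · rw [Set.not_nonempty_iff_eq_empty] at h1
        rw [h1]
        have : xs (sgv μ 1) ∅ = 0 := by unfold xs; simp
        rw [this]
        positivity
    obtain ⟨O, hO⟩ := hakimi s t (sgv μ 1) (hpar 1 (Or.inl rfl)) (xs_univ_zero μ hi 1) hle
    refine ⟨O, ?_, hfin 1 (Or.inl rfl) O hO⟩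
    intro v a h
    cases h
  · obtain ⟨h3, hcr⟩ := hR v a rfl
    have hodd : μ v ≠ v := (hμ.odd v).mpr (by rw [h3]; decide)
    have hcx : ∃ c : ℤ, (c = 1 ∨ c = -1) ∧ sgv μ c v = 1 := by
      by_cases h : Fintype.equivFin V v < Fintype.equivFin V (μ v)
      · refine ⟨1, Or.inl rfl, ?_⟩
        unfold sgv
        rw [if_neg hodd, if_pos h]
      · refine ⟨-1, Or.inr rfl, ?_⟩
        unfold sgv
        rw [if_neg hodd, if_neg h, neg_neg]
    obtain ⟨c, hc, hcv⟩ := hcx
    obtain ⟨O, hO, hO1, hO2⟩ := hakimi_root s t (sgv μ c) (hpar c hc) (xs_univ_zero μ hi c)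
      (hle2 c hc) v a h3 hcv hcr
    refine ⟨O, ?_, hfin c hc O hO⟩
    intro v' a' h
    cases h
    exact ⟨hO1, hO2⟩

end Pool.Agent.DJ9e
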