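import Pool.Agent.Lib_MP_9e7d46_co.HakimiRoot
import Pool.Agent.Lib_MP_9e7d46_co.Orient

/-!
Orientation from a pairing, unconditional form.
-/

set_option autoImplicit false
set_option linter.unusedSectionVars false

namespace Pool.Agent.DJ9e

open Classical

universe u v

variable {V : Type u} {A : Type v}

theorem orient_of_pairing [Fintype V] [Fintype A] (s t : A → V) (N : Set V) (k : ℕ)
    (μ : V → V) (hμ : Pairing s t N k μ) (R : Option (V × A)) (hR : RootOK s t R) :
    ∃ O : A → Bool, PatOK s t O R ∧ ∀ U : Set V, dd s t U ≤ 2 * inn s t O U + dM μ U :=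
  orient_of_pairing_aux (fun s t x h1 h2 h3 => hakimi s t x h1 h2 h3)
    (fun s t x h1 h2 h3 v a h4 h5 h6 => hakimi_root s t x h1 h2 h3 v a h4 h5 h6)
    s t N k μ hμ R hR

end Pool.Agent.DJ9e
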