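import Pool.Agent.Lib_MP_9e7d46_co.Contract
import Pool.Agent.Lib_MP_9e7d46_co.Ext
import Pool.Agent.Lib_MP_9e7d46_co.Terminal
import Pool.Agent.Lib_MP_9e7d46_co.OrientFull

/-!
The main induction: existence of good orientations.
-/

set_option autoImplicit false
set_option linter.unusedSectionVars false

namespace Pool.Agent.DJ9e

open Classical

universe u v

variable {V : Type u} {A : Type v} [Fintype A]

theorem goodOn_flip (s t : A → V) (k : ℕ) (O : A → Bool) (U : Set V) :
    GoodOn s t k (fun a => !(O a)) U ↔ GoodOn s t k O Uᶜ := by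
  unfold GoodOn; rw [inn_flip, Sh_compl]

theorem tl_flip (s t : A → V) (O : A → Bool) (a : A) :
    tl s t (fun a => !(O a)) a = hd s t O a := by
  unfold tl hd; cases h : O a <;> simp [h]

theorem hd_flip (s t : A → V) (O : A → Bool) (a : A) :
    hd s t (fun a => !(O a)) a = tl s t O a := by
  unfold tl hd; cases h : O a <;> simp [h]

theorem hd_tl_of_cr (s t : A → V) (O : A → Bool) (U : Set V) (a : A) (h : Cr s t U a) :
    (hd s t O a ∈ U ↔ tl s t O a ∉ U) := by
  unfold Cr at h
  unfold hd tl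
  by_cases h1 : s a ∈ U <;> by_cases h2 : t a ∈ U <;> cases hO : O a <;> simp_all

/-- the crossing arc entering `X` is exactly `a0`. -/
def Ent (s t : A → V) (O : A → Bool) (X : Set V) (a0 : A) : Prop :=
  ∀ c, Cr s t X c → (hd s t O c ∈ X ↔ c = a0)

theorem ent_agree (s t : A → V) (O₁ O₂ : A → Bool) (X : Set V) (a0 : A)
    (h1 : Ent s t O₁ X a0) (h2 : Ent s t O₂ X a0) (c : A) (hc : Cr s t X c) : O₁ c = O₂ c := by
  have h : (hd s t O₁ c ∈ X ↔ hd s t O₂ c ∈ X) := (h1 c hc).trans (h2 c hc).symm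
  unfold Cr at hc
  unfold hd at h
  by_cases h1 : s c ∈ X <;> by_cases h2 : t c ∈ X <;> cases hO : O₁ c <;> cases hO' : O₂ c <;>
    simp_all

theorem cr_of_enter (s t : A → V) (O : A → Bool) (U : Set V) (a : A)
    (h : hd s t O a ∈ U ∧ tl s t O a ∉ U) : Cr s t U a := by
  unfold Cr
  unfold hd tl at h
  by_cases h1 : s a ∈ U <;> by_cases h2 : t a ∈ U <;> cases hO : O a <;> simp_all

theorem exists_ent (s t : A → V) (O : A → Bool) (X : Set V) (h : inn s t O X = 1) :
    ∃ a0, Cr s t X a0 ∧ Ent s t O X a0 := by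
  unfold inn at h
  rw [Finset.sum_boole, Nat.cast_id, Finset.card_eq_one] at h
  obtain ⟨a0, ha0⟩ := h
  have h0 : ∀ c, (hd s t O c ∈ X ∧ tl s t O c ∉ X) ↔ c = a0 := by
    intro c
    rw [← Finset.mem_singleton, ← ha0, Finset.mem_filter]
    simp
  refine ⟨a0, cr_of_enter s t O X a0 ((h0 a0).2 rfl), fun c hc => ?_⟩
  rw [← h0 c]
  have := hd_tl_of_cr s t O X c hc
  tauto

theorem cr_compl (s t : A → V) (X : Set V) (c : A) : Cr s t Xᶜ c ↔ Cr s t X c := by
  unfold Cr
  by_cases h1 : s c ∈ X <;> by_cases h2 : t c ∈ X <;> simp [h1, h2]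

/-- if exactly one arc leaves, the flipped orientation has exactly one entering arc -/
theorem exists_ent_flip (s t : A → V) (O : A → Bool) (X : Set V) (h : inn s t O Xᶜ = 1) :
    ∃ a0, Cr s t X a0 ∧ Ent s t (fun a => !(O a)) X a0 := by
  apply exists_ent
  rw [inn_flip]; exact h

theorem step1 [Fintype V] (k : ℕ) (s t : A → V)
    (IH : ∀ (V' : Type u) [Fintype V'], Fintype.card V' < Fintype.card V →
      ∀ s' t' : A → V', MainStmt k s' t')
    (hyp : Hyp s t k) (X : Set V) (hX : dd s t X ≤ 3)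
    (x x' : V) (hx : x ∈ X) (hx' : x' ∈ X) (hxx : x' ≠ x)
    (y y' : V) (hy : y ∈ Xᶜ) (hy' : y' ∈ Xᶜ) (hyy : y' ≠ y)
    (R : Option (V × A)) (hR : RootOK s t R) (hRX : ∀ v a, R = some (v, a) → v ∈ X) :
    ∃ O, Good s t k O ∧ PatOK s t O R := by
  obtain ⟨O₁, h1, hP⟩ := contract_use k s t IH hyp Xᶜ y y' hy hy' hyy R hR
    (fun v a hva hc => hc (hRX v a hva))
  have hXne : X.Nonempty := ⟨x, hx⟩
  have hXcne : Xᶜ.Nonempty := ⟨y, hy⟩
  have hsat1 : Sat Xᶜ X := Or.inr (Set.Subset.refl _)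
  have e1 := (h1 X hXne hXcne hsat1).1
  have e1' := (h1 Xᶜ hXcne (by rwa [compl_compl]) (Or.inl (Set.Subset.refl _))).1
  have esum := inn_add_compl s t O₁ X
  have hd2 := (hyp X hXne hXcne).1
  -- the second orientation, agreeing with the first on the cut
  have key : ∃ O₂ : A → Bool,
      (∀ U : Set V, U.Nonempty → Uᶜ.Nonempty → Sat X U → GoodOn s t k O₂ U) ∧
      ∀ c, Cr s t X c → O₁ c = O₂ c := by
    have hflip : ∀ O : A → Bool,
        (∀ U : Set V, U.Nonempty → Uᶜ.Nonempty → Sat X U → GoodOn s t k O U) →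
        (∀ U : Set V, U.Nonempty → Uᶜ.Nonempty → Sat X U →
          GoodOn s t k (fun a => !(O a)) U) := by
      intro O hO U hU hUc hs
      rw [goodOn_flip]
      exact hO _ hUc (by rwa [compl_compl]) ((Sat_compl X U).2 hs)
    rcases (by omega : dd s t X = 2 ∨ dd s t X = 3) with h2 | h3
    · obtain ⟨O₂, g1, -⟩ := contract_use k s t IH hyp X x x' hx hx' hxx none
        (by intro v a h; exact absurd h (by simp)) (by intro v a h; exact absurd h (by simp))
      have f1 := (g1 X hXne hXcne (Or.inl (Set.Subset.refl _))).1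
      have f1' := (g1 Xᶜ hXcne (by rwa [compl_compl])
        (Or.inr (by rw [compl_compl]))).1
      have fsum := inn_add_compl s t O₂ X
      obtain ⟨a0, ha0, hE⟩ := exists_ent s t O₁ X (by omega)
      obtain ⟨b0, hb0, hE0⟩ := exists_ent s t O₂ X (by omega)
      obtain ⟨b1, hb1, hE1⟩ := exists_ent_flip s t O₂ X (by omega)
      by_cases hcase : hd s t O₂ a0 ∈ X
      · have : a0 = b0 := (hE0 a0 ha0).1 hcase
        subst this
        exact ⟨O₂, g1, ent_agree s t O₁ O₂ X a0 hE hE0⟩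
      · have h' : tl s t O₂ a0 ∈ X := by
          by_contra hc
          exact hcase ((hd_tl_of_cr s t O₂ X a0 ha0).2 hc)
        have : a0 = b1 := (hE1 a0 ha0).1 (by rw [hd_flip]; exact h')
        subst this
        exact ⟨fun a => !(O₂ a), hflip O₂ g1, ent_agree s t O₁ _ X a0 hE hE1⟩
    · have root : ∀ a0, Cr s t X a0 → ∃ O₂ : A → Bool,
          (∀ U : Set V, U.Nonempty → Uᶜ.Nonempty → Sat X U → GoodOn s t k O₂ U) ∧
          Ent s t O₂ X a0 := by
        intro a0 ha0
        obtain ⟨O₂, g1, g2, g3⟩ := contract_root k s t IH hyp X x x' hx hx' hxx h3 a0 ha0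
        refine ⟨O₂, g1, fun c hc => ?_⟩
        by_cases hca : c = a0
        · subst hca; exact ⟨fun _ => rfl, fun _ => g2⟩
        · have := g3 c hca hc
          have h' := hd_tl_of_cr s t O₂ X c hc
          exact ⟨fun h'' => absurd this (h'.1 h''), fun h'' => absurd h'' hca⟩
      rcases (by omega : inn s t O₁ X = 1 ∨ inn s t O₁ Xᶜ = 1) with h5 | h5
      · obtain ⟨a0, ha0, hE⟩ := exists_ent s t O₁ X h5
        obtain ⟨O₂, g1, g2⟩ := root a0 ha0
        exact ⟨O₂, g1, ent_agree s t O₁ O₂ X a0 hE g2⟩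
      · obtain ⟨a0, ha0, hE⟩ := exists_ent_flip s t O₁ X h5
        obtain ⟨O₂, g1, g2⟩ := root a0 ha0
        refine ⟨fun a => !(O₂ a), hflip O₂ g1, fun c hc => ?_⟩
        have := ent_agree s t (fun a => !(O₁ a)) O₂ X a0 hE g2 c hc
        simp only [← this, Bool.not_not]
  obtain ⟨O₂, h2, hag⟩ := key
  refine ⟨_, glue_orient s t k X hX O₁ O₂ hag h1 h2, ?_⟩
  intro v a hva
  have hvX := hRX v a hva
  obtain ⟨p1, p2⟩ := hP v a hva
  have hcr := (hR v a hva).2
  have touch : ∀ c, Cr s t {v} c → s c ∈ X ∨ t c ∈ X := by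
    intro c hc
    unfold Cr at hc
    by_cases h : s c = v
    · left; rw [h]; exact hvX
    · by_cases h' : t c = v
      · right; rw [h']; exact hvX
      · exact absurd (by simp [h, h']) hc
  refine ⟨?_, fun b hb hbc => ?_⟩
  · rw [← p1]
    simp only [hd, if_pos (touch a hcr)]
  · rw [← p2 b hb hbc]
    simp only [tl, if_pos (touch b hbc)]

theorem step2 [Fintype V] (k : ℕ) (s t : A → V)
    (IH : ∀ (V' : Type u) [Fintype V'], Fintype.card V' < Fintype.card V →
      ∀ s' t' : A → V', MainStmt k s' t')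
    (hyp : Hyp s t k) (R : Option (V × A)) (hR : RootOK s t R)
    (a : A) (hne : s a ≠ t a) (hRs : ∀ v b, R = some (v, b) → v ≠ s a ∧ v ≠ t a)
    (hW : ¬ ∃ W : Set V, (∀ b, t b ∈ W → s b ∈ W) ∧ s a ∈ W ∧ t a ∉ W) :
    ∃ O, Good s t k O ∧ PatOK s t O R := by
  obtain ⟨O₀, h1, hP⟩ := contract_use k s t IH hyp {s a, t a} (s a) (t a) (by simp) (by simp)
    (Ne.symm hne) R hR (by
      intro v b hvb hc
      have := hRs v b hvb
      rcases hc with h | h
      · exact this.1 h
      · exact this.2 h)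
  have hsat : ∀ U : Set V, (s a ∈ U ↔ t a ∈ U) → Sat {s a, t a} U := by
    intro U h
    by_cases h' : s a ∈ U
    · left
      intro x hx
      rcases hx with rfl | hx
      · exact h'
      · rw [Set.mem_singleton_iff] at hx
        subst hx; exact h.1 h'
    · right
      intro x hx
      rcases hx with rfl | hx
      · exact h'
      · rw [Set.mem_singleton_iff] at hx
        subst hx; exact fun h'' => h' (h.2 h'')
  obtain ⟨O, hO1, hO2⟩ := pair_ext s t (fun U hU hUc => (hyp U hU hUc).1) (s a) (t a) hne a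
    (Or.inl ⟨rfl, rfl⟩) O₀ (fun U hU hUc h => (h1 U hU hUc (hsat U h)).1)
  refine ⟨O, ?_, ?_⟩
  · intro U hU hUc
    refine ⟨hO2 U hU hUc, fun hS => ?_⟩
    have hns : (s a ∈ U ↔ t a ∈ U) := by
      by_contra hc
      rcases hS with hS | hS
      · have h1 := hS a
        exact hW ⟨U, hS, by tauto, by tauto⟩
      · have h1 := hS a
        refine hW ⟨Uᶜ, fun b hb hc' => hb (hS b hc'), ?_, ?_⟩
        · intro h; exact hc ⟨fun _ => h1 h, fun _ => h⟩
        · intro h
          exact h (by tauto)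
    have h2 := (h1 U hU hUc (hsat U hns)).2 hS
    have h3 : inn s t O U = inn s t O₀ U := by
      unfold inn
      refine Finset.sum_congr rfl fun b _ => ?_
      by_cases hj : Jn s t b (s a) (t a)
      · have hm : (s b ∈ U ↔ t b ∈ U) := by
          rcases hj with ⟨h, h'⟩ | ⟨h, h'⟩
          · rw [h, h']; exact hns
          · rw [h, h']; exact hns.symm
        unfold hd tl
        by_cases h1 : s b ∈ U <;> by_cases h2 : t b ∈ U <;> cases O b <;> cases O₀ b <;>
          simp_all
      · unfold hd tl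
        rw [hO1 b hj]
    rw [h3]; exact h2
  · intro v b hvb
    obtain ⟨p1, p2⟩ := hP v b hvb
    have hv := hRs v b hvb
    have hcr := (hR v b hvb).2
    have hnj : ∀ c, Cr s t {v} c → O c = O₀ c := by
      intro c hc
      apply hO1
      intro hj
      unfold Cr at hc
      apply hc
      rcases hj with ⟨h, h'⟩ | ⟨h, h'⟩
      · rw [h, h']
        simp [Ne.symm hv.1, Ne.symm hv.2]
      · rw [h, h']
        simp [Ne.symm hv.1, Ne.symm hv.2]
    refine ⟨?_, fun c hc hcc => ?_⟩
    · rw [← p1]; unfold hd; rw [hnj b hcr]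
    · rw [← p2 c hc hcc]; unfold tl; rw [hnj c hcc]

/-- the pairing theorem as a statement. -/
def PairThm (k : ℕ) : Prop :=
  ∀ (V : Type u) [Fintype V] (A : Type v) [Fintype A] (s t : A → V) (N : Set V),
    HypN s t N k → ∃ μ : V → V, Pairing s t N k μ

theorem main_induction (k : ℕ) (hk : 2 ≤ k) (hpair : PairThm.{u, v} k) (n : ℕ) :
    ∀ (V : Type u) [Fintype V], Fintype.card V = n → ∀ s t : A → V, MainStmt k s t := by
  induction n using Nat.strong_induction_on with
  | _ n IHn =>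
  intro V _ hcard s t hyp R hR
  have IH : ∀ (V' : Type u) [Fintype V'], Fintype.card V' < Fintype.card V →
      ∀ s' t' : A → V', MainStmt k s' t' := by
    intro V' _ hlt s' t'
    exact IHn _ (by rw [← hcard]; exact hlt) V' rfl s' t'
  -- nontrivial cuts with at most three arcs
  by_cases hA : ∃ X : Set V, dd s t X ≤ 3 ∧ (∃ x x', x ∈ X ∧ x' ∈ X ∧ x' ≠ x) ∧
      (∃ y y', y ∈ Xᶜ ∧ y' ∈ Xᶜ ∧ y' ≠ y)
  · obtain ⟨X, hX, ⟨x, x', hx, hx', hxx⟩, ⟨y, y', hy, hy', hyy⟩⟩ := hA
    by_cases hRX : ∀ v a, R = some (v, a) → v ∈ X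
    · exact step1 k s t IH hyp X hX x x' hx hx' hxx y y' hy hy' hyy R hR hRX
    · push Not at hRX
      obtain ⟨v, a, hva, hv⟩ := hRX
      refine step1 k s t IH hyp Xᶜ (by rw [dd_compl]; exact hX) y y' hy hy' hyy x x'
        (by rwa [compl_compl]) (by rwa [compl_compl]) hxx R hR ?_
      intro v' a' hva'
      rw [hva] at hva'
      simp only [Option.some.injEq, Prod.mk.injEq] at hva'
      rw [← hva'.1]; exact hv
  -- contractible pairs
  by_cases hB : ∃ a, s a ≠ t a ∧ (∀ v b, R = some (v, b) → v ≠ s a ∧ v ≠ t a) ∧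
      ¬ ∃ W : Set V, (∀ b, t b ∈ W → s b ∈ W) ∧ s a ∈ W ∧ t a ∉ W
  · obtain ⟨a, h1, h2, h3⟩ := hB
    exact step2 k s t IH hyp R hR a h1 h2 h3
  -- terminal case
  let Z : Set V := {v | ∃ b, R = some (v, b)}
  have hZ : Z = ∅ ∨ ∃ v, Z = {v} ∧ dd s t {v} = 3 := by
    rcases hRR : R with _ | ⟨v, b⟩
    · left
      ext v
      simp [Z, hRR]
    · right
      refine ⟨v, ?_, (hR v b hRR).1⟩
      ext w
      simp only [Z, hRR, Set.mem_ofPred_eq, Option.some.injEq, Prod.mk.injEq,
        Set.mem_singleton_iff]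
      constructor
      · rintro ⟨_, h, _⟩; exact h.symm
      · rintro rfl; exact ⟨b, rfl, rfl⟩
  obtain ⟨N, hN, hSN⟩ := terminal_N s t k hk hyp Z hZ (by
      intro X hX hXne hXc
      by_contra hc
      push Not at hc
      apply hA
      refine ⟨X, hX, ?_, ?_⟩
      · obtain ⟨x, hx⟩ := hXne
        by_contra hcc
        apply hc.1 x
        ext z
        simp only [Set.mem_singleton_iff]
        constructor
        · intro hz
          by_contra hzx
          exact hcc ⟨x, z, hx, hz, hzx⟩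
        · rintro rfl; exact hx
      · obtain ⟨x, hx⟩ := hXc
        by_contra hcc
        apply hc.2 x
        ext z
        simp only [Set.mem_singleton_iff]
        constructor
        · intro hz
          by_contra hzx
          exact hcc ⟨x, z, hx, hz, hzx⟩
        · rintro rfl; exact hx) (by
      intro a hne hsa hta
      by_contra hc
      apply hB
      refine ⟨a, hne, fun v b hvb => ⟨?_, ?_⟩, hc⟩
      · rintro rfl; exact hsa ⟨b, hvb⟩
      · rintro rfl; exact hta ⟨b, hvb⟩)
  obtain ⟨μ, hμ⟩ := hpair V A s t N hN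
  obtain ⟨O, hP, hO⟩ := orient_of_pairing s t N k μ hμ R hR
  refine ⟨O, fun U hU hUc => ?_, hP⟩
  have h1 := hO U
  have h2 := hμ.bd U hU hUc
  refine ⟨by have := h2.1; omega, fun hS => ?_⟩
  have := h2.2 (hSN U hU hUc hS)
  omega

end Pool.Agent.DJ9e
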